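import Pool.Agent.K9h70.NC.Prof

/-!
The endpoint `i = d = n - 1`: the linearisation at the ball.
-/

set_option autoImplicit false

namespace Pool.Agent.K9h70.NC

open MeasureTheory Set Metric

/-- linear part of the map, up to a constant -/
noncomputable def LL (κ : Measure ℝ) (i : ℝ) (Φ : ℝ → ℝ) (s : ℝ) : ℝ := i * VV (bar κ Φ) (1 - s)

/-- averaged with the identity -/
noncomputable def BB (κ : Measure ℝ) (i : ℝ) (Φ : ℝ → ℝ) (s : ℝ) : ℝ := (Φ s + LL κ i Φ s) / 2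

/-- the Markov operator describing the derivative of `LL κ d Φ`: `(LL κ d Φ)' = - KO κ d Φ'` -/
noncomputable def KO (κ : Measure ℝ) (d : ℝ) (γ : ℝ → ℝ) (s : ℝ) : ℝ :=
  d * ∫ w, (∫ t in (0 : ℝ)..1, w * t ^ 2 * γ ((1 - s) * (w * t ^ 2))) ∂κ

end Pool.Agent.K9h70.NC
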