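import Pool.Agent.K9h70.NC.Err2

set_option autoImplicit false

namespace Pool.Agent.K9h70.NC

open MeasureTheory Set Metric

/-- the map is continuous -/
theorem T_map (i : ℝ) (hi : 0 < i) (L L0 τ M : ℝ) (hL0 : 0 ≤ L0) (hL08 : L0 ≤ 1 / 8)
    (hτ : |τ| ≤ 1 / 8) (hM : 0 ≤ M) (Γ : C(Icc (0 : ℝ) 1, ℝ) → ℝ → ℝ)
    (hΓ : ∀ φ ∈ KK L, Adm L0 (Γ φ))
    (hcont : ∀ φ ∈ KK L, ∀ φ' ∈ KK L, ∀ y ∈ Icc (0 : ℝ) 1, |Γ φ y - Γ φ' y| ≤ M * dist φ φ') :
    ∃ T : C(Icc (0 : ℝ) 1, ℝ) → C(Icc (0 : ℝ) 1, ℝ), ContinuousOn T (KK L) ∧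
      ∀ φ ∈ KK L, ∀ s, T φ s = Fe (Γ φ) τ i (Real.sqrt s) / Fe (Γ φ) τ i 0 := by
  classical
  have hsm : ∀ s : Icc (0 : ℝ) 1, |Real.sqrt s| ≤ 1 := fun s => by
    rw [abs_of_nonneg (sqrt_mem s).1]; exact (sqrt_mem s).2
  have h01 : |(0 : ℝ)| ≤ 1 := by simp
  have hbase : 0 < 1 - L0 - |τ| := by linarith
  have hbp : 0 < (1 - L0 - |τ|) ^ i := Real.rpow_pos_of_pos hbase i
  have hcts : ∀ φ ∈ KK L, Continuous fun s : Icc (0 : ℝ) 1 =>
      Fe (Γ φ) τ i (Real.sqrt s) / Fe (Γ φ) τ i 0 := by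
    intro φ hφ
    have h1 := Fe_cont hL0 hL08 hτ (hΓ φ hφ) i
    have h2 : Continuous fun s : Icc (0 : ℝ) 1 => Fe (Γ φ) τ i (Real.sqrt s) := by
      refine h1.comp_continuous (Real.continuous_sqrt.comp continuous_subtype_val) ?_
      intro s
      exact ⟨by linarith [(sqrt_mem s).1], (sqrt_mem s).2⟩
    exact h2.div_const _
  set T : C(Icc (0 : ℝ) 1, ℝ) → C(Icc (0 : ℝ) 1, ℝ) := fun φ =>
    if h : φ ∈ KK L then ⟨_, hcts φ h⟩ else φ with hT
  have hTe : ∀ φ, φ ∈ KK L → ∀ s, T φ s = Fe (Γ φ) τ i (Real.sqrt s) / Fe (Γ φ) τ i 0 := by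
    intro φ h s
    rw [hT]
    simp only [dif_pos h]
    rfl
  have hF0 : ∀ φ ∈ KK L, (1 - L0 - |τ|) ^ i ≤ Fe (Γ φ) τ i 0 := fun φ hφ =>
    (Fe_bd hL0 hL08 hτ (hΓ φ hφ) hi h01).1
  obtain ⟨K, hK, hKl⟩ := rpow_lip i
  have hclose : ∀ φ ∈ KK L, ∀ φ' ∈ KK L, ∀ x : ℝ, |x| ≤ 1 →
      |Fe (Γ φ) τ i x - Fe (Γ φ') τ i x| ≤ 2 * K * M * dist φ φ' := by
    intro φ hφ φ' hφ' x hx
    have hx' : |-x| ≤ 1 := by rwa [abs_neg]
    have h1 := ff_lipG hL0 hL08 hτ (hΓ φ hφ) (hΓ φ' hφ') (hcont φ hφ φ' hφ') hx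
    have h2 := ff_lipG hL0 hL08 hτ (hΓ φ hφ) (hΓ φ' hφ') (hcont φ hφ φ' hφ') hx'
    have h3 := hKl _ (ff_spec hL0 hL08 hτ (hΓ φ hφ) hx).1 _ (ff_spec hL0 hL08 hτ (hΓ φ' hφ') hx).1
    have h4 := hKl _ (ff_spec hL0 hL08 hτ (hΓ φ hφ) hx').1 _ (ff_spec hL0 hL08 hτ (hΓ φ' hφ') hx').1
    unfold Fe
    have e : (ff (Γ φ) τ x ^ i + ff (Γ φ) τ (-x) ^ i) / 2 -
        (ff (Γ φ') τ x ^ i + ff (Γ φ') τ (-x) ^ i) / 2 =
        ((ff (Γ φ) τ x ^ i - ff (Γ φ') τ x ^ i) + (ff (Γ φ) τ (-x) ^ i - ff (Γ φ') τ (-x) ^ i)) / 2 := by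
      ring
    rw [e, abs_div, abs_of_pos (by norm_num : (0 : ℝ) < 2), div_le_iff₀ (by norm_num)]
    refine (abs_add_le _ _).trans ?_
    have h5 : K * |ff (Γ φ) τ x - ff (Γ φ') τ x| ≤ K * (2 * (M * dist φ φ')) := by gcongr
    have h6 : K * |ff (Γ φ) τ (-x) - ff (Γ φ') τ (-x)| ≤ K * (2 * (M * dist φ φ')) := by gcongr
    linarith
  set β := (1 - L0 - |τ|) ^ i with hβ
  have hTl : ∀ φ ∈ KK L, ∀ φ' ∈ KK L,
      dist (T φ) (T φ') ≤ (1 / β + 2 ^ i / β ^ 2) * (2 * K * M) * dist φ φ' := by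
    intro φ hφ φ' hφ'
    rw [ContinuousMap.dist_le (by positivity)]
    intro s
    rw [hTe φ hφ, hTe φ' hφ', Real.dist_eq]
    have h1 := hclose φ hφ φ' hφ' _ (hsm s)
    have h2 := hclose φ hφ φ' hφ' _ h01
    have h3 := Fe_bd hL0 hL08 hτ (hΓ φ' hφ') hi (hsm s)
    have h4 : |Fe (Γ φ') τ i (Real.sqrt s)| ≤ 2 ^ i := by
      rw [abs_of_nonneg (hbp.le.trans h3.1)]; exact h3.2
    have := div_close hbp (hF0 φ hφ) (hF0 φ' hφ') h4 h1 h2
    rw [mul_assoc]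
    exact this
  have hTc : ContinuousOn T (KK L) := by
    have : LipschitzOnWith (Real.toNNReal ((1 / β + 2 ^ i / β ^ 2) * (2 * K * M))) T (KK L) := by
      refine LipschitzOnWith.of_dist_le_mul fun φ hφ φ' hφ' => ?_
      rw [Real.coe_toNNReal _ (by positivity)]
      exact hTl φ hφ φ' hφ'
    exact this.continuousOn
  exact ⟨T, hTc, hTe⟩

def LipOn (f : ℝ → ℝ) (c : ℝ) : Prop :=
  ∀ s ∈ Icc (0 : ℝ) 1, ∀ s' ∈ Icc (0 : ℝ) 1, |f s - f s'| ≤ c * |s - s'|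

structure Nice (f : ℝ → ℝ) : Prop where
  cont : Continuous f
  bdd : ∃ B : ℝ, ∀ z, |f z| ≤ B

section linear

variable {κ : Measure ℝ} [IsProbabilityMeasure κ] {f g : ℝ → ℝ} {i d c : ℝ}

theorem Nice.int (hf : Nice f) (z : ℝ) : Integrable (fun w => f (z * w)) κ := by
  obtain ⟨B, hB⟩ := hf.bdd
  refine Integrable.of_bound (C := B) ?_ ?_
  · exact (hf.cont.comp (continuous_const_mul z)).aestronglyMeasurable
  · exact Filter.Eventually.of_forall fun w => by rw [Real.norm_eq_abs]; exact hB _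

theorem nice_bar (hf : Nice f) : Nice (bar κ f) := by
  obtain ⟨B, hB⟩ := hf.bdd
  refine ⟨?_, B, fun z => ?_⟩
  · unfold bar
    refine continuous_of_dominated (bound := fun _ => B) ?_ ?_ (integrable_const _) ?_
    · intro z
      exact (hf.cont.comp (continuous_const_mul z)).aestronglyMeasurable
    · intro z
      exact Filter.Eventually.of_forall fun w => by rw [Real.norm_eq_abs]; exact hB _
    · exact Filter.Eventually.of_forall fun w => hf.cont.comp (by fun_prop)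
  · unfold bar
    rw [← Real.norm_eq_abs]
    refine (norm_integral_le_of_norm_le_const (C := B) ?_).trans ?_
    · exact Filter.Eventually.of_forall fun w => by rw [Real.norm_eq_abs]; exact hB _
    · simp

theorem nice_VV (hf : Nice f) : Nice (VV f) := by
  obtain ⟨B, hB⟩ := hf.bdd
  refine ⟨?_, B, fun z => ?_⟩
  · unfold VV
    have hc := hf.cont
    apply intervalIntegral.continuous_parametric_intervalIntegral_of_continuous'
    unfold Function.uncurry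
    fun_prop
  · unfold VV
    rw [← Real.norm_eq_abs]
    refine (intervalIntegral.norm_integral_le_of_norm_le_const (C := B) ?_).trans ?_
    · intro t _
      rw [Real.norm_eq_abs]; exact hB _
    · simp

theorem nice_LL (hf : Nice f) : Nice (LL κ i f) := by
  have h := nice_VV (nice_bar (κ := κ) hf)
  obtain ⟨B, hB⟩ := h.bdd
  refine ⟨?_, |i| * B, fun z => ?_⟩
  · unfold LL
    exact continuous_const.mul (h.cont.comp (by fun_prop))
  · unfold LL
    rw [abs_mul]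
    exact mul_le_mul_of_nonneg_left (hB _) (abs_nonneg _)

theorem nice_BB (hf : Nice f) : Nice (BB κ i f) := by
  have h := nice_LL (κ := κ) (i := i) hf
  obtain ⟨B, hB⟩ := h.bdd
  obtain ⟨B', hB'⟩ := hf.bdd
  refine ⟨?_, (B' + B) / 2, fun z => ?_⟩
  · unfold BB
    exact (hf.cont.add h.cont).div_const _
  · unfold BB
    rw [abs_div, abs_of_pos (by norm_num : (0 : ℝ) < 2)]
    have := abs_add_le (f z) (LL κ i f z)
    have := hB z
    have := hB' z
    linarith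

theorem bar_comb (hf : Nice f) (hg : Nice g) (a b : ℝ) (z : ℝ) :
    bar κ (fun z => a * f z + b * g z) z = a * bar κ f z + b * bar κ g z := by
  unfold bar
  rw [integral_add ((hf.int z).const_mul a) ((hg.int z).const_mul b), integral_const_mul,
    integral_const_mul]

theorem VV_comb (hf : Nice f) (hg : Nice g) (a b : ℝ) (z : ℝ) :
    VV (fun z => a * f z + b * g z) z = a * VV f z + b * VV g z := by
  have hfc := hf.cont
  have hgc := hg.cont
  unfold VV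
  rw [intervalIntegral.integral_add (by apply Continuous.intervalIntegrable; fun_prop)
    (by apply Continuous.intervalIntegrable; fun_prop), intervalIntegral.integral_const_mul,
    intervalIntegral.integral_const_mul]

theorem LL_comb (hf : Nice f) (hg : Nice g) (a b : ℝ) (s : ℝ) :
    LL κ i (fun z => a * f z + b * g z) s = a * LL κ i f s + b * LL κ i g s := by
  unfold LL
  have : bar κ (fun z => a * f z + b * g z) = fun z => a * bar κ f z + b * bar κ g z := by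
    funext z; exact bar_comb hf hg a b z
  rw [this, VV_comb (nice_bar hf) (nice_bar hg)]
  ring

theorem BB_comb (hf : Nice f) (hg : Nice g) (a b : ℝ) (s : ℝ) :
    BB κ i (fun z => a * f z + b * g z) s = a * BB κ i f s + b * BB κ i g s := by
  unfold BB
  rw [LL_comb hf hg]; ring

theorem BB_comb' (hf : Nice f) (hg : Nice g) (a b : ℝ) :
    BB κ i (fun z => a * f z + b * g z) = fun s => a * BB κ i f s + b * BB κ i g s := by
  funext s; exact BB_comb hf hg a b s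

theorem LL_lip (hκ : κ (Icc 0 1)ᶜ = 0) (hd : 3 ≤ d) (hm : ∫ w, w ∂κ = 3 / d) (hf : Nice f)
    (hc : 0 ≤ c) (hl : LipOn f c) : LipOn (LL κ d f) c := by
  have hd0 : 0 < d := by linarith
  have hid : Integrable (fun w : ℝ => w) κ := by
    refine Integrable.of_bound (C := 1) continuous_id.aestronglyMeasurable ?_
    filter_upwards [LeafP.ae_mem hκ] with w hw
    rw [Real.norm_eq_abs, abs_of_nonneg hw.1]; exact hw.2
  -- `bar` on `[0,1]`
  have hbar : ∀ z ∈ Icc (0 : ℝ) 1, ∀ z' ∈ Icc (0 : ℝ) 1,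
      |bar κ f z - bar κ f z'| ≤ c * (3 / d) * |z - z'| := by
    intro z hz z' hz'
    have h1 : bar κ f z - bar κ f z' = ∫ w, (f (z * w) - f (z' * w)) ∂κ := by
      rw [integral_sub (hf.int z) (hf.int z')]
      rfl
    rw [h1, ← Real.norm_eq_abs]
    have h2 : ‖∫ w, (f (z * w) - f (z' * w)) ∂κ‖ ≤ ∫ w, c * |z - z'| * w ∂κ := by
      refine norm_integral_le_of_norm_le (hid.const_mul _) ?_
      filter_upwards [LeafP.ae_mem hκ] with w hw
      rw [Real.norm_eq_abs]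
      refine (hl _ ⟨mul_nonneg hz.1 hw.1, mul_le_one₀ hz.2 hw.1 hw.2⟩ _
        ⟨mul_nonneg hz'.1 hw.1, mul_le_one₀ hz'.2 hw.1 hw.2⟩).trans ?_
      rw [← sub_mul, abs_mul, abs_of_nonneg hw.1, mul_assoc]
    refine h2.trans ?_
    rw [integral_const_mul, hm]
    apply le_of_eq; ring
  have hbn := nice_bar (κ := κ) hf
  have hbc := hbn.cont
  intro s hs s' hs'
  unfold LL
  rw [← mul_sub, abs_mul, abs_of_pos hd0]
  have h1 : VV (bar κ f) (1 - s) - VV (bar κ f) (1 - s') =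
      ∫ t in (0 : ℝ)..1, (bar κ f ((1 - s) * t ^ 2) - bar κ f ((1 - s') * t ^ 2)) := by
    rw [intervalIntegral.integral_sub (by apply Continuous.intervalIntegrable; fun_prop)
      (by apply Continuous.intervalIntegrable; fun_prop)]
    rfl
  have h2 : |VV (bar κ f) (1 - s) - VV (bar κ f) (1 - s')| ≤
      ∫ t in (0 : ℝ)..1, c * (3 / d) * |s - s'| * t ^ 2 := by
    rw [h1, ← Real.norm_eq_abs]
    refine intervalIntegral.norm_integral_le_of_norm_le zero_le_one ?_ (by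
      apply Continuous.intervalIntegrable; fun_prop)
    refine Filter.Eventually.of_forall fun t ht => ?_
    have ht0 : 0 ≤ t ^ 2 := sq_nonneg t
    have ht1 : t ^ 2 ≤ 1 := pow_le_one₀ ht.1.le ht.2
    rw [Real.norm_eq_abs]
    refine (hbar _ ⟨mul_nonneg (by linarith [hs.2]) ht0, mul_le_one₀ (by linarith [hs.1]) ht0 ht1⟩ _
      ⟨mul_nonneg (by linarith [hs'.2]) ht0, mul_le_one₀ (by linarith [hs'.1]) ht0 ht1⟩).trans ?_
    rw [← sub_mul, abs_mul, abs_of_nonneg ht0, show (1 - s - (1 - s')) = -(s - s') by ring, abs_neg]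
    apply le_of_eq; ring
  rw [intervalIntegral.integral_const_mul] at h2
  have h3 : ∫ t in (0 : ℝ)..1, t ^ 2 = 1 / 3 := by norm_num [integral_pow]
  rw [h3] at h2
  calc d * |VV (bar κ f) (1 - s) - VV (bar κ f) (1 - s')| ≤
      d * (c * (3 / d) * |s - s'| * (1 / 3)) := by gcongr
    _ = c * |s - s'| := by field_simp

theorem BB_lip (hκ : κ (Icc 0 1)ᶜ = 0) (hd : 3 ≤ d) (hm : ∫ w, w ∂κ = 3 / d) (hf : Nice f)
    (hc : 0 ≤ c) (hl : LipOn f c) : LipOn (BB κ d f) c := by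
  have h := LL_lip hκ hd hm hf hc hl
  intro s hs s' hs'
  unfold BB
  have e : (f s + LL κ d f s) / 2 - (f s' + LL κ d f s') / 2 =
      ((f s - f s') + (LL κ d f s - LL κ d f s')) / 2 := by ring
  rw [e, abs_div, abs_of_pos (by norm_num : (0 : ℝ) < 2)]
  have h1 := hl s hs s' hs'
  have h2 := h s hs s' hs'
  have h3 := abs_add_le (f s - f s') (LL κ d f s - LL κ d f s')
  linarith

theorem LL_congr (hκ : κ (Icc 0 1)ᶜ = 0) (h : ∀ z ∈ Icc (0 : ℝ) 1, f z = g z) {s : ℝ}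
    (hs : s ∈ Icc (0 : ℝ) 1) : LL κ i f s = LL κ i g s := by
  unfold LL VV bar
  congr 1
  apply intervalIntegral.integral_congr
  intro t ht
  rw [uIcc_of_le zero_le_one] at ht
  simp only
  apply integral_congr_ae
  filter_upwards [LeafP.ae_mem hκ] with w hw
  apply h
  have ht0 : 0 ≤ t ^ 2 := sq_nonneg t
  have ht1 : t ^ 2 ≤ 1 := pow_le_one₀ ht.1 ht.2
  have h1 : 0 ≤ (1 - s) * t ^ 2 := mul_nonneg (by linarith [hs.2]) ht0
  have h2 : (1 - s) * t ^ 2 ≤ 1 := mul_le_one₀ (by linarith [hs.1]) ht0 ht1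
  exact ⟨mul_nonneg h1 hw.1, mul_le_one₀ h2 hw.1 hw.2⟩

theorem BB_congr (hκ : κ (Icc 0 1)ᶜ = 0) (h : ∀ z ∈ Icc (0 : ℝ) 1, f z = g z) {s : ℝ}
    (hs : s ∈ Icc (0 : ℝ) 1) : BB κ i f s = BB κ i g s := by
  unfold BB
  rw [LL_congr hκ h hs, h s hs]

end linear

end Pool.Agent.K9h70.NC
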