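import Pool.Agent.K9h70.NC.Defs

set_option autoImplicit false

namespace Pool.Agent.K9h70.NC.LeafC3

open MeasureTheory Set Metric

/-- the box of parameters `(τ, x, f, m, g)` -/
private def box : Set (ℝ × ℝ × ℝ × ℝ × ℝ) :=
  Icc (-(1 / 8)) (1 / 8) ×ˢ (Icc (-1) 1 ×ˢ (Icc (3 / 4) (5 / 4) ×ˢ
    (Icc (7 / 8) (9 / 8) ×ˢ Icc (-(1 / 8)) (1 / 8))))

private theorem De_pos (τ x f m g : ℝ) (hτ : |τ| ≤ 1 / 8) (hx : |x| ≤ 1) (hf : |f - 1| ≤ 1 / 4)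
    (hm : |m - 1| ≤ 1 / 8) (hg : |g| ≤ 1 / 8) : 0 < De τ x f m g := by
  obtain ⟨hf1, hf2⟩ := abs_le.1 hf
  obtain ⟨hm1, hm2⟩ := abs_le.1 hm
  obtain ⟨hx1, hx2⟩ := abs_le.1 hx
  have hf0 : (0 : ℝ) < f := by linarith
  have h1 : |τ * x| ≤ 1 / 8 := by
    rw [abs_mul]
    calc |τ| * |x| ≤ 1 / 8 * 1 := by gcongr
      _ = 1 / 8 := by norm_num
  have h2 : 5 / 8 ≤ f - τ * x := by
    have := (abs_le.1 h1).2
    linarith
  have h3 : (1 / 2 : ℝ) ≤ m ^ 3 := by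
    have : (7 / 8 : ℝ) ^ 3 ≤ m ^ 3 := by
      gcongr
      linarith
    norm_num at this
    linarith
  have h4 : (5 / 16 : ℝ) ≤ (f - τ * x) * m ^ 3 := by
    calc (5 / 16 : ℝ) = 5 / 8 * (1 / 2) := by norm_num
      _ ≤ (f - τ * x) * m ^ 3 := by gcongr
  have h5 : |f * x - τ| ≤ 11 / 8 := by
    calc |f * x - τ| ≤ |f * x| + |τ| := abs_sub _ _
      _ ≤ 5 / 4 * 1 + 1 / 8 := by
          rw [abs_mul, abs_of_pos hf0]
          gcongr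
          linarith
      _ = 11 / 8 := by norm_num
  have h6 : |1 - x ^ 2| ≤ 1 := by
    rw [abs_le]
    constructor <;> nlinarith
  have h7 : |2 * g * τ * f * (1 - x ^ 2) * (f * x - τ)| ≤ 2 * (1 / 8) * (1 / 8) * (5 / 4) * 1 * (11 / 8) := by
    rw [abs_mul, abs_mul, abs_mul, abs_mul, abs_mul, abs_of_pos hf0, abs_of_pos (by norm_num : (0 : ℝ) < 2)]
    gcongr
    linarith
  have h8 := (abs_le.1 h7).2
  have h9 : (2 * (1 / 8) * (1 / 8) * (5 / 4) * 1 * (11 / 8) : ℝ) < 5 / 16 := by norm_num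
  unfold De
  linarith

/-- LEAF C3 -/
theorem qq_lip (i : ℝ) : ∃ C : ℝ, 0 < C ∧ ∀ τ x x' f f' m m' g g' : ℝ, |τ| ≤ 1 / 8 →
    |x| ≤ 1 → |x'| ≤ 1 → |f - 1| ≤ 1 / 4 → |f' - 1| ≤ 1 / 4 → |m - 1| ≤ 1 / 8 → |m' - 1| ≤ 1 / 8 →
    |g| ≤ 1 / 8 → |g'| ≤ 1 / 8 →
    |qq i τ x f m g - qq i τ x' f' m' g'| ≤ C * (|x - x'| + |f - f'| + |m - m'| + |g - g'|) := by
  have hbox : ∀ p : ℝ × ℝ × ℝ × ℝ × ℝ, p ∈ box ↔ |p.1| ≤ 1 / 8 ∧ |p.2.1| ≤ 1 ∧ |p.2.2.1 - 1| ≤ 1 / 4 ∧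
      |p.2.2.2.1 - 1| ≤ 1 / 8 ∧ |p.2.2.2.2| ≤ 1 / 8 := by
    intro p
    simp only [box, mem_prod, mem_Icc, abs_le]
    constructor
    · rintro ⟨⟨a1, a2⟩, ⟨b1, b2⟩, ⟨c1, c2⟩, ⟨d1, d2⟩, e1, e2⟩
      refine ⟨⟨?_, ?_⟩, ⟨?_, ?_⟩, ⟨?_, ?_⟩, ⟨?_, ?_⟩, ?_, ?_⟩ <;> linarith
    · rintro ⟨⟨a1, a2⟩, ⟨b1, b2⟩, ⟨c1, c2⟩, ⟨d1, d2⟩, e1, e2⟩
      refine ⟨⟨?_, ?_⟩, ⟨?_, ?_⟩, ⟨?_, ?_⟩, ⟨?_, ?_⟩, ?_, ?_⟩ <;> linarith
  have hconv : Convex ℝ box :=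
    (convex_Icc _ _).prod ((convex_Icc _ _).prod ((convex_Icc _ _).prod
      ((convex_Icc _ _).prod (convex_Icc _ _))))
  have hcomp : IsCompact box :=
    isCompact_Icc.prod (isCompact_Icc.prod (isCompact_Icc.prod (isCompact_Icc.prod isCompact_Icc)))
  have hcd : ContDiffOn ℝ 1 (fun p : ℝ × ℝ × ℝ × ℝ × ℝ => qq i p.1 p.2.1 p.2.2.1 p.2.2.2.1 p.2.2.2.2)
      box := by
    intro p hp
    rw [hbox] at hp
    obtain ⟨h1, h2, h3, h4, h5⟩ := hp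
    apply ContDiffAt.contDiffWithinAt
    have hD : De p.1 p.2.1 p.2.2.1 p.2.2.2.1 p.2.2.2.2 * p.2.2.2.1 ^ 3 ≠ 0 := by
      have hm : (0 : ℝ) < p.2.2.2.1 := by
        have := (abs_le.1 h4).1
        linarith
      exact (mul_pos (De_pos _ _ _ _ _ h1 h2 h3 h4 h5) (pow_pos hm 3)).ne'
    have hf : p.2.2.1 ≠ 0 := by
      have := (abs_le.1 h3).1
      intro h
      rw [h] at this
      linarith
    unfold qq
    refine ContDiffAt.div ?_ ?_ hD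
    · refine ContDiffAt.mul ?_ ?_
      · exact ContDiffAt.rpow_const_of_ne (by fun_prop) hf
      · fun_prop
    · unfold De
      fun_prop
  obtain ⟨K, hK⟩ := (hcd.locallyLipschitzOn hconv).exists_lipschitzOnWith_of_compact hcomp
  refine ⟨K + 1, by positivity, ?_⟩
  intro τ x x' f f' m m' g g' hτ hx hx' hf hf' hm hm' hg hg'
  have hp : (τ, x, f, m, g) ∈ box := (hbox _).2 ⟨hτ, hx, hf, hm, hg⟩
  have hp' : (τ, x', f', m', g') ∈ box := (hbox _).2 ⟨hτ, hx', hf', hm', hg'⟩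
  have h := hK.dist_le_mul _ hp _ hp'
  simp only [Real.dist_eq, Prod.dist_eq] at h
  refine h.trans ?_
  have hS : max |τ - τ| (max |x - x'| (max |f - f'| (max |m - m'| |g - g'|))) ≤
      |x - x'| + |f - f'| + |m - m'| + |g - g'| := by
    have a := abs_nonneg (x - x')
    have b := abs_nonneg (f - f')
    have c := abs_nonneg (m - m')
    have d := abs_nonneg (g - g')
    simp only [sub_self, abs_zero]
    refine max_le (by linarith) (max_le (by linarith) (max_le (by linarith) (max_le (by linarith) (by linarith))))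
  have h0 : 0 ≤ |x - x'| + |f - f'| + |m - m'| + |g - g'| := by positivity
  calc (K : ℝ) * max |τ - τ| (max |x - x'| (max |f - f'| (max |m - m'| |g - g'|)))
      ≤ K * (|x - x'| + |f - f'| + |m - m'| + |g - g'|) := by gcongr
    _ ≤ (K + 1) * (|x - x'| + |f - f'| + |m - m'| + |g - g'|) := by
        gcongr
        linarith

end Pool.Agent.K9h70.NC.LeafC3
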