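import Pool.Agent.K9h70.NC.Deriv
import Pool.Agent.K9h70.NC.Leaf_C3

set_option autoImplicit false

namespace Pool.Agent.K9h70.NC

open MeasureTheory Set Metric Filter Topology

alias qq_lip := LeafC3.qq_lip

/-- even part of the `i`-th power of the radial function -/
noncomputable def Fe (G : ℝ → ℝ) (τ i x : ℝ) : ℝ := (ff G τ x ^ i + ff G τ (-x) ^ i) / 2

theorem Nu_De (i τ x f m g : ℝ) (hf : 0 < f) (hm : 0 < m) (hD : De τ x f m g ≠ 0) :
    f ^ i * Nu τ x f m g / De τ x f m g = 2 * g * x * (f ^ (i + 2) / m ^ 3) + τ * qq i τ x f m g := by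
  have e : f ^ (i + 2) = f ^ i * f ^ 2 := by
    rw [Real.rpow_add hf]; norm_num
  rw [e]
  unfold qq
  have h1 : (f - τ * x) * m ^ 3 - 2 * g * τ * f * (1 - x ^ 2) * (f * x - τ) ≠ 0 := hD
  have h2 : Nu τ x f m g * m ^ 3 = 2 * g * x * f ^ 2 * De τ x f m g +
      τ * ((m ^ 3 + 2 * g * f * (-f - f * x ^ 2 + τ * x)) * m ^ 3 +
        2 * g * f ^ 2 * x * (x * m ^ 3 + 2 * g * f * (1 - x ^ 2) * (f * x - τ))) := by
    unfold Nu De; ring
  have hm' := hm.ne'
  field_simp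
  linear_combination h2

/-- elementary bound -/
theorem pow_bound (i z f m : ℝ) (hi : 0 < i) (hz : 0 ≤ z) (hz4 : z ≤ 1 / 4) (hf0 : 0 < f)
    (hf : f ≤ 1 + z) (hm : 1 - z ≤ m) :
    f ^ (i + 2) / m ^ 3 ≤ 1 + (i + 8) * Real.exp (i + 8) * z := by
  have hm0 : 0 < m := by linarith
  have h1 : f ^ (i + 2) ≤ Real.exp (z * (i + 2)) := by
    calc f ^ (i + 2) ≤ (Real.exp z) ^ (i + 2) := by
          apply Real.rpow_le_rpow hf0.le _ (by linarith)
          linarith [Real.add_one_le_exp z]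
      _ = Real.exp (z * (i + 2)) := (Real.exp_mul _ _).symm
  have h2 : 1 / m ≤ Real.exp (2 * z) := by
    have : 1 / m ≤ 1 + 2 * z := by
      rw [div_le_iff₀ hm0]
      nlinarith
    linarith [Real.add_one_le_exp (2 * z)]
  have h3 : (1 / m) ^ 3 ≤ Real.exp (6 * z) := by
    calc (1 / m) ^ 3 ≤ (Real.exp (2 * z)) ^ 3 := by gcongr
      _ = Real.exp (6 * z) := by rw [← Real.exp_nat_mul]; ring_nf
  have h4 : f ^ (i + 2) / m ^ 3 ≤ Real.exp ((i + 8) * z) := by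
    calc f ^ (i + 2) / m ^ 3 = f ^ (i + 2) * (1 / m) ^ 3 := by
          field_simp
      _ ≤ Real.exp (z * (i + 2)) * Real.exp (6 * z) := by
          gcongr
      _ = Real.exp ((i + 8) * z) := by rw [← Real.exp_add]; ring_nf
  have h5 : Real.exp ((i + 8) * z) ≤ 1 + (i + 8) * z * Real.exp ((i + 8) * z) := by
    have h := Real.add_one_le_exp (-((i + 8) * z))
    have h6 := Real.exp_pos ((i + 8) * z)
    have h7 : Real.exp (-((i + 8) * z)) * Real.exp ((i + 8) * z) = 1 := by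
      rw [← Real.exp_add]; simp
    nlinarith
  have h6 : Real.exp ((i + 8) * z) ≤ Real.exp (i + 8) := by
    apply Real.exp_le_exp.2
    nlinarith
  have h7 : (i + 8) * z * Real.exp ((i + 8) * z) ≤ (i + 8) * z * Real.exp (i + 8) := by
    gcongr
  linarith

section pair

variable {G k : ℝ → ℝ} {L τ x : ℝ}

theorem sqrt_pair (hτ : |τ| ≤ 1 / 8) {x f f' m m' : ℝ} (hx : 0 ≤ x) (hx1 : x ≤ 1)
    (hm : m ^ 2 = nn τ x f) (hm' : m' ^ 2 = nn τ (-x) f') (hf : |f - 1| ≤ 1 / 4)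
    (hf' : |f' - 1| ≤ 1 / 4) (h : |m - 1| ≤ 1 / 8) (h' : |m' - 1| ≤ 1 / 8)
    (hff : |f - f'| ≤ 4 * x) : |m - m'| ≤ 7 * x := by
  have a1 := abs_le.1 hf
  have a2 := abs_le.1 hf'
  have a3 := abs_le.1 h
  have a4 := abs_le.1 h'
  have e : (m - m') * (m + m') = (f + f') * ((f - f') - 2 * τ * x) := by
    have : (m - m') * (m + m') = m ^ 2 - m' ^ 2 := by ring
    rw [this, hm, hm']
    unfold nn; ring
  have h1 : |m - m'| * (m + m') = (f + f') * |(f - f') - 2 * τ * x| := by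
    have h2 : 0 < m + m' := by linarith
    have h3 : 0 < f + f' := by linarith
    have := congrArg abs e
    rwa [abs_mul, abs_mul, abs_of_pos h2, abs_of_pos h3] at this
  have h2 : |(f - f') - 2 * τ * x| ≤ 17 / 4 * x := by
    calc |(f - f') - 2 * τ * x| ≤ |f - f'| + |2 * τ * x| := abs_sub _ _
      _ ≤ 4 * x + 2 * (1 / 8) * x := by
          rw [abs_mul, abs_mul, abs_of_nonneg hx, abs_of_pos (by norm_num : (0 : ℝ) < 2)]
          gcongr
      _ = 17 / 4 * x := by ring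
  have h3 : |m - m'| * (7 / 4) ≤ 5 / 2 * (17 / 4 * x) := by
    calc |m - m'| * (7 / 4) ≤ |m - m'| * (m + m') := by
          gcongr; linarith
      _ = (f + f') * |(f - f') - 2 * τ * x| := h1
      _ ≤ 5 / 2 * (17 / 4 * x) := by gcongr; linarith
  linarith

theorem g_pair (hG : Adm1 L G k) (hL : 0 ≤ L) (hL8 : L ≤ 1 / 8) {x f f' m m' : ℝ}
    (hx : 0 ≤ x) (hx1 : x < 1) (hm : m ^ 2 = nn τ x f) (hm' : m' ^ 2 = nn τ (-x) f')
    (hf : |f - 1| ≤ 1 / 4) (hf' : |f' - 1| ≤ 1 / 4) (h : |m - 1| ≤ 1 / 8) (h' : |m' - 1| ≤ 1 / 8)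
    (hff : |f - f'| ≤ 4 * x) (hmm : |m - m'| ≤ 7 * x) :
    |k (yy τ x f) / (1 - yy τ x f) - k (yy τ (-x) f') / (1 - yy τ (-x) f')| ≤ 100 * x := by
  have a1 := abs_le.1 hf
  have a2 := abs_le.1 hf'
  have a3 := abs_le.1 h
  have a4 := abs_le.1 h'
  have hx2 : 0 < 1 - x ^ 2 := by nlinarith
  have hn : 0 < nn τ x f := by rw [← hm]; nlinarith
  have hn' : 0 < nn τ (-x) f' := by rw [← hm']; nlinarith
  have hxa : |x| ≤ 1 := by rw [abs_of_nonneg hx]; linarith
  have hxa' : |-x| ≤ 1 := by rw [abs_neg]; exact hxa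
  have hY := yy_mem (τ := τ) (t := f) hxa
  have hY' := yy_mem (τ := τ) (t := f') hxa'
  have e1 := one_sub_yy hn
  have e2 := one_sub_yy hn'
  rw [← hm] at e1
  rw [← hm', neg_sq] at e2
  have hm0 : 0 < m := by linarith
  have hm0' : 0 < m' := by linarith
  have hf0 : 0 < f := by linarith
  have hf0' : 0 < f' := by linarith
  set Y := yy τ x f with hYd
  set Y' := yy τ (-x) f' with hYd'
  have p1 : 0 < 1 - Y := by rw [e1]; positivity
  have p2 : 0 < 1 - Y' := by rw [e2]; positivity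
  have hk1 := hG.lipk Y hY Y' hY'
  have hk2 := hG.bdd Y' hY'
  -- the difference
  have e3 : k Y / (1 - Y) - k Y' / (1 - Y') =
      (k Y - k Y') / (1 - Y) + k Y' / (1 - Y') * ((Y - Y') / (1 - Y)) := by
    field_simp
    ring
  have h3 : |k Y / (1 - Y) - k Y' / (1 - Y')| ≤ 3 * L * (|Y - Y'| / (1 - Y)) := by
    rw [e3]
    refine (abs_add_le _ _).trans ?_
    rw [abs_div, abs_mul, abs_div, abs_div, abs_of_pos p1, abs_of_pos p2]
    have h5 : |k Y - k Y'| / (1 - Y) ≤ 2 * L * (|Y - Y'| / (1 - Y)) := by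
      rw [← mul_div_assoc]
      gcongr
    have h6 : |k Y'| / (1 - Y') ≤ L := by
      rw [div_le_iff₀ p2]; exact hk2
    have h7 : 0 ≤ |Y - Y'| / (1 - Y) := by positivity
    nlinarith [mul_le_mul_of_nonneg_right h6 h7]
  have e4 : |Y - Y'| / (1 - Y) = |f' * m - f * m'| * (f' * m + f * m') / (m' ^ 2 * f ^ 2) := by
    have : Y - Y' = (1 - x ^ 2) * ((f' * m - f * m') * (f' * m + f * m') / (m ^ 2 * m' ^ 2)) := by
      have : Y - Y' = (1 - Y') - (1 - Y) := by ring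
      rw [this, e1, e2]
      field_simp
      ring
    have h8 : 0 < f' * m + f * m' := by positivity
    rw [this, e1, abs_mul, abs_div, abs_mul, abs_of_pos hx2, abs_of_pos h8,
      abs_of_pos (by positivity : 0 < m ^ 2 * m' ^ 2)]
    field_simp
  have h4 : |f' * m - f * m'| ≤ 14 * x := by
    have : f' * m - f * m' = -(f - f') * m + f * (m - m') := by ring
    rw [this]
    refine (abs_add_le _ _).trans ?_
    rw [abs_mul, abs_mul, abs_neg, abs_of_pos hm0, abs_of_pos hf0]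
    have : |f - f'| * m ≤ 4 * x * (9 / 8) := by gcongr; linarith
    have : f * |m - m'| ≤ 5 / 4 * (7 * x) := by gcongr; linarith
    linarith
  have h5 : |Y - Y'| / (1 - Y) ≤ 100 * x := by
    rw [e4, div_le_iff₀ (by positivity)]
    have h6 : f' * m + f * m' ≤ 3 := by
      have q1 : f' * m ≤ (5 / 4) * (9 / 8) := by gcongr <;> linarith
      have q2 : f * m' ≤ (5 / 4) * (9 / 8) := by gcongr <;> linarith
      linarith
    have h7 : (21 / 50 : ℝ) ≤ m' ^ 2 * f ^ 2 := by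
      have : (7 / 8 : ℝ) ^ 2 * (3 / 4) ^ 2 ≤ m' ^ 2 * f ^ 2 := by
        gcongr <;> linarith
      norm_num at this
      linarith
    calc |f' * m - f * m'| * (f' * m + f * m') ≤ 14 * x * 3 := by
          gcongr
      _ = 100 * x * (21 / 50) := by ring
      _ ≤ 100 * x * (m' ^ 2 * f ^ 2) := by gcongr
  calc |k Y / (1 - Y) - k Y' / (1 - Y')| ≤ 3 * L * (|Y - Y'| / (1 - Y)) := h3
    _ ≤ 3 * (1 / 8) * (100 * x) := by gcongr
    _ ≤ 100 * x := by linarith

/-- the bound for the derivative of the even part -/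
theorem Fe_deriv (i : ℝ) (hi : 0 < i) : ∃ C : ℝ, 0 < C ∧ ∀ (G k : ℝ → ℝ) (L τ : ℝ), 0 ≤ L →
    L ≤ 1 / 8 → |τ| ≤ 1 / 8 → Adm1 L G k → ∀ x : ℝ, 0 < x → x < 1 → ∃ D : ℝ,
      HasDerivAt (Fe G τ i) D x ∧ |D| ≤ 2 * x * (i * L * (1 + C * L) + C * |τ|) := by
  obtain ⟨C3, hC3, hq⟩ := qq_lip i
  set CB := (i + 8) * Real.exp (i + 8) with hCB
  have hCB0 : 0 < CB := by positivity
  refine ⟨CB + i * CB + 29 * i * C3, by positivity, ?_⟩
  intro G k L τ hL hL8 hτ hG x hx0 hx1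
  have hxa : |x| < 1 := by rw [abs_of_pos hx0]; exact hx1
  have hxa' : |-x| < 1 := by rwa [abs_neg]
  obtain ⟨f, hf⟩ : ∃ f, f = ff G τ x := ⟨_, rfl⟩
  obtain ⟨m, hm⟩ : ∃ m, m = Real.sqrt (nn τ x f) := ⟨_, rfl⟩
  obtain ⟨g, hg⟩ : ∃ g, g = k (yy τ x f) / (1 - yy τ x f) := ⟨_, rfl⟩
  obtain ⟨f', hf'⟩ : ∃ f, f = ff G τ (-x) := ⟨_, rfl⟩
  obtain ⟨m', hm'⟩ : ∃ m, m = Real.sqrt (nn τ (-x) f') := ⟨_, rfl⟩
  obtain ⟨g', hg'⟩ : ∃ g, g = k (yy τ (-x) f') / (1 - yy τ (-x) f') := ⟨_, rfl⟩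
  obtain ⟨hD, hd⟩ := ff_deriv hL hL8 hτ hG hxa hf hm hg
  obtain ⟨hD', hd'⟩ := ff_deriv hL hL8 hτ hG hxa' hf' hm' hg'
  have hf1 : |f - 1| ≤ L + |τ| := by rw [hf]; exact ff_one hL hL8 hτ hG.adm hxa.le
  have hf1' : |f' - 1| ≤ L + |τ| := by rw [hf']; exact ff_one hL hL8 hτ hG.adm hxa'.le
  have hm1 : |m - 1| ≤ L := by rw [hm, hf]; exact sqrt_ff_one hL hL8 hτ hG.adm hxa.le
  have hm1' : |m' - 1| ≤ L := by rw [hm', hf']; exact sqrt_ff_one hL hL8 hτ hG.adm hxa'.le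
  have hz : L + |τ| ≤ 1 / 4 := by linarith
  have hz0 : 0 ≤ L + |τ| := by positivity
  have b1 := abs_le.1 hf1
  have b1' := abs_le.1 hf1'
  have b2 := abs_le.1 hm1
  have b2' := abs_le.1 hm1'
  have hf0 : 0 < f := by linarith
  have hf0' : 0 < f' := by linarith
  have hm0 : 0 < m := by linarith
  have hm0' : 0 < m' := by linarith
  have hn : 0 < nn τ x f := by
    rw [hf]; exact nn_pos hτ hxa.le (ff_ge hL hL8 hτ hG.adm hxa.le)
  have hn' : 0 < nn τ (-x) f' := by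
    rw [hf']; exact nn_pos hτ hxa'.le (ff_ge hL hL8 hτ hG.adm hxa'.le)
  have hm2 : m ^ 2 = nn τ x f := by rw [hm]; exact Real.sq_sqrt hn.le
  have hm2' : m' ^ 2 = nn τ (-x) f' := by rw [hm']; exact Real.sq_sqrt hn'.le
  have hff : |f - f'| ≤ 4 * x := by
    have := ff_lipx hL hL8 hτ hG.adm hxa.le hxa'.le
    rw [← hf, ← hf', sub_neg_eq_add, abs_of_pos (by linarith : 0 < x + x)] at this
    linarith
  have c1 : |f - 1| ≤ 1 / 4 := hf1.trans hz
  have c1' : |f' - 1| ≤ 1 / 4 := hf1'.trans hz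
  have c2 : |m - 1| ≤ 1 / 8 := hm1.trans hL8
  have c2' : |m' - 1| ≤ 1 / 8 := hm1'.trans hL8
  have hmm := sqrt_pair hτ hx0.le hx1.le hm2 hm2' c1 c1' c2 c2' hff
  have hgg := g_pair hG hL hL8 hx0.le hx1 hm2 hm2' c1 c1' c2 c2' hff hmm
  rw [← hg, ← hg'] at hgg
  have hY := yy_mem (τ := τ) (t := f) hxa.le
  have hY' := yy_mem (τ := τ) (t := f') hxa'.le
  have hx2 : 0 < 1 - x ^ 2 := by nlinarith
  have hY1 : 0 < 1 - yy τ x f := by rw [one_sub_yy hn]; positivity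
  have hY1' : 0 < 1 - yy τ (-x) f' := by
    rw [one_sub_yy hn', neg_sq]; positivity
  have hgL : |g| ≤ L := by
    rw [hg, abs_div, abs_of_pos hY1, div_le_iff₀ hY1]
    exact hG.bdd _ hY
  have hgL' : |g'| ≤ L := by
    rw [hg', abs_div, abs_of_pos hY1', div_le_iff₀ hY1']
    exact hG.bdd _ hY'
  -- derivatives of the powers
  have d1 : HasDerivAt (fun y => ff G τ y ^ i) (i * (f ^ i * Nu τ x f m g / De τ x f m g)) x := by
    have h := hd.rpow_const (p := i) (Or.inl (by rw [← hf]; exact hf0.ne'))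
    refine h.congr_deriv ?_
    rw [← hf, Real.rpow_sub hf0, Real.rpow_one]
    field_simp
  have d2 : HasDerivAt (fun y => ff G τ (-y) ^ i)
      (-(i * (f' ^ i * Nu τ (-x) f' m' g' / De τ (-x) f' m' g'))) x := by
    have h1 : HasDerivAt (fun y => ff G τ y ^ i)
        (i * (f' ^ i * Nu τ (-x) f' m' g' / De τ (-x) f' m' g')) (-x) := by
      have h := hd'.rpow_const (p := i) (Or.inl (by rw [← hf']; exact hf0'.ne'))
      refine h.congr_deriv ?_
      rw [← hf', Real.rpow_sub hf0', Real.rpow_one]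
      field_simp
    have h2 : HasDerivAt (fun y => ff G τ (-y) ^ i) _ x := HasDerivAt.scomp x h1 (hasDerivAt_neg x)
    refine h2.congr_deriv ?_
    simp
  refine ⟨_, (d1.add d2).div_const 2, ?_⟩
  rw [Nu_De i τ x f m g hf0 hm0 hD.ne', Nu_De i τ (-x) f' m' g' hf0' hm0' hD'.ne']
  have hB := pow_bound i (L + |τ|) f m hi hz0 hz hf0 (by linarith) (by
    have := abs_nonneg τ; linarith)
  have hB' := pow_bound i (L + |τ|) f' m' hi hz0 hz hf0' (by linarith) (by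
    have := abs_nonneg τ; linarith)
  rw [← hCB] at hB hB'
  have hqq := hq τ x (-x) f f' m m' g g' hτ hxa.le hxa'.le c1 c1' c2 c2' (hgL.trans hL8)
    (hgL'.trans hL8)
  have hqq2 : |qq i τ x f m g - qq i τ (-x) f' m' g'| ≤ 113 * C3 * x := by
    refine hqq.trans ?_
    have : |x - -x| = 2 * x := by
      rw [sub_neg_eq_add, abs_of_pos (by linarith : 0 < x + x)]; ring
    rw [this]
    calc C3 * (2 * x + |f - f'| + |m - m'| + |g - g'|) ≤
        C3 * (2 * x + 4 * x + 7 * x + 100 * x) := by gcongr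
      _ = 113 * C3 * x := by ring
  set A := f ^ (i + 2) / m ^ 3 with hA
  set A' := f' ^ (i + 2) / m' ^ 3 with hA'
  set Q := qq i τ x f m g - qq i τ (-x) f' m' g' with hQ
  have hA0 : 0 ≤ A := by positivity
  have hA0' : 0 ≤ A' := by positivity
  have e : (i * (2 * g * x * A + τ * qq i τ x f m g) +
      -(i * (2 * g' * -x * A' + τ * qq i τ (-x) f' m' g'))) / 2 =
      i * x * (g * A + g' * A') + i * τ / 2 * Q := by
    rw [hQ]; ring
  rw [e]
  refine (abs_add_le _ _).trans ?_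
  have h1 : |i * x * (g * A + g' * A')| ≤ i * x * (2 * L * (1 + CB * (L + |τ|))) := by
    rw [abs_mul, abs_of_pos (by positivity : 0 < i * x)]
    gcongr
    refine (abs_add_le _ _).trans ?_
    rw [abs_mul, abs_mul, abs_of_nonneg hA0, abs_of_nonneg hA0']
    have q1 : |g| * A ≤ L * (1 + CB * (L + |τ|)) := by gcongr
    have q2 : |g'| * A' ≤ L * (1 + CB * (L + |τ|)) := by gcongr
    linarith
  have h2 : |i * τ / 2 * Q| ≤ i * |τ| / 2 * (113 * C3 * x) := by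
    rw [abs_mul, abs_div, abs_mul, abs_of_pos hi, abs_of_pos (by norm_num : (0 : ℝ) < 2)]
    gcongr
  have h3 : i * x * (2 * L * (1 + CB * (L + |τ|))) + i * |τ| / 2 * (113 * C3 * x) ≤
      2 * x * (i * L * (1 + (CB + i * CB + 29 * i * C3) * L) +
        (CB + i * CB + 29 * i * C3) * |τ|) := by
    have t0 := abs_nonneg τ
    have e1 : 2 * x * (i * L * (1 + (CB + i * CB + 29 * i * C3) * L) +
        (CB + i * CB + 29 * i * C3) * |τ|) -
        (i * x * (2 * L * (1 + CB * (L + |τ|))) + i * |τ| / 2 * (113 * C3 * x)) =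
        2 * x * (i * L * (i * CB + 29 * i * C3) * L + (CB * |τ| + i * CB * |τ| * (1 - L) +
          (29 - 113 / 4) * (i * C3 * |τ|))) := by ring
    have e2 : 0 ≤ 2 * x * (i * L * (i * CB + 29 * i * C3) * L + (CB * |τ| + i * CB * |τ| * (1 - L) +
          (29 - 113 / 4) * (i * C3 * |τ|))) := by
      have : 0 ≤ 1 - L := by linarith
      have : (0 : ℝ) ≤ 29 - 113 / 4 := by norm_num
      positivity
    linarith
  linarith

theorem ff_cont (hL : 0 ≤ L) (hL8 : L ≤ 1 / 8) (hτ : |τ| ≤ 1 / 8) (hG : Adm L G) :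
    ContinuousOn (ff G τ) (Icc (-1) 1) := by
  have h : LipschitzOnWith 2 (ff G τ) (Icc (-1) 1) := by
    refine LipschitzOnWith.of_dist_le_mul fun y hy y' hy' => ?_
    rw [Real.dist_eq, Real.dist_eq]
    exact_mod_cast ff_lipx hL hL8 hτ hG (abs_le.2 hy) (abs_le.2 hy')
  exact h.continuousOn

theorem ff_pos (hL : 0 ≤ L) (hL8 : L ≤ 1 / 8) (hτ : |τ| ≤ 1 / 8) (hG : Adm L G)
    (hx : |x| ≤ 1) : 0 < ff G τ x := by linarith [ff_ge hL hL8 hτ hG hx]

theorem Fe_cont (hL : 0 ≤ L) (hL8 : L ≤ 1 / 8) (hτ : |τ| ≤ 1 / 8) (hG : Adm L G) (i : ℝ) :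
    ContinuousOn (Fe G τ i) (Icc (-1) 1) := by
  unfold Fe
  have h1 : ContinuousOn (fun x => ff G τ x ^ i) (Icc (-1) 1) := by
    refine (ff_cont hL hL8 hτ hG).rpow_const fun x hx => Or.inl ?_
    exact (ff_pos hL hL8 hτ hG (abs_le.2 hx)).ne'
  have h2 : ContinuousOn (fun x => ff G τ (-x) ^ i) (Icc (-1) 1) := by
    refine h1.comp (f := fun x : ℝ => -x) (by fun_prop) ?_
    intro x hx
    exact ⟨by linarith [hx.2], by linarith [hx.1]⟩
  exact (h1.add h2).div_const 2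

/-- the even part of the power of the radial function is a Lipschitz function of `x ^ 2` -/
theorem Fe_lip (i : ℝ) (hi : 0 < i) : ∃ C : ℝ, 0 < C ∧ ∀ (G k : ℝ → ℝ) (L τ : ℝ), 0 ≤ L →
    L ≤ 1 / 8 → |τ| ≤ 1 / 8 → Adm1 L G k → ∀ x ∈ Icc (0 : ℝ) 1, ∀ x' ∈ Icc (0 : ℝ) 1,
      |Fe G τ i x - Fe G τ i x'| ≤ (i * L * (1 + C * L) + C * |τ|) * |x ^ 2 - x' ^ 2| := by
  obtain ⟨C, hC, h⟩ := Fe_deriv i hi
  refine ⟨C, hC, ?_⟩
  intro G k L τ hL hL8 hτ hG
  set B := i * L * (1 + C * L) + C * |τ| with hB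
  have hc : ContinuousOn (Fe G τ i) (Icc 0 1) :=
    (Fe_cont hL hL8 hτ hG.adm i).mono (Icc_subset_Icc (by norm_num) le_rfl)
  have hm1 : MonotoneOn (fun x => B * x ^ 2 - Fe G τ i x) (Icc 0 1) := by
    apply monotoneOn_of_deriv_nonneg (convex_Icc 0 1)
    · exact (by fun_prop : ContinuousOn (fun x : ℝ => B * x ^ 2) (Icc 0 1)).sub hc
    · rw [interior_Icc]
      intro x hx
      obtain ⟨D, hD, hb⟩ := h G k L τ hL hL8 hτ hG x hx.1 hx.2
      exact ((by fun_prop : DifferentiableAt ℝ (fun x : ℝ => B * x ^ 2) x).sub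
        hD.differentiableAt).differentiableWithinAt
    · rw [interior_Icc]
      intro x hx
      obtain ⟨D, hD, hb⟩ := h G k L τ hL hL8 hτ hG x hx.1 hx.2
      have h1 : HasDerivAt (fun x : ℝ => B * x ^ 2) (B * (2 * x)) x := by
        have := (hasDerivAt_pow 2 x).const_mul B
        simpa using this
      rw [(h1.fun_sub hD).deriv]
      have := (abs_le.1 hb).2
      linarith
  have hm2 : MonotoneOn (fun x => B * x ^ 2 + Fe G τ i x) (Icc 0 1) := by
    apply monotoneOn_of_deriv_nonneg (convex_Icc 0 1)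
    · exact (by fun_prop : ContinuousOn (fun x : ℝ => B * x ^ 2) (Icc 0 1)).add hc
    · rw [interior_Icc]
      intro x hx
      obtain ⟨D, hD, hb⟩ := h G k L τ hL hL8 hτ hG x hx.1 hx.2
      exact ((by fun_prop : DifferentiableAt ℝ (fun x : ℝ => B * x ^ 2) x).add
        hD.differentiableAt).differentiableWithinAt
    · rw [interior_Icc]
      intro x hx
      obtain ⟨D, hD, hb⟩ := h G k L τ hL hL8 hτ hG x hx.1 hx.2
      have h1 : HasDerivAt (fun x : ℝ => B * x ^ 2) (B * (2 * x)) x := by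
        have := (hasDerivAt_pow 2 x).const_mul B
        simpa using this
      rw [(h1.fun_add hD).deriv]
      have := (abs_le.1 hb).1
      linarith
  have main : ∀ x ∈ Icc (0 : ℝ) 1, ∀ x' ∈ Icc (0 : ℝ) 1, x' ≤ x →
      |Fe G τ i x - Fe G τ i x'| ≤ B * |x ^ 2 - x' ^ 2| := by
    intro x hx x' hx' hxx
    have h1 := hm1 hx' hx hxx
    have h2 := hm2 hx' hx hxx
    simp only at h1 h2
    have h3 : x' ^ 2 ≤ x ^ 2 := by
      apply pow_le_pow_left₀ hx'.1 hxx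
    rw [abs_of_nonneg (by linarith : 0 ≤ x ^ 2 - x' ^ 2), abs_le]
    constructor <;> linarith
  intro x hx x' hx'
  rcases le_total x' x with h1 | h1
  · exact main x hx x' hx' h1
  · rw [abs_sub_comm, abs_sub_comm (x ^ 2)]
    exact main x' hx' x hx h1

end pair

end Pool.Agent.K9h70.NC
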