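import Mathlib

/-!
Definitions for the non-centred star bodies homothetic to their intersection body of order `i`.
-/

set_option autoImplicit false

namespace Pool.Agent.K9h70.NC

open MeasureTheory Set Metric

/-- squared distance from the centre `τ e` of the point at distance `t` from the origin in a direction
`v` with `⟪v, e⟫ = x` -/
noncomputable def nn (τ x t : ℝ) : ℝ := t ^ 2 - 2 * τ * t * x + τ ^ 2

/-- squared cosine of the direction of this point seen from the centre -/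
noncomputable def yy (τ x t : ℝ) : ℝ := (t * x - τ) ^ 2 / nn τ x t

/-- the equation of the boundary -/
noncomputable def ee (G : ℝ → ℝ) (τ x t : ℝ) : ℝ := Real.sqrt (nn τ x t) - G (yy τ x t)

open Classical in
/-- radial function of the translated body -/
noncomputable def ff (G : ℝ → ℝ) (τ x : ℝ) : ℝ :=
  if h : ∃ t ∈ Icc (1 / 2 : ℝ) 2, ee G τ x t = 0 then h.choose else 1

/-- admissible profiles -/
structure Adm (L : ℝ) (G : ℝ → ℝ) : Prop where
  one : G 0 = 1
  lip : ∀ y ∈ Icc (0 : ℝ) 1, ∀ y' ∈ Icc (0 : ℝ) 1, |G y - G y'| ≤ L * |y - y'|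

/-- the derivative of the profile: `G' = k / (1 - y)` -/
structure Adm1 (L : ℝ) (G k : ℝ → ℝ) : Prop where
  adm : Adm L G
  der : ∀ y, 0 ≤ y → y < 1 → HasDerivAt G (k y / (1 - y)) y
  bdd : ∀ y ∈ Icc (0 : ℝ) 1, |k y| ≤ L * (1 - y)
  lipk : ∀ y ∈ Icc (0 : ℝ) 1, ∀ y' ∈ Icc (0 : ℝ) 1, |k y - k y'| ≤ 2 * L * |y - y'|

/-- numerator of the logarithmic derivative of the radial function -/
noncomputable def Nu (τ x f m g : ℝ) : ℝ := τ * m ^ 3 + 2 * g * f * (f * x - τ) * (f - τ * x)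

/-- denominator -/
noncomputable def De (τ x f m g : ℝ) : ℝ :=
  (f - τ * x) * m ^ 3 - 2 * g * τ * f * (1 - x ^ 2) * (f * x - τ)

/-- the error term: `f ^ i * Nu / De = 2 g x f ^ (i + 2) / m ^ 3 + τ * qq` -/
noncomputable def qq (i τ x f m g : ℝ) : ℝ :=
  f ^ i * ((m ^ 3 + 2 * g * f * (-f - f * x ^ 2 + τ * x)) * m ^ 3 +
    2 * g * f ^ 2 * x * (x * m ^ 3 + 2 * g * f * (1 - x ^ 2) * (f * x - τ))) /
      (De τ x f m g * m ^ 3)

/-- the mean over `[0,1]` of `Ψ (z t ^ 2)` -/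
noncomputable def VV (Ψ : ℝ → ℝ) (z : ℝ) : ℝ := ∫ t in (0 : ℝ)..1, Ψ (z * t ^ 2)

end Pool.Agent.K9h70.NC
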