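import Pool.Agent.K9h70.NC.Trans

set_option autoImplicit false

namespace Pool.Agent.K9h70.NC

open MeasureTheory Set Metric Filter Topology Asymptotics

/-- derivative of an implicitly given Lipschitz function -/
theorem impl (E : ℝ × ℝ → ℝ) (f : ℝ → ℝ) (x0 a b C : ℝ)
    (hE : HasFDerivAt E (a • ContinuousLinearMap.fst ℝ ℝ ℝ + b • ContinuousLinearMap.snd ℝ ℝ ℝ)
      (x0, f x0))
    (h0 : ∀ᶠ x in 𝓝 x0, E (x, f x) = 0) (hlip : ∀ᶠ x in 𝓝 x0, |f x - f x0| ≤ C * |x - x0|)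
    (hb : b ≠ 0) : HasDerivAt f (-a / b) x0 := by
  have hO : (fun x => f x - f x0) =O[𝓝 x0] fun x => x - x0 := by
    refine IsBigO.of_bound C ?_
    filter_upwards [hlip] with x hx
    simpa [Real.norm_eq_abs] using hx
  have hO2 : (fun x => ((x, f x) : ℝ × ℝ) - (x0, f x0)) =O[𝓝 x0] fun x => x - x0 := by
    have : (fun x => ((x, f x) : ℝ × ℝ) - (x0, f x0)) = fun x => (x - x0, f x - f x0) := by
      funext x; simp
    rw [this]
    exact (isBigO_refl _ _).prod_left hO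
  have hf : Tendsto f (𝓝 x0) (𝓝 (f x0)) := by
    have h1 : Tendsto (fun x => f x - f x0) (𝓝 x0) (𝓝 0) := by
      refine hO.trans_tendsto ?_
      have : Tendsto (fun x : ℝ => x - x0) (𝓝 x0) (𝓝 (x0 - x0)) :=
        tendsto_id.sub_const x0
      simpa using this
    simpa using h1.add_const (f x0)
  have hg : Tendsto (fun x => ((x, f x) : ℝ × ℝ)) (𝓝 x0) (𝓝 (x0, f x0)) :=
    tendsto_id.prodMk_nhds hf
  have h1 := hE.isLittleO.comp_tendsto hg
  have h2 := h1.trans_isBigO hO2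
  have hE0 : E (x0, f x0) = 0 := h0.self_of_nhds
  have h3 : (fun x => a * (x - x0) + b * (f x - f x0)) =o[𝓝 x0] fun x => x - x0 := by
    refine (h2.neg_left).congr' ?_ (EventuallyEq.refl _ _)
    filter_upwards [h0] with x hx
    simp [hx, hE0]
  have h4 : (fun x => b⁻¹ * (a * (x - x0) + b * (f x - f x0))) =o[𝓝 x0] fun x => x - x0 :=
    h3.const_mul_left _
  rw [hasDerivAt_iff_isLittleO]
  refine h4.congr' ?_ (EventuallyEq.refl _ _)
  filter_upwards with x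
  simp only [smul_eq_mul]
  field_simp
  ring

section der

variable {τ x t : ℝ}

theorem nn_fderiv (τ x t : ℝ) : HasFDerivAt (fun p : ℝ × ℝ => nn τ p.1 p.2)
    ((-2 * τ * t) • ContinuousLinearMap.fst ℝ ℝ ℝ +
      (2 * (t - τ * x)) • ContinuousLinearMap.snd ℝ ℝ ℝ) (x, t) := by
  unfold nn
  have h1 : HasFDerivAt (fun p : ℝ × ℝ => p.1) (ContinuousLinearMap.fst ℝ ℝ ℝ) (x, t) :=
    hasFDerivAt_fst
  have h2 : HasFDerivAt (fun p : ℝ × ℝ => p.2) (ContinuousLinearMap.snd ℝ ℝ ℝ) (x, t) :=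
    hasFDerivAt_snd
  have h := ((h2.pow 2).sub ((h2.const_mul (2 * τ)).mul h1)).add_const (τ ^ 2)
  refine h.congr_fderiv ?_
  ext <;> simp <;> ring

theorem sqrt_nn_fderiv (h : 0 < nn τ x t) {m : ℝ} (hm : m = Real.sqrt (nn τ x t)) :
    HasFDerivAt (fun p : ℝ × ℝ => Real.sqrt (nn τ p.1 p.2))
    ((-τ * t / m) • ContinuousLinearMap.fst ℝ ℝ ℝ +
      ((t - τ * x) / m) • ContinuousLinearMap.snd ℝ ℝ ℝ) (x, t) := by
  have h1 := (nn_fderiv τ x t).sqrt h.ne'
  refine h1.congr_fderiv ?_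
  have hm0 : m ≠ 0 := by rw [hm]; exact (Real.sqrt_pos.2 h).ne'
  rw [← hm]
  ext <;> simp <;> field_simp

theorem yy_fderiv (h : 0 < nn τ x t) {m : ℝ} (hm : m = Real.sqrt (nn τ x t)) :
    HasFDerivAt (fun p : ℝ × ℝ => yy τ p.1 p.2)
    ((2 * t ^ 2 * (t * x - τ) * (t - τ * x) / m ^ 4) • ContinuousLinearMap.fst ℝ ℝ ℝ +
      (2 * τ * t * (1 - x ^ 2) * (t * x - τ) / m ^ 4) • ContinuousLinearMap.snd ℝ ℝ ℝ)
      (x, t) := by
  have hm2 : m ^ 2 = nn τ x t := by rw [hm]; exact Real.sq_sqrt h.le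
  have hm0 : m ≠ 0 := by rw [hm]; exact (Real.sqrt_pos.2 h).ne'
  have h1 : HasFDerivAt (fun p : ℝ × ℝ => p.1) (ContinuousLinearMap.fst ℝ ℝ ℝ) (x, t) :=
    hasFDerivAt_fst
  have h2 : HasFDerivAt (fun p : ℝ × ℝ => p.2) (ContinuousLinearMap.snd ℝ ℝ ℝ) (x, t) :=
    hasFDerivAt_snd
  have h0 : HasFDerivAt (fun p : ℝ × ℝ => (nn τ p.1 p.2)⁻¹) _ (x, t) :=
    HasDerivAt.comp_hasFDerivAt (x, t) (hasDerivAt_inv h.ne') (nn_fderiv τ x t)
  have h3 := (((h2.mul h1).sub_const τ).pow 2).mul h0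
  unfold yy
  simp only [div_eq_mul_inv]
  refine HasFDerivAt.congr_fderiv h3 ?_
  have e4 : m ^ 4 = nn τ x t ^ 2 := by rw [← hm2]; ring
  rw [e4]
  ext
  · simp
    have := h.ne'
    field_simp
    unfold nn; ring
  · simp
    have := h.ne'
    field_simp
    unfold nn; ring

end der

/-- the radial function is differentiable in the open interval -/
theorem ff_deriv {G k : ℝ → ℝ} {L τ x : ℝ} (hL : 0 ≤ L) (hL8 : L ≤ 1 / 8) (hτ : |τ| ≤ 1 / 8)
    (hG : Adm1 L G k) (hx : |x| < 1) {f m g : ℝ} (hf : f = ff G τ x)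
    (hm : m = Real.sqrt (nn τ x f)) (hg : g = k (yy τ x f) / (1 - yy τ x f)) :
    0 < De τ x f m g ∧ HasDerivAt (ff G τ) (f * Nu τ x f m g / De τ x f m g) x := by
  have hx1 := hx.le
  have hspec := ff_spec hL hL8 hτ hG.adm hx1
  rw [← hf] at hspec
  have hn : 0 < nn τ x f := nn_pos hτ hx1 hspec.1.1
  have hY := yy_mem (τ := τ) (t := f) hx1
  have hx2 : 0 < 1 - x ^ 2 := by
    have := (sq_lt_one_iff_abs_lt_one x).2 hx
    linarith
  have hf0 : 0 < f := by linarith [hspec.1.1]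
  have hY1 : 0 < 1 - yy τ x f := by
    rw [one_sub_yy hn]
    positivity
  have hg8 : |g| ≤ L := by
    rw [hg, abs_div, abs_of_pos hY1, div_le_iff₀ hY1]
    exact hG.bdd _ hY
  have hm1 : |m - 1| ≤ 1 / 8 := by
    rw [hm, hf]; exact (sqrt_ff_one hL hL8 hτ hG.adm hx1).trans hL8
  have hf1 : |f - 1| ≤ 1 / 4 := by
    rw [hf]; exact (ff_one hL hL8 hτ hG.adm hx1).trans (by linarith)
  have hm0 : 0 < m := by linarith [(abs_le.1 hm1).1]
  have hDe : 0 < De τ x f m g := by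
    unfold De
    have a1 := abs_le.1 hτ
    have a2 := abs_le.1 hx1
    have a3 := abs_le.1 hf1
    have a4 := abs_le.1 hm1
    have b1 : |τ * x| ≤ 1 / 8 := by
      rw [abs_mul]; nlinarith [abs_nonneg τ, abs_nonneg x]
    have b2 := abs_le.1 b1
    have b3 : (5 / 8 : ℝ) ≤ f - τ * x := by linarith
    have b4 : (1 / 2 : ℝ) ≤ m ^ 3 := by
      have : (7 / 8 : ℝ) ≤ m := by linarith
      calc (1 / 2 : ℝ) ≤ (7 / 8) ^ 3 := by norm_num
        _ ≤ m ^ 3 := by gcongr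
    have b5 : (5 / 16 : ℝ) ≤ (f - τ * x) * m ^ 3 := by nlinarith
    have b6 : |2 * g * τ * f * (1 - x ^ 2) * (f * x - τ)| ≤ 2 * (1 / 8) * (1 / 8) * (5 / 4) * 1 * (11 / 8) := by
      rw [abs_mul, abs_mul, abs_mul, abs_mul, abs_mul]
      have c1 : |g| ≤ 1 / 8 := hg8.trans hL8
      have c2 : |f| ≤ 5 / 4 := by rw [abs_of_pos hf0]; linarith
      have c3 : |1 - x ^ 2| ≤ 1 := by rw [abs_of_pos hx2]; nlinarith [sq_nonneg x]
      have c4 : |f * x - τ| ≤ 11 / 8 := by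
        calc |f * x - τ| ≤ |f * x| + |τ| := abs_sub _ _
          _ = |f| * |x| + |τ| := by rw [abs_mul]
          _ ≤ 5 / 4 * 1 + 1 / 8 := by gcongr
          _ = 11 / 8 := by norm_num
      have c5 : |(2 : ℝ)| = 2 := by norm_num
      rw [c5]
      gcongr
    have b7 := (abs_le.1 b6).2
    nlinarith
  refine ⟨hDe, ?_⟩
  -- the equation
  set E : ℝ × ℝ → ℝ := fun p => Real.sqrt (nn τ p.1 p.2) - G (yy τ p.1 p.2) with hEdef
  have hmx : m = Real.sqrt (nn τ x f) := hm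
  have h1 := sqrt_nn_fderiv hn hmx
  have h2 := yy_fderiv hn hmx
  have h3 : HasFDerivAt (fun p : ℝ × ℝ => G (yy τ p.1 p.2)) (g • ((2 * f ^ 2 * (f * x - τ) * (f - τ * x) / m ^ 4) • ContinuousLinearMap.fst ℝ ℝ ℝ +
      (2 * τ * f * (1 - x ^ 2) * (f * x - τ) / m ^ 4) • ContinuousLinearMap.snd ℝ ℝ ℝ)) (x, f) := by
    have := hG.der (yy τ x f) hY.1 (by linarith)
    rw [← hg] at this
    exact HasDerivAt.comp_hasFDerivAt (x, f) this h2
  have h4 := h1.sub h3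
  have hfe : (fun y => (y, ff G τ y)) x = (x, f) := by simp [hf]
  have hne : ∀ᶠ y in 𝓝 x, |y| ≤ 1 := by
    have : ∀ᶠ y in 𝓝 x, |y| < 1 := continuous_abs.continuousAt.eventually_lt continuousAt_const hx
    exact this.mono fun y hy => hy.le
  have key := impl E (ff G τ) x
    (-τ * f / m - g * (2 * f ^ 2 * (f * x - τ) * (f - τ * x) / m ^ 4))
    ((f - τ * x) / m - g * (2 * τ * f * (1 - x ^ 2) * (f * x - τ) / m ^ 4)) 2 ?_ ?_ ?_ ?_
  · refine key.congr_deriv ?_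
    have hm0' := hm0.ne'
    have hb : (f - τ * x) / m - g * (2 * τ * f * (1 - x ^ 2) * (f * x - τ) / m ^ 4) =
        De τ x f m g / m ^ 4 := by
      unfold De
      field_simp
    have ha : -τ * f / m - g * (2 * f ^ 2 * (f * x - τ) * (f - τ * x) / m ^ 4) =
        -(f * Nu τ x f m g / m ^ 4) := by
      unfold Nu
      field_simp
      ring
    rw [ha, hb]
    have := hDe.ne'
    field_simp
  · rw [← hf]
    refine h4.congr_fderiv ?_
    ext <;> simp
  · filter_upwards [hne] with y hy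
    exact (ff_spec hL hL8 hτ hG.adm hy).2
  · filter_upwards [hne] with y hy
    exact ff_lipx hL hL8 hτ hG.adm hy hx1
  · have hb : (f - τ * x) / m - g * (2 * τ * f * (1 - x ^ 2) * (f * x - τ) / m ^ 4) =
        De τ x f m g / m ^ 4 := by
      have hm0' := hm0.ne'
      unfold De
      field_simp
    rw [hb]
    positivity

end Pool.Agent.K9h70.NC
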