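import Pool.Agent.K9h70.NC.Leaf_K3

set_option autoImplicit false

namespace Pool.Agent.K9h70.NC.LeafK2

open MeasureTheory Set Metric

/-- LEAF K2: `KO` is a Markov operator -/
theorem KO_markov (κ : Measure ℝ) [IsProbabilityMeasure κ] (hκ : κ (Icc 0 1)ᶜ = 0) (d : ℝ)
    (hd : 3 ≤ d) (hm : ∫ w, w ∂κ = 3 / d) (γ : ℝ → ℝ) (L : ℝ) (hγ : Continuous γ)
    (hb : ∀ z, |γ z| ≤ L) (s : ℝ) : |KO κ d γ s| ≤ L :=
  LeafK3.KO_markov κ hκ d hd hm γ L hγ hb s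

end Pool.Agent.K9h70.NC.LeafK2
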