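import Pool.Agent.K9h70.NC.Leaf_K1

set_option autoImplicit false

/-! Leaf K4 (helper85) -/

namespace Pool.Agent.K9h70.NC.LeafK4

open Pool.Agent.K9h70.NC
open MeasureTheory Set Metric

variable {κ : Measure ℝ} [IsProbabilityMeasure κ]

lemma int_cont (hκ : κ (Icc 0 1)ᶜ = 0) {f : ℝ → ℝ} (hf : Continuous f) : Integrable f κ := by
  obtain ⟨C, hC⟩ := (isCompact_Icc (a := (0 : ℝ)) (b := 1)).exists_bound_of_continuousOn
    hf.continuousOn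
  have h1 : ∀ᵐ w ∂κ, w ∈ Icc (0 : ℝ) 1 := by
    rw [ae_iff]; exact hκ
  exact Integrable.of_bound hf.aestronglyMeasurable C (h1.mono fun w hw => hC w hw)

lemma ae_mem (hκ : κ (Icc 0 1)ᶜ = 0) : ∀ᵐ w ∂κ, w ∈ Icc (0 : ℝ) 1 := by
  rw [ae_iff]; exact hκ

lemma abs_int_le (hκ : κ (Icc 0 1)ᶜ = 0) {f : ℝ → ℝ} {C : ℝ}
    (h : ∀ w ∈ Icc (0 : ℝ) 1, |f w| ≤ C) : |∫ w, f w ∂κ| ≤ C := by
  have h1 := norm_integral_le_of_norm_le_const (μ := κ) (f := f) (C := C)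
    ((ae_mem hκ).mono fun w hw => h w hw)
  rw [Real.norm_eq_abs] at h1
  simpa using h1

lemma bar_lip (hκ : κ (Icc 0 1)ᶜ = 0) {Φ : ℝ → ℝ} {L : ℝ} (hL : 0 ≤ L)
    (h : ∀ z z', |Φ z - Φ z'| ≤ L * |z - z'|) (z z' : ℝ) :
    |bar κ Φ z - bar κ Φ z'| ≤ L * |z - z'| := by
  have hc := LeafA.cont_of_lip hL h
  unfold bar
  rw [← integral_sub (int_cont hκ (by fun_prop)) (int_cont hκ (by fun_prop))]
  apply abs_int_le hκ
  intro w hw
  refine (h _ _).trans ?_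
  rw [← sub_mul, abs_mul, abs_of_nonneg hw.1]
  have : |z - z'| * w ≤ |z - z'| := mul_le_of_le_one_right (abs_nonneg _) hw.2
  exact mul_le_mul_of_nonneg_left this hL

lemma bar_close (hκ : κ (Icc 0 1)ᶜ = 0) {Φ Ψ : ℝ → ℝ} (hΦ : Continuous Φ) (hΨ : Continuous Ψ)
    {η : ℝ} (h : ∀ z, |Φ z - Ψ z| ≤ η) (z : ℝ) : |bar κ Φ z - bar κ Ψ z| ≤ η := by
  unfold bar
  rw [← integral_sub (int_cont hκ (by fun_prop)) (int_cont hκ (by fun_prop))]
  exact abs_int_le hκ fun w _ => h _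

lemma VV_close {Φ Ψ : ℝ → ℝ} (hΦ : Continuous Φ) (hΨ : Continuous Ψ)
    {η : ℝ} (h : ∀ z, |Φ z - Ψ z| ≤ η) (z : ℝ) : |VV Φ z - VV Ψ z| ≤ η := by
  unfold VV
  rw [← intervalIntegral.integral_sub ((by fun_prop : Continuous fun t : ℝ =>
    Φ (z * t ^ 2)).intervalIntegrable _ _) ((by fun_prop : Continuous fun t : ℝ =>
    Ψ (z * t ^ 2)).intervalIntegrable _ _)]
  have := intervalIntegral.norm_integral_le_of_norm_le_const (a := (0 : ℝ)) (b := 1)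
    (f := fun t : ℝ => Φ (z * t ^ 2) - Ψ (z * t ^ 2)) (C := η) (fun t _ => h _)
  simpa using this

variable {d : ℝ}

lemma BB_lip (hκ : κ (Icc 0 1)ᶜ = 0) (hd : 0 ≤ d) {Φ : ℝ → ℝ} {L : ℝ} (hL : 0 ≤ L)
    (h : ∀ z z', |Φ z - Φ z'| ≤ L * |z - z'|) (z z' : ℝ) :
    |BB κ d Φ z - BB κ d Φ z'| ≤ (1 + d) * L * |z - z'| := by
  have h1 := h z z'
  have h2 := LeafA.VV_lip (bar κ Φ) L hL (bar_lip hκ hL h) (1 - z) (1 - z')
  have e1 : |(1 - z) - (1 - z')| = |z - z'| := by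
    rw [show (1 - z) - (1 - z') = -(z - z') by ring, abs_neg]
  rw [e1] at h2
  have e : BB κ d Φ z - BB κ d Φ z' =
      (Φ z - Φ z') / 2 + d / 2 * (VV (bar κ Φ) (1 - z) - VV (bar κ Φ) (1 - z')) := by
    unfold BB LL
    ring
  rw [e]
  refine (abs_add_le _ _).trans ?_
  rw [abs_div, abs_mul, abs_of_nonneg (by positivity : (0 : ℝ) ≤ d / 2),
    abs_of_pos (by norm_num : (0 : ℝ) < 2)]
  have h3 : d / 2 * |VV (bar κ Φ) (1 - z) - VV (bar κ Φ) (1 - z')| ≤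
      d / 2 * (L / 3 * |z - z'|) := by gcongr
  have h4 : 0 ≤ L * |z - z'| := by positivity
  have h5 : 0 ≤ d * (L * |z - z'|) := by positivity
  nlinarith

lemma BB_close (hκ : κ (Icc 0 1)ᶜ = 0) (hd : 0 ≤ d) {Φ Ψ : ℝ → ℝ} {L M : ℝ} (hL : 0 ≤ L)
    (hM : 0 ≤ M) (h : ∀ z z', |Φ z - Φ z'| ≤ L * |z - z'|)
    (h' : ∀ z z', |Ψ z - Ψ z'| ≤ M * |z - z'|) {η : ℝ} (hη : ∀ z, |Φ z - Ψ z| ≤ η) (z : ℝ) :
    |BB κ d Φ z - BB κ d Ψ z| ≤ (1 + d) * η := by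
  have hc := LeafA.cont_of_lip hL h
  have hc' := LeafA.cont_of_lip hM h'
  have hb := LeafA.cont_of_lip hL (bar_lip hκ hL h)
  have hb' := LeafA.cont_of_lip hM (bar_lip hκ hM h')
  have h1 := hη z
  have h2 := VV_close hb hb' (bar_close hκ hc hc' hη) (1 - z)
  have hη0 : 0 ≤ η := (abs_nonneg _).trans h1
  have e : BB κ d Φ z - BB κ d Ψ z =
      (Φ z - Ψ z) / 2 + d / 2 * (VV (bar κ Φ) (1 - z) - VV (bar κ Ψ) (1 - z)) := by
    unfold BB LL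
    ring
  rw [e]
  refine (abs_add_le _ _).trans ?_
  rw [abs_div, abs_mul, abs_of_nonneg (by positivity : (0 : ℝ) ≤ d / 2),
    abs_of_pos (by norm_num : (0 : ℝ) < 2)]
  have h3 : d / 2 * |VV (bar κ Φ) (1 - z) - VV (bar κ Ψ) (1 - z)| ≤ d / 2 * η := by gcongr
  have h5 : 0 ≤ d * η := by positivity
  nlinarith

lemma KO_lin (hκ : κ (Icc 0 1)ᶜ = 0) {f g : ℝ → ℝ} (hf : Continuous f) (hg : Continuous g)
    (s : ℝ) : KO κ d (fun z => (f z - g z) / 2) s = (KO κ d f s - KO κ d g s) / 2 := by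
  have hcont : ∀ k : ℝ → ℝ, Continuous k → Continuous fun w : ℝ =>
      ∫ t in (0 : ℝ)..1, w * t ^ 2 * k ((1 - s) * (w * t ^ 2)) := by
    intro k hk
    apply intervalIntegral.continuous_parametric_intervalIntegral_of_continuous'
    exact (by fun_prop : Continuous fun p : ℝ × ℝ => p.1 * p.2 ^ 2 * k ((1 - s) * (p.1 * p.2 ^ 2)))
  unfold KO
  have e : ∀ w : ℝ, ∫ t in (0 : ℝ)..1, w * t ^ 2 *
      ((f ((1 - s) * (w * t ^ 2)) - g ((1 - s) * (w * t ^ 2))) / 2) =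
      ((∫ t in (0 : ℝ)..1, w * t ^ 2 * f ((1 - s) * (w * t ^ 2))) -
        ∫ t in (0 : ℝ)..1, w * t ^ 2 * g ((1 - s) * (w * t ^ 2))) / 2 := by
    intro w
    rw [← intervalIntegral.integral_sub
      ((by fun_prop : Continuous fun t : ℝ =>
        w * t ^ 2 * f ((1 - s) * (w * t ^ 2))).intervalIntegrable _ _)
      ((by fun_prop : Continuous fun t : ℝ =>
        w * t ^ 2 * g ((1 - s) * (w * t ^ 2))).intervalIntegrable _ _),
      ← intervalIntegral.integral_div]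
    congr 1
    funext t
    ring
  simp_rw [e]
  rw [integral_div, integral_sub (int_cont hκ (hcont f hf)) (int_cont hκ (hcont g hg))]
  ring

section C1

variable (hκ : κ (Icc 0 1)ᶜ = 0)
  (K2 : ∀ (γ : ℝ → ℝ) (L : ℝ), Continuous γ → (∀ z, |γ z| ≤ L) → ∀ s : ℝ, |KO κ d γ s| ≤ L)

include hκ K2

/-- one step for a `C¹` function -/
lemma step (Φ γ : ℝ → ℝ) (L : ℝ) (hγ : Continuous γ) (hΦ : ∀ z, HasDerivAt Φ (γ z) z)
    (hb : ∀ z, |γ z| ≤ L) :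
    Continuous (KO κ d γ) ∧ (∀ z, |KO κ d γ z| ≤ L) ∧
    Continuous (fun z => (γ z - KO κ d γ z) / 2) ∧
    (∀ z, HasDerivAt (BB κ d Φ) ((γ z - KO κ d γ z) / 2) z) ∧
    ∀ z, |(γ z - KO κ d γ z) / 2| ≤ L := by
  have h1 := fun s => LeafK1.LL_deriv κ hκ d Φ γ L hγ hΦ hb s
  have h2 := K2 γ L hγ hb
  refine ⟨(h1 0).2, h2, ?_, ?_, ?_⟩
  · exact (hγ.sub (h1 0).2).div_const 2
  · intro z
    have := ((hΦ z).add (h1 z).1).div_const 2
    rw [← sub_eq_add_neg] at this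
    exact this
  · intro z
    rw [abs_div, abs_of_pos (by norm_num : (0 : ℝ) < 2), div_le_iff₀ (by norm_num)]
    have := abs_sub (γ z) (KO κ d γ z)
    linarith [hb z, h2 z]

lemma c1_case {δ : ℝ} (hδ : ∀ (γ : ℝ → ℝ) (L : ℝ), Continuous γ → (∀ z, |γ z| ≤ L) →
      ∀ s ∈ Icc (0 : ℝ) 1,
        |KO κ d (KO κ d γ) s - KO κ d (KO κ d (KO κ d γ)) s| ≤ (2 - δ) * L)
    (Φ γ : ℝ → ℝ) (L : ℝ) (hγ : Continuous γ) (hΦ : ∀ z, HasDerivAt Φ (γ z) z)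
    (hb : ∀ z, |γ z| ≤ L) : ∀ s ∈ Icc (0 : ℝ) 1, ∀ s' ∈ Icc (0 : ℝ) 1,
      |BB κ d (BB κ d (BB κ d Φ)) s - BB κ d (BB κ d (BB κ d Φ)) s'| ≤
        (1 - δ / 8) * L * |s - s'| := by
  obtain ⟨a1, a2, a3, a4, a5⟩ := step hκ K2 Φ γ L hγ hΦ hb
  obtain ⟨b1, b2, b3, b4, b5⟩ := step hκ K2 (BB κ d Φ) _ L a3 a4 a5
  obtain ⟨c1, c2, c3, c4, c5⟩ := step hκ K2 (BB κ d (BB κ d Φ)) _ L b3 b4 b5
  -- the iterated operators
  have k2c : Continuous (KO κ d (KO κ d γ)) := by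
    -- a primitive of `KO κ d γ`
    have h := LeafK1.LL_deriv κ hκ d (fun v => ∫ u in (0 : ℝ)..v, KO κ d γ u) (KO κ d γ) L a1
      (fun z => intervalIntegral.integral_hasDerivAt_right (a1.intervalIntegrable _ _)
        (a1.stronglyMeasurableAtFilter _ _) a1.continuousAt) a2 0
    exact h.2
  have k2b : ∀ z, |KO κ d (KO κ d γ) z| ≤ L := K2 _ L a1 a2
  have e1 : KO κ d (fun z => (γ z - KO κ d γ z) / 2) =
      fun z => (KO κ d γ z - KO κ d (KO κ d γ) z) / 2 := by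
    funext z
    exact KO_lin hκ hγ a1 z
  have e2 : KO κ d (fun z => (KO κ d γ z - KO κ d (KO κ d γ) z) / 2) =
      fun z => (KO κ d (KO κ d γ) z - KO κ d (KO κ d (KO κ d γ)) z) / 2 := by
    funext z
    exact KO_lin hκ a1 k2c z
  have hder : ∀ z ∈ Icc (0 : ℝ) 1, HasDerivWithinAt (BB κ d (BB κ d (BB κ d Φ)))
      ((γ z - 3 * KO κ d γ z + 3 * KO κ d (KO κ d γ) z - KO κ d (KO κ d (KO κ d γ)) z) / 8)
      (Icc (0 : ℝ) 1) z := by
    intro z _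
    have h := (c4 z).hasDerivWithinAt (s := Icc (0 : ℝ) 1)
    have e3 : KO κ d (fun z => ((γ z - KO κ d γ z) / 2 -
        KO κ d (fun z => (γ z - KO κ d γ z) / 2) z) / 2) z =
        (KO κ d (fun z => (γ z - KO κ d γ z) / 2) z -
          KO κ d (KO κ d (fun z => (γ z - KO κ d γ z) / 2)) z) / 2 := KO_lin hκ a3 b1 z
    rw [e3, e1, e2] at h
    refine h.congr_deriv ?_
    ring
  intro s hs s' hs'
  have hbound : ∀ z ∈ Icc (0 : ℝ) 1,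
      ‖(γ z - 3 * KO κ d γ z + 3 * KO κ d (KO κ d γ) z - KO κ d (KO κ d (KO κ d γ)) z) / 8‖ ≤
      (1 - δ / 8) * L := by
    intro z hz
    rw [Real.norm_eq_abs, abs_div, abs_of_pos (by norm_num : (0 : ℝ) < 8),
      div_le_iff₀ (by norm_num)]
    have h1 := hb z
    have h2 := a2 z
    have h3 := k2b z
    have h4 := hδ γ L hγ hb z hz
    rw [abs_le] at *
    constructor <;> nlinarith [h1.1, h1.2, h2.1, h2.2, h3.1, h3.2, h4.1, h4.2]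
  have := (convex_Icc (0 : ℝ) 1).norm_image_sub_le_of_norm_hasDerivWithin_le hder hbound hs' hs
  rw [Real.norm_eq_abs, Real.norm_eq_abs] at this
  exact this

end C1

/-- LEAF K4, with K2 and K3 as hypotheses -/
theorem BB3_of (κ : Measure ℝ) [IsProbabilityMeasure κ] (hκ : κ (Icc 0 1)ᶜ = 0) (d : ℝ)
    (hd : 3 ≤ d)
    (K2 : ∀ (γ : ℝ → ℝ) (L : ℝ), Continuous γ → (∀ z, |γ z| ≤ L) → ∀ s : ℝ, |KO κ d γ s| ≤ L)
    (K3 : ∃ δ : ℝ, 0 < δ ∧ δ < 1 ∧ ∀ (γ : ℝ → ℝ) (L : ℝ),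
      Continuous γ → (∀ z, |γ z| ≤ L) → ∀ s ∈ Icc (0 : ℝ) 1,
        |KO κ d (KO κ d γ) s - KO κ d (KO κ d (KO κ d γ)) s| ≤ (2 - δ) * L) :
    ∃ q : ℝ, 0 < q ∧ q < 1 ∧ ∀ (Φ : ℝ → ℝ) (L : ℝ), 0 ≤ L →
      (∀ z z', |Φ z - Φ z'| ≤ L * |z - z'|) → ∀ s ∈ Icc (0 : ℝ) 1, ∀ s' ∈ Icc (0 : ℝ) 1,
        |BB κ d (BB κ d (BB κ d Φ)) s - BB κ d (BB κ d (BB κ d Φ)) s'| ≤ q * L * |s - s'| := by
  obtain ⟨δ, hδ0, hδ1, hδ⟩ := K3
  refine ⟨1 - δ / 8, by linarith, by linarith, ?_⟩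
  intro Φ L hL hΦ s hs s' hs'
  have hd0 : 0 ≤ d := by linarith
  have hΦc := LeafA.cont_of_lip hL hΦ
  set D : ℝ := 2 * (1 + d) ^ 3 * L + 1 with hD
  have hD0 : 0 < D := by positivity
  refine le_of_forall_pos_le_add fun e he => ?_
  set ε : ℝ := e / D with hε
  have hε0 : 0 < ε := by positivity
  -- smoothing
  set H : ℝ → ℝ := fun v => ∫ u in (0 : ℝ)..v, Φ u with hH
  have hHd : ∀ v, HasDerivAt H (Φ v) v := fun v =>
    intervalIntegral.integral_hasDerivAt_right (hΦc.intervalIntegrable _ _)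
      (hΦc.stronglyMeasurableAtFilter _ _) hΦc.continuousAt
  set Ψ : ℝ → ℝ := fun z => ε⁻¹ * (H (z + ε) - H z) with hΨ
  set γ : ℝ → ℝ := fun z => ε⁻¹ * (Φ (z + ε) - Φ z) with hγ
  have hΨd : ∀ z, HasDerivAt Ψ (γ z) z := by
    intro z
    have h1 : HasDerivAt (fun z => H (z + ε)) (Φ (z + ε)) z := (hHd (z + ε)).comp_add_const z ε
    exact (h1.sub (hHd z)).const_mul ε⁻¹
  have hγc : Continuous γ := by rw [hγ]; fun_prop
  have hγb : ∀ z, |γ z| ≤ L := by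
    intro z
    rw [hγ]
    simp only
    rw [abs_mul, abs_of_pos (inv_pos.mpr hε0), inv_mul_le_iff₀ hε0]
    have := hΦ (z + ε) z
    rw [add_sub_cancel_left, abs_of_pos hε0] at this
    linarith
  have hΨl : ∀ z z', |Ψ z - Ψ z'| ≤ L * |z - z'| := by
    intro z z'
    have := (convex_univ (𝕜 := ℝ) (E := ℝ)).norm_image_sub_le_of_norm_hasDerivWithin_le
      (f := Ψ) (f' := γ) (C := L) (fun x _ => (hΨd x).hasDerivWithinAt)
      (fun x _ => hγb x) (mem_univ z') (mem_univ z)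
    simpa using this
  have hclose : ∀ z, |Φ z - Ψ z| ≤ L * ε := by
    intro z
    obtain ⟨c, hc, hc'⟩ := exists_hasDerivAt_eq_slope H Φ (lt_add_of_pos_right z hε0)
      (fun x _ => (hHd x).continuousAt.continuousWithinAt) (fun x _ => hHd x)
    have e1 : Ψ z = Φ c := by
      rw [hc', hΨ]
      simp only
      rw [add_sub_cancel_left, div_eq_inv_mul]
    rw [e1]
    refine (hΦ z c).trans ?_
    have : |z - c| ≤ ε := by
      rw [abs_le]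
      constructor <;> linarith [hc.1, hc.2]
    gcongr
  have hmain := c1_case hκ K2 hδ Ψ γ L hγc hΨd hγb s hs s' hs'
  -- closeness of the iterates
  have hd1 : 0 ≤ (1 + d) := by linarith
  have l1 := BB_lip hκ hd0 hL hΦ
  have m1 := BB_lip hκ hd0 hL hΨl
  have c1 := BB_close hκ hd0 hL hL hΦ hΨl hclose
  have hL1 : 0 ≤ (1 + d) * L := by positivity
  have l2 := BB_lip hκ hd0 hL1 l1
  have m2 := BB_lip hκ hd0 hL1 m1
  have c2 := BB_close hκ hd0 hL1 hL1 l1 m1 c1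
  have hL2 : 0 ≤ (1 + d) * ((1 + d) * L) := by positivity
  have c3 := BB_close hκ hd0 hL2 hL2 l2 m2 c2
  have f1 := c3 s
  have f2 := c3 s'
  have hsmall : 2 * ((1 + d) * ((1 + d) * ((1 + d) * (L * ε)))) ≤ e := by
    have : 2 * ((1 + d) * ((1 + d) * ((1 + d) * (L * ε)))) = (D - 1) * ε := by
      rw [hD]; ring
    rw [this]
    have h2 : D * ε = e := by
      rw [hε]
      field_simp
    nlinarith
  rw [abs_le] at *
  constructor <;> linarith [hmain.1, hmain.2, f1.1, f1.2, f2.1, f2.2]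

end Pool.Agent.K9h70.NC.LeafK4
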