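import Pool.Agent.K9h70.NC.BFix
import Pool.Agent.K9h70.NC.Leaf_K2
import Pool.Agent.K9h70.NC.Leaf_K4

set_option autoImplicit false

namespace Pool.Agent.K9h70.NC

open MeasureTheory Set Metric

section

variable {κ : Measure ℝ} [IsProbabilityMeasure κ] {f g : ℝ → ℝ} {i d c : ℝ}

theorem Nice.comb (hf : Nice f) (hg : Nice g) (a b : ℝ) : Nice fun z => a * f z + b * g z := by
  obtain ⟨B, hB⟩ := hf.bdd
  obtain ⟨B', hB'⟩ := hg.bdd
  refine ⟨?_, |a| * B + |b| * B', fun z => ?_⟩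
  · exact (continuous_const.mul hf.cont).add (continuous_const.mul hg.cont)
  · refine (abs_add_le _ _).trans ?_
    rw [abs_mul, abs_mul]
    exact add_le_add (mul_le_mul_of_nonneg_left (hB z) (abs_nonneg _))
      (mul_le_mul_of_nonneg_left (hB' z) (abs_nonneg _))

theorem BB_bd {B : ℝ} (hB : ∀ z, |f z| ≤ B) (z : ℝ) :
    |BB κ i f z| ≤ (1 + |i|) / 2 * B := by
  have h1 : ∀ z, |bar κ f z| ≤ B := by
    intro z
    unfold bar
    rw [← Real.norm_eq_abs]
    refine (norm_integral_le_of_norm_le_const (C := B) ?_).trans ?_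
    · exact Filter.Eventually.of_forall fun w => by rw [Real.norm_eq_abs]; exact hB _
    · simp
  have h2 : ∀ z, |VV (bar κ f) z| ≤ B := by
    intro z
    unfold VV
    rw [← Real.norm_eq_abs]
    refine (intervalIntegral.norm_integral_le_of_norm_le_const (C := B) ?_).trans ?_
    · intro t _
      rw [Real.norm_eq_abs]; exact h1 _
    · simp
  unfold BB LL
  rw [abs_div, abs_of_pos (by norm_num : (0 : ℝ) < 2)]
  have h3 := abs_add_le (f z) (i * VV (bar κ f) (1 - z))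
  rw [abs_mul] at h3
  have h4 := mul_le_mul_of_nonneg_left (h2 (1 - z)) (abs_nonneg i)
  have h5 := hB z
  linarith

theorem nice_ext (φ : C(Icc (0 : ℝ) 1, ℝ)) : Nice (ext φ) := by
  refine ⟨?_, ‖φ‖, fun z => ?_⟩
  · unfold ext
    exact φ.continuous.comp continuous_projIcc
  · unfold ext
    rw [← Real.norm_eq_abs]
    exact φ.norm_coe_le_norm _

/-- `BB (ext φ) s` depends continuously on `φ` -/
theorem BB_ext_cont (s : ℝ) : Continuous fun φ : C(Icc (0 : ℝ) 1, ℝ) => BB κ i (ext φ) s := by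
  have : LipschitzWith (Real.toNNReal ((1 + |i|) / 2))
      (fun φ : C(Icc (0 : ℝ) 1, ℝ) => BB κ i (ext φ) s) := by
    refine LipschitzWith.of_dist_le_mul fun φ φ' => ?_
    rw [Real.dist_eq, Real.coe_toNNReal _ (by positivity)]
    have e := BB_comb (κ := κ) (i := i) (nice_ext φ) (nice_ext φ') 1 (-1) s
    have e2 : BB κ i (ext φ) s - BB κ i (ext φ') s =
        BB κ i (fun z => 1 * ext φ z + -1 * ext φ' z) s := by rw [e]; ring
    rw [e2]
    apply BB_bd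
    intro z
    have := ext_close (φ := φ) (φ' := φ') z
    have e3 : 1 * ext φ z + -1 * ext φ' z = ext φ z - ext φ' z := by ring
    rw [e3]; exact this
  exact this.continuous

theorem BB2_ext_cont (s : ℝ) :
    Continuous fun φ : C(Icc (0 : ℝ) 1, ℝ) => BB κ i (BB κ i (ext φ)) s := by
  have : LipschitzWith (Real.toNNReal ((1 + |i|) / 2 * ((1 + |i|) / 2)))
      (fun φ : C(Icc (0 : ℝ) 1, ℝ) => BB κ i (BB κ i (ext φ)) s) := by
    refine LipschitzWith.of_dist_le_mul fun φ φ' => ?_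
    rw [Real.dist_eq, Real.coe_toNNReal _ (by positivity)]
    have e := BB_comb (κ := κ) (i := i) (nice_BB (κ := κ) (i := i) (nice_ext φ))
      (nice_BB (κ := κ) (i := i) (nice_ext φ')) 1 (-1) s
    have e1 := BB_comb' (κ := κ) (i := i) (nice_ext φ) (nice_ext φ') 1 (-1)
    have e2 : BB κ i (BB κ i (ext φ)) s - BB κ i (BB κ i (ext φ')) s =
        BB κ i (BB κ i (fun z => 1 * ext φ z + -1 * ext φ' z)) s := by
      rw [e1, e]; ring
    rw [e2, mul_assoc]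
    apply BB_bd
    intro z
    apply BB_bd
    intro z
    have := ext_close (φ := φ) (φ' := φ') z
    have e3 : 1 * ext φ z + -1 * ext φ' z = ext φ z - ext φ' z := by ring
    rw [e3]; exact this
  exact this.continuous

theorem ext_comb (φ ψ : C(Icc (0 : ℝ) 1, ℝ)) (a b : ℝ) :
    ext (a • φ + b • ψ) = fun z => a * ext φ z + b * ext ψ z := by
  funext z
  unfold ext
  simp

/-- the convex set for the endpoint -/
def XX (κ : Measure ℝ) (d L c1 c2 : ℝ) : Set C(Icc (0 : ℝ) 1, ℝ) :=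
  KK L ∩ {φ | LipOn (BB κ d (ext φ)) c1 ∧ LipOn (BB κ d (BB κ d (ext φ))) c2}

theorem XX_compact (L c1 c2 : ℝ) (hL : 0 ≤ L) : IsCompact (XX κ d L c1 c2) := by
  apply (KK_compact L hL).inter_right
  have e : {φ : C(Icc (0 : ℝ) 1, ℝ) | LipOn (BB κ d (ext φ)) c1 ∧ LipOn (BB κ d (BB κ d (ext φ))) c2} =
      (⋂ s ∈ Icc (0 : ℝ) 1, ⋂ s' ∈ Icc (0 : ℝ) 1,
        {φ | |BB κ d (ext φ) s - BB κ d (ext φ) s'| ≤ c1 * |s - s'|}) ∩
      (⋂ s ∈ Icc (0 : ℝ) 1, ⋂ s' ∈ Icc (0 : ℝ) 1,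
        {φ | |BB κ d (BB κ d (ext φ)) s - BB κ d (BB κ d (ext φ)) s'| ≤ c2 * |s - s'|}) := by
    ext φ
    simp only [mem_ofPred_eq, mem_inter_iff, mem_iInter, LipOn]
  rw [e]
  apply IsClosed.inter
  · refine isClosed_biInter fun s _ => isClosed_biInter fun s' _ => ?_
    exact isClosed_le ((BB_ext_cont s).sub (BB_ext_cont s')).abs continuous_const
  · refine isClosed_biInter fun s _ => isClosed_biInter fun s' _ => ?_
    exact isClosed_le ((BB2_ext_cont s).sub (BB2_ext_cont s')).abs continuous_const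

theorem LipOn.comb {f g : ℝ → ℝ} {c c' a b : ℝ} (hf : LipOn f c) (hg : LipOn g c') (ha : 0 ≤ a)
    (hb : 0 ≤ b) : LipOn (fun z => a * f z + b * g z) (a * c + b * c') := by
  intro s hs s' hs'
  have e : a * f s + b * g s - (a * f s' + b * g s') = a * (f s - f s') + b * (g s - g s') := by ring
  rw [e]
  refine (abs_add_le _ _).trans ?_
  rw [abs_mul, abs_mul, abs_of_nonneg ha, abs_of_nonneg hb]
  have h1 := mul_le_mul_of_nonneg_left (hf s hs s' hs') ha
  have h2 := mul_le_mul_of_nonneg_left (hg s hs s' hs') hb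
  linarith

theorem XX_convex (L c1 c2 : ℝ) : Convex ℝ (XX κ d L c1 c2) := by
  intro φ hφ ψ hψ a b ha hb hab
  refine ⟨KK_convex L hφ.1 hψ.1 ha hb hab, ?_, ?_⟩
  · rw [ext_comb, BB_comb' (nice_ext φ) (nice_ext ψ)]
    have := hφ.2.1.comb hψ.2.1 ha hb
    rwa [← add_mul, hab, one_mul] at this
  · rw [ext_comb, BB_comb' (nice_ext φ) (nice_ext ψ),
      BB_comb' (nice_BB (nice_ext φ)) (nice_BB (nice_ext ψ))]
    have := hφ.2.2.comb hψ.2.2 ha hb
    rwa [← add_mul, hab, one_mul] at this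

theorem XX_nonempty (hκ : κ (Icc 0 1)ᶜ = 0) (hd : 3 ≤ d) (hm : ∫ w, w ∂κ = 3 / d)
    {L c1 c2 : ℝ} (hL : 0 ≤ L) (hc1 : 0 ≤ c1) (hc2 : 0 ≤ c2) : (XX κ d L c1 c2).Nonempty := by
  refine ⟨ContinuousMap.const _ 1, ⟨by simp, fun s s' => by simpa using by positivity⟩, ?_, ?_⟩
  · have h0 : LipOn (ext (ContinuousMap.const _ 1)) 0 := by
      intro s _ s' _
      unfold ext; simp
    have h1 := BB_lip hκ hd hm (nice_ext _) le_rfl h0
    intro s hs s' hs'
    refine (h1 s hs s' hs').trans ?_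
    rw [zero_mul]; positivity
  · have h0 : LipOn (ext (ContinuousMap.const _ 1)) 0 := by
      intro s _ s' _
      unfold ext; simp
    have h1 := BB_lip hκ hd hm (nice_BB (nice_ext _)) le_rfl (BB_lip hκ hd hm (nice_ext _) le_rfl h0)
    intro s hs s' hs'
    refine (h1 s hs s' hs').trans ?_
    rw [zero_mul]; positivity

end

variable {n : ℕ}

/-- the profile at the endpoint -/
theorem main2 (hn : 4 ≤ n) (i : ℝ) (hin : i = (n : ℝ) - 1) :
    ∃ ε : ℝ, 0 < ε ∧ ε ≤ 1 / 16 ∧ ∀ τ : ℝ, |τ| ≤ ε → ∃ (κ : Measure ℝ) (Φ : ℝ → ℝ) (L L0 C : ℝ),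
      IsProbabilityMeasure κ ∧ κ (Icc 0 1)ᶜ = 0 ∧ 0 < ∫ w, w ∂κ ∧ 0 ≤ L ∧
      (∀ z z', |Φ z - Φ z'| ≤ L * |z - z'|) ∧ 0 ≤ L0 ∧ L0 ≤ 1 / 8 ∧ Adm L0 (GG κ Φ) ∧
      0 < HH κ Φ 0 ∧ Φ 0 = 1 ∧ 0 < Fe (GG κ Φ) τ i 0 ∧
      (∀ s ∈ Icc (0 : ℝ) 1, Fe (GG κ Φ) τ i (Real.sqrt s) = Fe (GG κ Φ) τ i 0 * Φ s) ∧ 0 < C ∧
      (∀ e : (EuclideanSpace ℝ (Fin n)), ‖e‖ = 1 → ∀ u ∈ sphere (0 : (EuclideanSpace ℝ (Fin n))) 1,
        orderRadial i (starOf fun u => ff (GG κ Φ) τ (inner ℝ u e)) u =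
          C * GG κ Φ (inner ℝ u e ^ 2)) := by
  obtain ⟨κ, ω, hκp, hω, hκ, hm, hsf⟩ := LeafH.sphere_formula n hn
  have hn' : (4 : ℝ) ≤ n := by exact_mod_cast hn
  set d : ℝ := (n : ℝ) - 1 with hd
  have hd3 : 3 ≤ d := by rw [hd]; linarith
  have hd0 : 0 < d := by linarith
  subst hin
  obtain ⟨q, hq0, hq1, hB3⟩ := LeafK4.BB3_of κ hκ d hd3 (LeafK2.KO_markov κ hκ d hd3 hm)
    (LeafK3.KO_doeblin κ hκ d hd3 hm)
  obtain ⟨C, hC, herr⟩ := err κ hκ d hd3 hm d hd0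
  obtain ⟨δ, hδd⟩ : ∃ δ, δ = (1 - q) / 3 := ⟨_, rfl⟩
  have hδ0 : 0 < δ := by rw [hδd]; linarith
  obtain ⟨L, hLd⟩ : ∃ L, L = min (δ / C) (1 / 16) := ⟨_, rfl⟩
  have hL : 0 < L := by rw [hLd]; positivity
  have hL16 : L ≤ 1 / 16 := by rw [hLd]; exact min_le_right _ _
  have hLC : C * L ≤ δ := by
    have : L ≤ δ / C := by rw [hLd]; exact min_le_left _ _
    rw [le_div_iff₀ hC] at this
    linarith
  refine ⟨min (δ * L / C) (1 / 16), by positivity, min_le_right _ _, ?_⟩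
  intro τ hτ
  have hτ16 : |τ| ≤ 1 / 16 := hτ.trans (min_le_right _ _)
  have hτC : C * |τ| ≤ δ * L := by
    have : |τ| ≤ δ * L / C := hτ.trans (min_le_left _ _)
    rw [le_div_iff₀ hC] at this
    linarith
  have hτ8 : |τ| ≤ 1 / 8 := by linarith
  have h1L : 0 < 1 - L := by linarith
  have hsmall : C * (L ^ 2 + |τ|) / 2 ≤ δ * L := by
    have : C * L ^ 2 ≤ δ * L := by
      have := mul_le_mul_of_nonneg_right hLC hL.le
      nlinarith
    nlinarith
  set L0 := L / (d * (1 - L)) with hL0d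
  have hL0p : 0 < L0 := by positivity
  have hL08 : L0 ≤ 1 / 8 := by
    rw [hL0d, div_le_iff₀ (by positivity)]
    nlinarith
  have hL2 : L ≤ 1 / 2 := by linarith
  have hprof : ∀ φ ∈ KK L, 1 - L ≤ HH κ (ext φ) 0 ∧ Adm1 L0 (GG κ (ext φ)) (kk κ (ext φ)) := by
    intro φ hφ
    exact LeafP.prof_adm κ hκ d hd3 hm (ext φ) L hL.le hL2 (ext_lip hL.le hφ) (ext_near hL.le hφ)
  obtain ⟨T, hTc, hTe⟩ := T_map d hd0 L L0 τ 8 hL0p.le hL08 hτ8 (by norm_num)
    (fun φ => GG κ (ext φ)) (fun φ hφ => (hprof φ hφ).2.adm) (by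
      intro φ hφ φ' hφ' y _
      exact (LeafP.prof_close κ hκ (ext φ) (ext φ') L (dist φ φ') hL.le hL2 (ext_lip hL.le hφ)
        (ext_lip hL.le hφ') (ext_near hL.le hφ) (ext_near hL.le hφ') ext_close y).2)
  have hbase : 0 < 1 - L0 - |τ| := by linarith
  have hFp : ∀ φ ∈ KK L, 0 < Fe (GG κ (ext φ)) τ d 0 := fun φ hφ =>
    lt_of_lt_of_le (Real.rpow_pos_of_pos hbase d)
      (Fe_bd hL0p.le hL08 hτ8 (hprof φ hφ).2.adm hd0 (by simp)).1
  -- the averaged map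
  set S : C(Icc (0 : ℝ) 1, ℝ) → C(Icc (0 : ℝ) 1, ℝ) := fun φ => (1 / 2 : ℝ) • φ + (1 / 2 : ℝ) • T φ
    with hS
  set c1 := (q + 2 * δ) * L with hc1
  set c2 := (q + δ) * L with hc2
  have hinv : ∀ φ ∈ XX κ d L c1 c2, S φ ∈ XX κ d L c1 c2 := by
    intro φ hφ
    obtain ⟨hφK, hφ1, hφ2⟩ := hφ
    have hNφ := nice_ext φ
    have hNS := nice_ext (S φ)
    have hNB := nice_BB (κ := κ) (i := d) hNφ
    -- the error
    set ER : ℝ → ℝ := fun z => 1 * ext (S φ) z + -1 * BB κ d (ext φ) z with hER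
    have hNE : Nice ER := hNS.comb hNB 1 (-1)
    have hEl : LipOn ER (δ * L) := by
      intro s hs s' hs'
      have h1 : ∀ s ∈ Icc (0 : ℝ) 1, ER s =
          (Fe (GG κ (ext φ)) τ d (Real.sqrt s) / Fe (GG κ (ext φ)) τ d 0 - LL κ d (ext φ) s) / 2 := by
        intro s hs
        rw [hER]
        simp only
        rw [hS, ext_comb]
        simp only
        rw [ext_of_mem (φ := T φ) hs, hTe φ hφK]
        unfold BB
        ring
      rw [h1 s hs, h1 s' hs', ← sub_div, abs_div, abs_of_pos (by norm_num : (0 : ℝ) < 2),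
        div_le_iff₀ (by norm_num)]
      have h2 := herr L τ (ext φ) hL.le hL16 hτ16 (ext_lip hL.le hφK) (ext_near hL.le hφK) s hs s' hs'
      have h3 : C * (L ^ 2 + |τ|) * |s - s'| ≤ 2 * (δ * L) * |s - s'| := by
        apply mul_le_mul_of_nonneg_right _ (abs_nonneg _)
        linarith
      linarith
    have hdec : ext (S φ) = fun z => 1 * BB κ d (ext φ) z + 1 * ER z := by
      funext z
      rw [hER]; ring
    have hdec1 : BB κ d (ext (S φ)) = fun z => 1 * BB κ d (BB κ d (ext φ)) z + 1 * BB κ d ER z := by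
      rw [hdec]; exact BB_comb' hNB hNE 1 1
    have hdec2 : BB κ d (BB κ d (ext (S φ))) =
        fun z => 1 * BB κ d (BB κ d (BB κ d (ext φ))) z + 1 * BB κ d (BB κ d ER) z := by
      rw [hdec1]; exact BB_comb' (nice_BB hNB) (nice_BB hNE) 1 1
    have hδL : 0 ≤ δ * L := by positivity
    have hE1 := BB_lip hκ hd3 hm hNE hδL hEl
    have hE2 := BB_lip hκ hd3 hm (nice_BB hNE) hδL hE1
    have l0 : LipOn (ext (S φ)) L := by
      rw [hdec]
      have := hφ1.comb hEl zero_le_one zero_le_one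
      have e : 1 * c1 + 1 * (δ * L) = L := by rw [hc1, hδd]; ring
      rwa [e] at this
    have l1 : LipOn (BB κ d (ext (S φ))) c1 := by
      rw [hdec1]
      have := hφ2.comb hE1 zero_le_one zero_le_one
      have e : 1 * c2 + 1 * (δ * L) = c1 := by rw [hc1, hc2]; ring
      rwa [e] at this
    have l2 : LipOn (BB κ d (BB κ d (ext (S φ)))) c2 := by
      rw [hdec2]
      have h3 : LipOn (BB κ d (BB κ d (BB κ d (ext φ)))) (q * L) :=
        hB3 (ext φ) L hL.le (ext_lip hL.le hφK)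
      have := h3.comb hE2 zero_le_one zero_le_one
      have e : 1 * (q * L) + 1 * (δ * L) = c2 := by rw [hc2]; ring
      rwa [e] at this
    refine ⟨⟨?_, ?_⟩, l1, l2⟩
    · rw [hS]
      simp only [ContinuousMap.add_apply, ContinuousMap.smul_apply, smul_eq_mul]
      rw [hTe φ hφK, hφK.1]
      simp only [Real.sqrt_zero]
      rw [div_self (hFp φ hφK).ne']
      norm_num
    · intro s s'
      have := l0 s s.2 s' s'.2
      rwa [ext_of_mem s.2, ext_of_mem s'.2] at this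
  have hXK : XX κ d L c1 c2 ⊆ KK L := inter_subset_left
  have hSc : ContinuousOn S (XX κ d L c1 c2) := by
    have h1 : ContinuousOn (fun φ : C(Icc (0 : ℝ) 1, ℝ) => (1 / 2 : ℝ) • φ) (XX κ d L c1 c2) :=
      (continuous_const_smul (1 / 2 : ℝ)).continuousOn
    exact h1.add ((hTc.mono hXK).const_smul (1 / 2 : ℝ))
  obtain ⟨φ, hφX, hfixS⟩ := schauder (XX_compact L c1 c2 hL.le) (XX_convex L c1 c2)
    (XX_nonempty hκ hd3 hm hL.le (by positivity) (by positivity)) S hSc hinv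
  have hφ := hXK hφX
  have hfixT : ∀ s, T φ s = φ s := by
    intro s
    have h1 : S φ s = φ s := by rw [hfixS]
    rw [hS] at h1
    simp only [ContinuousMap.add_apply, ContinuousMap.smul_apply, smul_eq_mul] at h1
    linarith
  have hadm := (hprof φ hφ).2.adm
  have hH0 : 0 < HH κ (ext φ) 0 := by linarith [(hprof φ hφ).1]
  have hF0 := hFp φ hφ
  have hfix' : ∀ s ∈ Icc (0 : ℝ) 1, Fe (GG κ (ext φ)) τ d (Real.sqrt s) =
      Fe (GG κ (ext φ)) τ d 0 * ext φ s := by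
    intro s hs
    rw [ext_of_mem hs, ← hfixT ⟨s, hs⟩, hTe φ hφ]
    field_simp
  refine ⟨κ, ext φ, L, L0, 1 / d * (ω * (Fe (GG κ (ext φ)) τ d 0 * HH κ (ext φ) 0)), hκp, hκ, ?_,
    hL.le, ext_lip hL.le hφ, hL0p.le, hL08, hadm, hH0, ext_zero hφ, hF0, hfix', by positivity, ?_⟩
  · rw [hm]; positivity
  · intro e he u hu
    rw [orderRadial_zonal hn hκ hsf (ff (GG κ (ext φ)) τ) (ff_cont hL0p.le hL08 hτ8 hadm)
      (fun x hx => (ff_pos hL0p.le hL08 hτ8 hadm (abs_le.2 hx)).le) d hd0 (ext φ) L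
      (LeafP.cont_of_lip hL.le (ext_lip hL.le hφ)) (ext_near hL.le hφ)
      (Fe (GG κ (ext φ)) τ d 0) (fun s hs => hfix' s hs) e he u hu]
    have e1 : GG κ (ext φ) (inner ℝ u e ^ 2) =
        HH κ (ext φ) (inner ℝ u e ^ 2) / HH κ (ext φ) 0 := rfl
    rw [e1, ← hd]
    generalize Fe (GG κ (ext φ)) τ d 0 = A
    field_simp

end Pool.Agent.K9h70.NC
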