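import Pool.Agent.K9h70.NC.Main
import Pool.Agent.K9h70.NC.BDefs

set_option autoImplicit false

namespace Pool.Agent.K9h70.NC

open MeasureTheory Set Metric

theorem pow_bound2 (i z f m : ℝ) (hi : 0 < i) (hz : 0 ≤ z) (hz4 : z ≤ 1 / 4)
    (hf : 1 - z ≤ f) (hm0 : 0 < m) (hm : m ≤ 1 + z) :
    1 - (2 * i + 7) * z ≤ f ^ (i + 2) / m ^ 3 := by
  have h0 : 0 < 1 - z := by linarith
  have h1 : Real.exp (-(2 * z)) ≤ 1 - z := by
    have h2 := Real.add_one_le_exp (2 * z)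
    have h3 : Real.exp (-(2 * z)) * Real.exp (2 * z) = 1 := by rw [← Real.exp_add]; simp
    have h4 := Real.exp_pos (-(2 * z))
    have h5 : Real.exp (-(2 * z)) * (1 + 2 * z) ≤ 1 := by nlinarith
    have h6 : 1 ≤ (1 - z) * (1 + 2 * z) := by nlinarith
    have h7 : Real.exp (-(2 * z)) * (1 + 2 * z) ≤ (1 - z) * (1 + 2 * z) := h5.trans h6
    exact le_of_mul_le_mul_right h7 (by linarith)
  have h2 : Real.exp (-(2 * z) * (i + 2)) ≤ f ^ (i + 2) := by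
    rw [Real.exp_mul]
    exact Real.rpow_le_rpow (Real.exp_pos _).le (h1.trans hf) (by linarith)
  have h3 : Real.exp (-(3 * z)) ≤ 1 / m ^ 3 := by
    have h4 : m ^ 3 ≤ Real.exp (3 * z) := by
      calc m ^ 3 ≤ (Real.exp z) ^ 3 := by
            gcongr
            linarith [Real.add_one_le_exp z]
        _ = Real.exp (3 * z) := by rw [← Real.exp_nat_mul]; norm_num
    rw [Real.exp_neg, ← one_div]
    exact one_div_le_one_div_of_le (by positivity) h4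
  have hf0 : 0 ≤ f := by linarith
  calc 1 - (2 * i + 7) * z ≤ Real.exp (-((2 * i + 7) * z)) := by
        linarith [Real.add_one_le_exp (-((2 * i + 7) * z))]
    _ = Real.exp (-(2 * z) * (i + 2)) * Real.exp (-(3 * z)) := by
        rw [← Real.exp_add]; ring_nf
    _ ≤ f ^ (i + 2) * (1 / m ^ 3) := by gcongr
    _ = f ^ (i + 2) / m ^ 3 := by ring

/-- comparison of `g` at the two points -/
theorem g_near {G k : ℝ → ℝ} {L τ : ℝ} (hG : Adm1 L G k) (hL : 0 ≤ L) {x f m : ℝ}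
    (hx : |x| < 1) (hm : m ^ 2 = nn τ x f) (hf : |f - 1| ≤ 1 / 4)
    (h : |m - 1| ≤ 1 / 8) (hmf : |m - f| ≤ |τ|) :
    |k (yy τ x f) / (1 - yy τ x f) - k (x ^ 2) / (1 - x ^ 2)| ≤ 15 * L * |τ| := by
  have a1 := abs_le.1 hf
  have a3 := abs_le.1 h
  have hx2 : 0 < 1 - x ^ 2 := by
    have := (sq_lt_one_iff_abs_lt_one x).2 hx
    linarith
  have hm0 : 0 < m := by linarith
  have hf0 : 0 < f := by linarith
  have hn : 0 < nn τ x f := by rw [← hm]; positivity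
  have hY := yy_mem (τ := τ) (t := f) hx.le
  have e1 := one_sub_yy hn
  rw [← hm] at e1
  set Y := yy τ x f with hYd
  have hY' : x ^ 2 ∈ Icc (0 : ℝ) 1 := ⟨sq_nonneg _, by linarith⟩
  have p1 : 0 < 1 - Y := by rw [e1]; positivity
  have hk1 := hG.lipk Y hY _ hY'
  have hk2 := hG.bdd _ hY'
  have e3 : k Y / (1 - Y) - k (x ^ 2) / (1 - x ^ 2) =
      (k Y - k (x ^ 2)) / (1 - Y) + k (x ^ 2) / (1 - x ^ 2) * ((Y - x ^ 2) / (1 - Y)) := by
    field_simp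
    ring
  have h3 : |k Y / (1 - Y) - k (x ^ 2) / (1 - x ^ 2)| ≤ 3 * L * (|Y - x ^ 2| / (1 - Y)) := by
    rw [e3]
    refine (abs_add_le _ _).trans ?_
    rw [abs_div, abs_mul, abs_div, abs_div, abs_of_pos p1, abs_of_pos hx2]
    have h5 : |k Y - k (x ^ 2)| / (1 - Y) ≤ 2 * L * (|Y - x ^ 2| / (1 - Y)) := by
      rw [← mul_div_assoc]
      gcongr
    have h6 : |k (x ^ 2)| / (1 - x ^ 2) ≤ L := by
      rw [div_le_iff₀ hx2]; exact hk2
    have h7 : 0 ≤ |Y - x ^ 2| / (1 - Y) := by positivity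
    nlinarith [mul_le_mul_of_nonneg_right h6 h7]
  have e4 : |Y - x ^ 2| / (1 - Y) = |m - f| * (m + f) / f ^ 2 := by
    have : Y - x ^ 2 = (1 - x ^ 2) * ((m - f) * (m + f) / m ^ 2) := by
      have : Y - x ^ 2 = (1 - x ^ 2) - (1 - Y) := by ring
      rw [this, e1]
      field_simp
      ring
    have h8 : 0 < m + f := by positivity
    rw [this, e1, abs_mul, abs_div, abs_mul, abs_of_pos hx2, abs_of_pos h8,
      abs_of_pos (by positivity : 0 < m ^ 2)]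
    field_simp
  have h5 : |Y - x ^ 2| / (1 - Y) ≤ 5 * |τ| := by
    rw [e4, div_le_iff₀ (by positivity)]
    have h6 : m + f ≤ 5 / 2 := by linarith
    have h7 : (1 / 2 : ℝ) ≤ f ^ 2 := by nlinarith
    calc |m - f| * (m + f) ≤ |τ| * (5 / 2) := by gcongr
      _ = 5 * |τ| * (1 / 2) := by ring
      _ ≤ 5 * |τ| * f ^ 2 := by gcongr
  calc _ ≤ 3 * L * (|Y - x ^ 2| / (1 - Y)) := h3
    _ ≤ 3 * L * (5 * |τ|) := by gcongr
    _ = 15 * L * |τ| := by ring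

theorem comb {i x L τ CA C3 g g' g0 A A' Q : ℝ} (hi : 0 < i) (hx0 : 0 < x) (hL : 0 ≤ L)
    (hL8 : L ≤ 1 / 8) (hCA0 : 0 < CA) (hC3 : 0 < C3) (hn1 : |g - g0| ≤ 15 * L * |τ|)
    (hn1' : |g' - g0| ≤ 15 * L * |τ|) (hg0L : |g0| ≤ L) (hA0 : 0 ≤ A) (hA0' : 0 ≤ A')
    (hA1 : |A - 1| ≤ CA * (L + |τ|)) (hA1' : |A' - 1| ≤ CA * (L + |τ|)) (hAb : A ≤ 1 + CA)
    (hAb' : A' ≤ 1 + CA) (hqq2 : |Q| ≤ 113 * C3 * x) :
    |i * x * ((g - g0) * A + (g' - g0) * A' + (g0 * (A - 1) + g0 * (A' - 1))) + i * τ / 2 * Q| ≤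
      2 * x * (i * (15 * (1 + CA) + CA + 113 * C3) * (L ^ 2 + |τ|)) := by
  have t0 := abs_nonneg τ
  have q1 : |(g - g0) * A| ≤ 15 * L * |τ| * (1 + CA) := by
    rw [abs_mul, abs_of_nonneg hA0]
    exact mul_le_mul hn1 hAb hA0 (by positivity)
  have q2 : |(g' - g0) * A'| ≤ 15 * L * |τ| * (1 + CA) := by
    rw [abs_mul, abs_of_nonneg hA0']
    exact mul_le_mul hn1' hAb' hA0' (by positivity)
  have q3 : |g0 * (A - 1)| ≤ L * (CA * (L + |τ|)) := by
    rw [abs_mul]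
    exact mul_le_mul hg0L hA1 (abs_nonneg _) hL
  have q4 : |g0 * (A' - 1)| ≤ L * (CA * (L + |τ|)) := by
    rw [abs_mul]
    exact mul_le_mul hg0L hA1' (abs_nonneg _) hL
  have q5 := abs_add_le ((g - g0) * A + (g' - g0) * A') (g0 * (A - 1) + g0 * (A' - 1))
  have q6 := abs_add_le ((g - g0) * A) ((g' - g0) * A')
  have q7 := abs_add_le (g0 * (A - 1)) (g0 * (A' - 1))
  have q8 : |(g - g0) * A + (g' - g0) * A' + (g0 * (A - 1) + g0 * (A' - 1))| ≤
      2 * (15 * L * |τ| * (1 + CA)) + 2 * (L * (CA * (L + |τ|))) := by linarith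
  refine (abs_add_le _ _).trans ?_
  have h1 : |i * x * ((g - g0) * A + (g' - g0) * A' + (g0 * (A - 1) + g0 * (A' - 1)))| ≤
      i * x * (2 * (15 * L * |τ| * (1 + CA)) + 2 * (L * (CA * (L + |τ|)))) := by
    rw [abs_mul, abs_of_pos (by positivity : 0 < i * x)]
    exact mul_le_mul_of_nonneg_left q8 (by positivity)
  have h2 : |i * τ / 2 * Q| ≤ i * |τ| / 2 * (113 * C3 * x) := by
    rw [abs_mul, abs_div, abs_mul, abs_of_pos hi, abs_of_pos (by norm_num : (0 : ℝ) < 2)]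
    exact mul_le_mul_of_nonneg_left hqq2 (by positivity)
  have h3 : i * x * (2 * (15 * L * |τ| * (1 + CA)) + 2 * (L * (CA * (L + |τ|)))) +
      i * |τ| / 2 * (113 * C3 * x) ≤
      2 * x * (i * (15 * (1 + CA) + CA + 113 * C3) * (L ^ 2 + |τ|)) := by
    have e1 : 2 * x * (i * (15 * (1 + CA) + CA + 113 * C3) * (L ^ 2 + |τ|)) -
        (i * x * (2 * (15 * L * |τ| * (1 + CA)) + 2 * (L * (CA * (L + |τ|)))) +
          i * |τ| / 2 * (113 * C3 * x)) =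
        2 * x * i * ((15 * (1 + CA) + CA) * (|τ| * (1 - L)) + (15 * (1 + CA)) * L ^ 2 +
          113 * C3 * L ^ 2 + 113 * C3 * |τ| * (3 / 4)) := by ring
    have e2 : 0 ≤ 2 * x * i * ((15 * (1 + CA) + CA) * (|τ| * (1 - L)) + (15 * (1 + CA)) * L ^ 2 +
          113 * C3 * L ^ 2 + 113 * C3 * |τ| * (3 / 4)) := by
      have : 0 ≤ 1 - L := by linarith
      positivity
    linarith
  linarith

/-- the derivative of the even part is close to the linear term -/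
theorem Fe_deriv2 (i : ℝ) (hi : 0 < i) : ∃ C : ℝ, 0 < C ∧ ∀ (G k : ℝ → ℝ) (L τ : ℝ), 0 ≤ L →
    L ≤ 1 / 8 → |τ| ≤ 1 / 8 → Adm1 L G k → ∀ x : ℝ, 0 < x → x < 1 → ∃ D : ℝ,
      HasDerivAt (Fe G τ i) D x ∧
      |D - 2 * x * (i * (k (x ^ 2) / (1 - x ^ 2)))| ≤ 2 * x * (C * (L ^ 2 + |τ|)) := by
  obtain ⟨C3, hC3, hq⟩ := qq_lip i
  set CB := (i + 8) * Real.exp (i + 8) with hCB
  have hCB0 : 0 < CB := by positivity
  obtain ⟨CA, hCA⟩ : ∃ CA, CA = CB + (2 * i + 7) := ⟨_, rfl⟩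
  have hCA0 : 0 < CA := by rw [hCA]; positivity
  refine ⟨i * (15 * (1 + CA) + CA + 113 * C3), by positivity, ?_⟩
  intro G k L τ hL hL8 hτ hG x hx0 hx1
  have hxa : |x| < 1 := by rw [abs_of_pos hx0]; exact hx1
  have hxa' : |-x| < 1 := by rwa [abs_neg]
  obtain ⟨f, hf⟩ : ∃ f, f = ff G τ x := ⟨_, rfl⟩
  obtain ⟨m, hm⟩ : ∃ m, m = Real.sqrt (nn τ x f) := ⟨_, rfl⟩
  obtain ⟨g, hg⟩ : ∃ g, g = k (yy τ x f) / (1 - yy τ x f) := ⟨_, rfl⟩
  obtain ⟨f', hf'⟩ : ∃ f, f = ff G τ (-x) := ⟨_, rfl⟩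
  obtain ⟨m', hm'⟩ : ∃ m, m = Real.sqrt (nn τ (-x) f') := ⟨_, rfl⟩
  obtain ⟨g', hg'⟩ : ∃ g, g = k (yy τ (-x) f') / (1 - yy τ (-x) f') := ⟨_, rfl⟩
  obtain ⟨hD, hd⟩ := ff_deriv hL hL8 hτ hG hxa hf hm hg
  obtain ⟨hD', hd'⟩ := ff_deriv hL hL8 hτ hG hxa' hf' hm' hg'
  have hf1 : |f - 1| ≤ L + |τ| := by rw [hf]; exact ff_one hL hL8 hτ hG.adm hxa.le
  have hf1' : |f' - 1| ≤ L + |τ| := by rw [hf']; exact ff_one hL hL8 hτ hG.adm hxa'.le
  have hm1 : |m - 1| ≤ L := by rw [hm, hf]; exact sqrt_ff_one hL hL8 hτ hG.adm hxa.le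
  have hm1' : |m' - 1| ≤ L := by rw [hm', hf']; exact sqrt_ff_one hL hL8 hτ hG.adm hxa'.le
  have hz : L + |τ| ≤ 1 / 4 := by linarith
  have hz0 : 0 ≤ L + |τ| := by positivity
  have b1 := abs_le.1 hf1
  have b1' := abs_le.1 hf1'
  have b2 := abs_le.1 hm1
  have b2' := abs_le.1 hm1'
  have hf0 : 0 < f := by linarith
  have hf0' : 0 < f' := by linarith
  have hm0 : 0 < m := by linarith
  have hm0' : 0 < m' := by linarith
  have hn : 0 < nn τ x f := by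
    rw [hf]; exact nn_pos hτ hxa.le (ff_ge hL hL8 hτ hG.adm hxa.le)
  have hn' : 0 < nn τ (-x) f' := by
    rw [hf']; exact nn_pos hτ hxa'.le (ff_ge hL hL8 hτ hG.adm hxa'.le)
  have hm2 : m ^ 2 = nn τ x f := by rw [hm]; exact Real.sq_sqrt hn.le
  have hm2' : m' ^ 2 = nn τ (-x) f' := by rw [hm']; exact Real.sq_sqrt hn'.le
  have hff : |f - f'| ≤ 4 * x := by
    have := ff_lipx hL hL8 hτ hG.adm hxa.le hxa'.le
    rw [← hf, ← hf', sub_neg_eq_add, abs_of_pos (by linarith : 0 < x + x)] at this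
    linarith
  have c1 : |f - 1| ≤ 1 / 4 := hf1.trans hz
  have c1' : |f' - 1| ≤ 1 / 4 := hf1'.trans hz
  have c2 : |m - 1| ≤ 1 / 8 := hm1.trans hL8
  have c2' : |m' - 1| ≤ 1 / 8 := hm1'.trans hL8
  have hmf : |m - f| ≤ |τ| := by rw [hm]; exact sqrt_nn hxa.le hf0.le
  have hmf' : |m' - f'| ≤ |τ| := by rw [hm']; exact sqrt_nn hxa'.le hf0'.le
  have hmm := sqrt_pair hτ hx0.le hx1.le hm2 hm2' c1 c1' c2 c2' hff
  have hgg := g_pair hG hL hL8 hx0.le hx1 hm2 hm2' c1 c1' c2 c2' hff hmm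
  rw [← hg, ← hg'] at hgg
  have hn1 := g_near hG hL hxa hm2 c1 c2 hmf
  have hn1' := g_near hG hL hxa' hm2' c1' c2' hmf'
  rw [neg_sq] at hn1'
  rw [← hg] at hn1
  rw [← hg'] at hn1'
  have hY := yy_mem (τ := τ) (t := f) hxa.le
  have hY' := yy_mem (τ := τ) (t := f') hxa'.le
  have hx2 : 0 < 1 - x ^ 2 := by nlinarith
  have hY1 : 0 < 1 - yy τ x f := by rw [one_sub_yy hn]; positivity
  have hY1' : 0 < 1 - yy τ (-x) f' := by
    rw [one_sub_yy hn', neg_sq]; positivity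
  have hgL : |g| ≤ L := by
    rw [hg, abs_div, abs_of_pos hY1, div_le_iff₀ hY1]
    exact hG.bdd _ hY
  have hgL' : |g'| ≤ L := by
    rw [hg', abs_div, abs_of_pos hY1', div_le_iff₀ hY1']
    exact hG.bdd _ hY'
  -- derivatives of the powers
  have d1 : HasDerivAt (fun y => ff G τ y ^ i) (i * (f ^ i * Nu τ x f m g / De τ x f m g)) x := by
    have h := hd.rpow_const (p := i) (Or.inl (by rw [← hf]; exact hf0.ne'))
    refine h.congr_deriv ?_
    rw [← hf, Real.rpow_sub hf0, Real.rpow_one]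
    field_simp
  have d2 : HasDerivAt (fun y => ff G τ (-y) ^ i)
      (-(i * (f' ^ i * Nu τ (-x) f' m' g' / De τ (-x) f' m' g'))) x := by
    have h1 : HasDerivAt (fun y => ff G τ y ^ i)
        (i * (f' ^ i * Nu τ (-x) f' m' g' / De τ (-x) f' m' g')) (-x) := by
      have h := hd'.rpow_const (p := i) (Or.inl (by rw [← hf']; exact hf0'.ne'))
      refine h.congr_deriv ?_
      rw [← hf', Real.rpow_sub hf0', Real.rpow_one]
      field_simp
    have h2 : HasDerivAt (fun y => ff G τ (-y) ^ i) _ x := HasDerivAt.scomp x h1 (hasDerivAt_neg x)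
    refine h2.congr_deriv ?_
    simp
  refine ⟨_, (d1.add d2).div_const 2, ?_⟩
  rw [Nu_De i τ x f m g hf0 hm0 hD.ne', Nu_De i τ (-x) f' m' g' hf0' hm0' hD'.ne']
  have hB := pow_bound i (L + |τ|) f m hi hz0 hz hf0 (by linarith) (by
    have := abs_nonneg τ; linarith)
  have hB' := pow_bound i (L + |τ|) f' m' hi hz0 hz hf0' (by linarith) (by
    have := abs_nonneg τ; linarith)
  have hBl := pow_bound2 i (L + |τ|) f m hi hz0 hz (by linarith) hm0 (by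
    have := abs_nonneg τ; linarith)
  have hBl' := pow_bound2 i (L + |τ|) f' m' hi hz0 hz (by linarith) hm0' (by
    have := abs_nonneg τ; linarith)
  rw [← hCB] at hB hB'
  have hqq := hq τ x (-x) f f' m m' g g' hτ hxa.le hxa'.le c1 c1' c2 c2' (hgL.trans hL8)
    (hgL'.trans hL8)
  have hqq2 : |qq i τ x f m g - qq i τ (-x) f' m' g'| ≤ 113 * C3 * x := by
    refine hqq.trans ?_
    have : |x - -x| = 2 * x := by
      rw [sub_neg_eq_add, abs_of_pos (by linarith : 0 < x + x)]; ring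
    rw [this]
    calc C3 * (2 * x + |f - f'| + |m - m'| + |g - g'|) ≤
        C3 * (2 * x + 4 * x + 7 * x + 100 * x) := by gcongr
      _ = 113 * C3 * x := by ring
  set A := f ^ (i + 2) / m ^ 3 with hA
  set A' := f' ^ (i + 2) / m' ^ 3 with hA'
  set Q := qq i τ x f m g - qq i τ (-x) f' m' g' with hQ
  set g0 := k (x ^ 2) / (1 - x ^ 2) with hg0
  have hg0L : |g0| ≤ L := by
    rw [hg0, abs_div, abs_of_pos hx2, div_le_iff₀ hx2]
    exact hG.bdd _ ⟨sq_nonneg _, by linarith⟩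
  have hA0 : 0 ≤ A := by positivity
  have hA0' : 0 ≤ A' := by positivity
  have t0 := abs_nonneg τ
  have hzCA : CA * (L + |τ|) ≤ CA := mul_le_of_le_one_right hCA0.le (by linarith)
  have hCBz : 0 ≤ CB * (L + |τ|) := by positivity
  have hiz : 0 ≤ (2 * i + 7) * (L + |τ|) := by positivity
  have hA1 : |A - 1| ≤ CA * (L + |τ|) := by
    rw [abs_le, hCA, add_mul]
    constructor <;> linarith
  have hA1' : |A' - 1| ≤ CA * (L + |τ|) := by
    rw [abs_le, hCA, add_mul]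
    constructor <;> linarith
  have hAb : A ≤ 1 + CA := by linarith [(abs_le.1 hA1).2]
  have hAb' : A' ≤ 1 + CA := by linarith [(abs_le.1 hA1').2]
  have e : (i * (2 * g * x * A + τ * qq i τ x f m g) +
      -(i * (2 * g' * -x * A' + τ * qq i τ (-x) f' m' g'))) / 2 - 2 * x * (i * g0) =
      i * x * ((g - g0) * A + (g' - g0) * A' + (g0 * (A - 1) + g0 * (A' - 1))) + i * τ / 2 * Q := by
    rw [hQ]; ring
  rw [e]
  exact comb hi hx0 hL hL8 hCA0 hC3 hn1 hn1' hg0L hA0 hA0' hA1 hA1' hAb hAb' hqq2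

end Pool.Agent.K9h70.NC
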