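import Pool.Agent.K9h70.NC.Err

set_option autoImplicit false

namespace Pool.Agent.K9h70.NC

open MeasureTheory Set Metric

theorem lip_of_deriv {h : ℝ → ℝ} {M : ℝ} (hc : ContinuousOn h (Icc 0 1))
    (hd : ∀ s, 0 < s → s < 1 → ∃ D, HasDerivAt h D s ∧ |D| ≤ M) :
    ∀ s ∈ Icc (0 : ℝ) 1, ∀ s' ∈ Icc (0 : ℝ) 1, |h s - h s'| ≤ M * |s - s'| := by
  have hm1 : MonotoneOn (fun x => M * x - h x) (Icc 0 1) := by
    apply monotoneOn_of_deriv_nonneg (convex_Icc 0 1)
    · exact (by fun_prop : ContinuousOn (fun x : ℝ => M * x) (Icc 0 1)).sub hc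
    · rw [interior_Icc]
      intro x hx
      obtain ⟨D, hD, hb⟩ := hd x hx.1 hx.2
      exact ((by fun_prop : DifferentiableAt ℝ (fun x : ℝ => M * x) x).sub
        hD.differentiableAt).differentiableWithinAt
    · rw [interior_Icc]
      intro x hx
      obtain ⟨D, hD, hb⟩ := hd x hx.1 hx.2
      have h1 : HasDerivAt (fun x : ℝ => M * x) M x := by
        simpa using (hasDerivAt_id x).const_mul M
      rw [(h1.fun_sub hD).deriv]
      have := (abs_le.1 hb).2
      linarith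
  have hm2 : MonotoneOn (fun x => M * x + h x) (Icc 0 1) := by
    apply monotoneOn_of_deriv_nonneg (convex_Icc 0 1)
    · exact (by fun_prop : ContinuousOn (fun x : ℝ => M * x) (Icc 0 1)).add hc
    · rw [interior_Icc]
      intro x hx
      obtain ⟨D, hD, hb⟩ := hd x hx.1 hx.2
      exact ((by fun_prop : DifferentiableAt ℝ (fun x : ℝ => M * x) x).add
        hD.differentiableAt).differentiableWithinAt
    · rw [interior_Icc]
      intro x hx
      obtain ⟨D, hD, hb⟩ := hd x hx.1 hx.2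
      have h1 : HasDerivAt (fun x : ℝ => M * x) M x := by
        simpa using (hasDerivAt_id x).const_mul M
      rw [(h1.fun_add hD).deriv]
      have := (abs_le.1 hb).1
      linarith
  have main : ∀ x ∈ Icc (0 : ℝ) 1, ∀ x' ∈ Icc (0 : ℝ) 1, x' ≤ x → |h x - h x'| ≤ M * |x - x'| := by
    intro x hx x' hx' hxx
    have h1 := hm1 hx' hx hxx
    have h2 := hm2 hx' hx hxx
    simp only at h1 h2
    rw [abs_of_nonneg (by linarith : 0 ≤ x - x'), abs_le]
    constructor <;> linarith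
  intro x hx x' hx'
  rcases le_total x' x with h1 | h1
  · exact main x hx x' hx' h1
  · rw [abs_sub_comm, abs_sub_comm x]
    exact main x' hx' x hx h1

/-- the map differs from its linearisation by a small Lipschitz function -/
theorem err (κ : Measure ℝ) [IsProbabilityMeasure κ] (hκ : κ (Icc 0 1)ᶜ = 0) (d : ℝ) (hd : 3 ≤ d)
    (hm : ∫ w, w ∂κ = 3 / d) (i : ℝ) (hi : 0 < i) : ∃ C : ℝ, 0 < C ∧ ∀ (L τ : ℝ) (Φ : ℝ → ℝ), 0 ≤ L →
      L ≤ 1 / 16 → |τ| ≤ 1 / 16 → (∀ z z', |Φ z - Φ z'| ≤ L * |z - z'|) → (∀ z, |Φ z - 1| ≤ L) →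
      ∀ s ∈ Icc (0 : ℝ) 1, ∀ s' ∈ Icc (0 : ℝ) 1,
        |(Fe (GG κ Φ) τ i (Real.sqrt s) / Fe (GG κ Φ) τ i 0 - LL κ i Φ s) -
          (Fe (GG κ Φ) τ i (Real.sqrt s') / Fe (GG κ Φ) τ i 0 - LL κ i Φ s')| ≤
        C * (L ^ 2 + |τ|) * |s - s'| := by
  obtain ⟨C, hC, hD⟩ := Fe_deriv2 i hi
  obtain ⟨K, hK, hKl⟩ := rpow_lip i
  obtain ⟨c, hc⟩ : ∃ c : ℝ, c = ((7 / 8 : ℝ) ^ i)⁻¹ := ⟨_, rfl⟩
  have hc0 : 0 < c := by rw [hc]; positivity
  refine ⟨2 * i * (c * K) + i + c * C, by positivity, ?_⟩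
  intro L τ Φ hL hL16 hτ16 hΦl hΦn
  have hτ8 : |τ| ≤ 1 / 8 := by linarith
  have hd0 : 0 < d := by linarith
  have h1L : 0 < 1 - L := by linarith
  have hτ0 := abs_nonneg τ
  obtain ⟨hH0, hadm⟩ := LeafP.prof_adm κ hκ d hd hm Φ L hL (by linarith) hΦl hΦn
  set L0 := L / (d * (1 - L)) with hL0d
  have hL0 : 0 ≤ L0 := by positivity
  have hL0L : L0 ≤ L := by
    rw [hL0d, div_le_iff₀ (by positivity)]
    have : 1 ≤ d * (1 - L) := by nlinarith
    nlinarith
  have hL08 : L0 ≤ 1 / 8 := by linarith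
  have hHp : 0 < HH κ Φ 0 := by linarith
  have hcΦ := LeafP.cont_of_lip hL hΦl
  have hB0 : 0 ≤ L * (3 / d) := by positivity
  have hbl : ∀ z z', |bar κ Φ z - bar κ Φ z'| ≤ L * (3 / d) * |z - z'| :=
    LeafP.bar_lip hκ hm hL hΦl hΦn
  have hbc : Continuous (bar κ Φ) := LeafP.cont_of_lip hB0 hbl
  have hH1 : |HH κ Φ 0 - 1| ≤ L := LeafP.VV_near hbc (LeafP.bar_near hcΦ hΦn) (1 - 0)
  -- the value at zero
  set F0 := Fe (GG κ Φ) τ i 0 with hF0d
  have hff := ff_one hL0 hL08 hτ8 hadm.adm (x := 0) (by simp)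
  have hff2 := (ff_spec hL0 hL08 hτ8 hadm.adm (x := 0) (by simp)).1
  have hF0e : F0 = ff (GG κ Φ) τ 0 ^ i := by
    rw [hF0d]; unfold Fe; rw [neg_zero]; ring
  have hF0c : (7 / 8 : ℝ) ^ i ≤ F0 := by
    rw [hF0e]
    apply Real.rpow_le_rpow (by norm_num) _ hi.le
    have := (abs_le.1 hff).1
    linarith
  have hF0p : 0 < F0 := lt_of_lt_of_le (by positivity) hF0c
  have hF0i : 1 / F0 ≤ c := by
    rw [hc, ← one_div]
    exact one_div_le_one_div_of_le (by positivity) hF0c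
  have hF01 : |F0 - 1| ≤ K * (L0 + |τ|) := by
    have := hKl _ hff2 1 ⟨by norm_num, by norm_num⟩
    rw [Real.one_rpow, ← hF0e] at this
    exact this.trans (mul_le_mul_of_nonneg_left hff hK.le)
  apply lip_of_deriv
  · apply ContinuousOn.sub
    · apply ContinuousOn.div_const
      refine (Fe_cont hL0 hL08 hτ8 hadm.adm i).comp Real.continuous_sqrt.continuousOn ?_
      intro s hs
      have := sqrt_mem ⟨s, hs⟩
      exact ⟨by linarith [this.1], this.2⟩
    · unfold LL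
      apply ContinuousOn.mul continuousOn_const
      have hVc : Continuous (VV (bar κ Φ)) := by
        refine LeafP.cont_of_lip (L := L * (3 / d) / 3) (by positivity) ?_
        exact VV_lip (bar κ Φ) _ hB0 hbl
      exact (hVc.comp (by fun_prop)).continuousOn
  · intro s hs0 hs1
    have hx0 : 0 < Real.sqrt s := Real.sqrt_pos.2 hs0
    have hx1 : Real.sqrt s < 1 := by
      rw [Real.sqrt_lt' one_pos]; simpa using hs1
    obtain ⟨D, hD1, hD2⟩ := hD (GG κ Φ) (kk κ Φ) L0 τ hL0 hL08 hτ8 hadm _ hx0 hx1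
    rw [Real.sq_sqrt hs0.le] at hD2
    set g0 := kk κ Φ s / (1 - s) with hg0
    have hz : 0 < 1 - s := by linarith
    have hg0L : |g0| ≤ L0 := by
      rw [hg0, abs_div, abs_of_pos hz, div_le_iff₀ hz]
      exact hadm.bdd _ ⟨hs0.le, hs1.le⟩
    -- derivative of the first function
    have d1 : HasDerivAt (fun s => Fe (GG κ Φ) τ i (Real.sqrt s) / F0)
        (D * (1 / (2 * Real.sqrt s)) / F0) s := by
      have h1 := Real.hasDerivAt_sqrt hs0.ne'
      have h2 : HasDerivAt (fun s => Fe (GG κ Φ) τ i (Real.sqrt s)) _ s :=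
        HasDerivAt.scomp s hD1 h1
      refine (h2.div_const F0).congr_deriv ?_
      simp only [smul_eq_mul]; ring
    have d2 : HasDerivAt (LL κ i Φ) (i * HH κ Φ 0 * g0) s := by
      have h1 := VV_deriv (bar κ Φ) _ hB0 hbl (1 - s) hz
      have h2 : HasDerivAt (fun y : ℝ => 1 - y) (-1) s := by
        simpa using (hasDerivAt_id s).const_sub 1
      have h3 : HasDerivAt (fun y : ℝ => VV (bar κ Φ) (1 - y)) _ s := HasDerivAt.scomp s h1 h2
      have h4 := h3.const_mul i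
      refine h4.congr_deriv ?_
      rw [hg0]
      unfold kk
      simp only [smul_eq_mul]
      field_simp
    refine ⟨_, d1.sub d2, ?_⟩
    have hE : |D * (1 / (2 * Real.sqrt s)) - i * g0| ≤ C * (L0 ^ 2 + |τ|) := by
      have e : D * (1 / (2 * Real.sqrt s)) - i * g0 =
          (D - 2 * Real.sqrt s * (i * g0)) / (2 * Real.sqrt s) := by
        field_simp
      rw [e, abs_div, abs_of_pos (by positivity : 0 < 2 * Real.sqrt s),
        div_le_iff₀ (by positivity)]
      linarith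
    have e2 : D * (1 / (2 * Real.sqrt s)) / F0 - i * HH κ Φ 0 * g0 =
        (D * (1 / (2 * Real.sqrt s)) - i * g0) * (1 / F0) +
          i * g0 * ((1 - F0) * (1 / F0) - (HH κ Φ 0 - 1)) := by
      field_simp; ring
    rw [e2]
    refine (abs_add_le _ _).trans ?_
    have hF0a : |1 / F0| ≤ c := by rw [abs_of_pos (by positivity)]; exact hF0i
    have t1 : |(D * (1 / (2 * Real.sqrt s)) - i * g0) * (1 / F0)| ≤ C * (L ^ 2 + |τ|) * c := by
      rw [abs_mul]
      refine mul_le_mul (hE.trans ?_) hF0a (abs_nonneg _) (by positivity)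
      gcongr
    have t2 : |(1 - F0) * (1 / F0) - (HH κ Φ 0 - 1)| ≤ K * (L + |τ|) * c + L := by
      refine (abs_sub _ _).trans ?_
      rw [abs_mul, abs_sub_comm 1 F0]
      have : |F0 - 1| * |1 / F0| ≤ K * (L + |τ|) * c := by
        refine mul_le_mul (hF01.trans ?_) hF0a (abs_nonneg _) (by positivity)
        gcongr
      linarith
    have t3 : |i * g0 * ((1 - F0) * (1 / F0) - (HH κ Φ 0 - 1))| ≤
        i * L * (K * (L + |τ|) * c + L) := by
      rw [abs_mul, abs_mul, abs_of_pos hi]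
      refine mul_le_mul ?_ t2 (abs_nonneg _) (by positivity)
      exact mul_le_mul_of_nonneg_left (hg0L.trans hL0L) hi.le
    have t4 : i * L * (K * (L + |τ|) * c + L) ≤ (2 * i * (c * K) + i) * (L ^ 2 + |τ|) := by
      have e3 : (2 * i * (c * K) + i) * (L ^ 2 + |τ|) - i * L * (K * (L + |τ|) * c + L) =
          i * (c * K) * L ^ 2 + i * (c * K) * |τ| * (2 - L) + i * |τ| := by ring
      have e4 : 0 ≤ i * (c * K) * L ^ 2 + i * (c * K) * |τ| * (2 - L) + i * |τ| := by
        have : 0 ≤ 2 - L := by linarith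
        positivity
      linarith
    calc _ ≤ C * (L ^ 2 + |τ|) * c + i * L * (K * (L + |τ|) * c + L) := add_le_add t1 t3
      _ ≤ C * (L ^ 2 + |τ|) * c + (2 * i * (c * K) + i) * (L ^ 2 + |τ|) := by linarith
      _ = (2 * i * (c * K) + i + c * C) * (L ^ 2 + |τ|) := by ring

end Pool.Agent.K9h70.NC
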