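import Pool.Agent.K9h70.NC.Bound

/-! Leaf N (helper74) -/

set_option autoImplicit false

namespace Pool.Agent.K9h70.NC.LeafN

open Pool.Agent.K9h70.NC
open MeasureTheory Set Metric

/-- LEAF N (not a ball): strict inequality if the profile is constant -/
theorem Fe_gt (G : ℝ → ℝ) (hG : ∀ y ∈ Icc (0 : ℝ) 1, G y = 1) (τ i : ℝ) (hτ0 : 0 < τ)
    (hτ : τ ≤ 1 / 8) (hi : 0 < i) (x : ℝ) (hx0 : 0 < x) (hx : x ≤ 1) :
    Fe G τ i 0 < Fe G τ i x := by
  have hA : Adm 0 G := by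
    refine ⟨hG 0 ⟨le_rfl, zero_le_one⟩, ?_⟩
    intro y hy y' hy'
    rw [hG y hy, hG y' hy']
    simp
  have hτa : |τ| ≤ 1 / 8 := by rw [abs_of_pos hτ0]; exact hτ
  have hL8 : (0 : ℝ) ≤ 1 / 8 := by norm_num
  have key : ∀ z : ℝ, |z| ≤ 1 → 0 < ff G τ z ∧ nn τ z (ff G τ z) = 1 := by
    intro z hz
    refine ⟨ff_pos le_rfl hL8 hτa hA hz, ?_⟩
    have h1 := sqrt_ff le_rfl hL8 hτa hA hz
    rw [hG _ (yy_mem hz)] at h1
    have h2 := nn_nonneg (τ := τ) (t := ff G τ z) hz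
    have h3 := Real.sq_sqrt h2
    rw [h1] at h3
    linarith
  have hxa : |x| ≤ 1 := by rw [abs_of_pos hx0]; exact hx
  have hxa' : |-x| ≤ 1 := by rw [abs_neg]; exact hxa
  obtain ⟨p0, e0⟩ := key 0 (by simp)
  obtain ⟨p1, e1⟩ := key x hxa
  obtain ⟨p2, e2⟩ := key (-x) hxa'
  unfold Fe
  rw [neg_zero]
  obtain ⟨f0, hf0⟩ : ∃ f, f = ff G τ 0 := ⟨_, rfl⟩
  obtain ⟨f, hf⟩ : ∃ f, f = ff G τ x := ⟨_, rfl⟩
  obtain ⟨f', hf'⟩ : ∃ f, f = ff G τ (-x) := ⟨_, rfl⟩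
  rw [← hf0] at p0 e0 ⊢
  rw [← hf] at p1 e1 ⊢
  rw [← hf'] at p2 e2 ⊢
  unfold nn at e0 e1 e2
  have h1 : f - f' = 2 * τ * x := by
    have h2 : (f - f' - 2 * τ * x) * (f + f') = 0 := by linear_combination e1 - e2
    have h3 : f + f' ≠ 0 := by positivity
    have := (mul_eq_zero.1 h2).resolve_right h3
    linarith
  have h2 : f * f' = f0 ^ 2 := by
    have h3 : f * f' = 1 - τ ^ 2 := by
      have : f' = f - 2 * τ * x := by linarith
      rw [this]; linear_combination e1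
    have h4 : f0 ^ 2 = 1 - τ ^ 2 := by linear_combination e0
    rw [h3, h4]
  have h3 : f' < f := by
    have : 0 < 2 * τ * x := by positivity
    linarith
  have sq : ∀ g : ℝ, 0 < g → (g ^ (i / 2)) ^ 2 = g ^ i := by
    intro g hg
    rw [← Real.rpow_natCast, ← Real.rpow_mul hg.le]
    norm_num
  have h4 : f ^ (i / 2) * f' ^ (i / 2) = f0 ^ i := by
    rw [← Real.mul_rpow p1.le p2.le, h2, ← Real.rpow_natCast, ← Real.rpow_mul p0.le]
    norm_num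
    congr 1
    ring
  have h5 : f' ^ (i / 2) < f ^ (i / 2) := Real.rpow_lt_rpow p2.le h3 (by positivity)
  have h6 := sq f p1
  have h7 := sq f' p2
  have h8 : 0 < (f ^ (i / 2) - f' ^ (i / 2)) ^ 2 := by
    have : 0 < f ^ (i / 2) - f' ^ (i / 2) := by linarith
    positivity
  nlinarith

end Pool.Agent.K9h70.NC.LeafN
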