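import Pool.Agent.K9h70.NC.Prof

/-! Leaf N2 (helper74) -/

set_option autoImplicit false

namespace Pool.Agent.K9h70.NC.LeafN2

open Pool.Agent.K9h70.NC
open MeasureTheory Set Metric

/-- LEAF N2: if `Φ ≥ 1` on `[0,1]` with strict inequality on `(0,1]` then `HH κ Φ 0 > HH κ Φ 1` -/
theorem HH_gt (κ : Measure ℝ) [IsProbabilityMeasure κ] (hκ : κ (Icc 0 1)ᶜ = 0)
    (hm : 0 < ∫ w, w ∂κ) (Φ : ℝ → ℝ) (L : ℝ) (hL : 0 ≤ L)
    (h : ∀ z z', |Φ z - Φ z'| ≤ L * |z - z'|) (hΦ : ∀ s, 0 < s → s ≤ 1 → Φ 0 < Φ s) :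
    HH κ Φ 1 < HH κ Φ 0 := by
  have hc : Continuous Φ := LeafA.cont_of_lip hL h
  have hae : ∀ᵐ w ∂κ, w ∈ Icc (0 : ℝ) 1 := by
    rw [ae_iff]; exact hκ
  -- integrability
  have hint : ∀ z : ℝ, Integrable (fun w => Φ (z * w)) κ := by
    intro z
    have hm : AEStronglyMeasurable (fun w => Φ (z * w)) κ :=
      (hc.comp (continuous_const.mul continuous_id)).aestronglyMeasurable
    refine Integrable.of_bound hm (|Φ 0| + L * |z|) ?_
    filter_upwards [hae] with w hw
    have h1 := h (z * w) 0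
    rw [sub_zero, abs_mul] at h1
    have h2 : |w| ≤ 1 := abs_le.2 ⟨by linarith [hw.1], hw.2⟩
    have h3 : L * (|z| * |w|) ≤ L * |z| := by
      have : |z| * |w| ≤ |z| * 1 := by gcongr
      calc L * (|z| * |w|) ≤ L * (|z| * 1) := by gcongr
        _ = L * |z| := by ring
    rw [Real.norm_eq_abs]
    have h4 : |Φ (z * w)| ≤ |Φ (z * w) - Φ 0| + |Φ 0| := by
      have := abs_add_le (Φ (z * w) - Φ 0) (Φ 0)
      simpa using this
    linarith
  -- the average is Lipschitz
  have hbl : ∀ z z', |bar κ Φ z - bar κ Φ z'| ≤ L * |z - z'| := by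
    intro z z'
    unfold bar
    rw [← integral_sub (hint z) (hint z')]
    have h1 : ‖∫ w, (Φ (z * w) - Φ (z' * w)) ∂κ‖ ≤ (L * |z - z'|) * κ.real univ := by
      refine norm_integral_le_of_norm_le_const ?_
      filter_upwards [hae] with w hw
      have h1 := h (z * w) (z' * w)
      rw [← sub_mul, abs_mul] at h1
      have h2 : |w| ≤ 1 := abs_le.2 ⟨by linarith [hw.1], hw.2⟩
      rw [Real.norm_eq_abs]
      calc |Φ (z * w) - Φ (z' * w)| ≤ L * (|z - z'| * |w|) := h1
        _ ≤ L * (|z - z'| * 1) := by gcongr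
        _ = L * |z - z'| := by ring
    rw [Real.norm_eq_abs] at h1
    simpa using h1
  have hbc : Continuous (bar κ Φ) := LeafA.cont_of_lip hL hbl
  have hb0 : bar κ Φ 0 = Φ 0 := by
    unfold bar
    simp
  -- the support
  have hpos : 0 < κ (Ioc 0 1) := by
    by_contra hcon
    have h0 : κ (Ioc 0 1) = 0 := by simpa using hcon
    have hae0 : ∀ᵐ w ∂κ, w = 0 := by
      have h1 : ∀ᵐ w ∂κ, w ∉ Ioc (0 : ℝ) 1 := by
        exact measure_eq_zero_iff_ae_notMem.1 h0
      filter_upwards [hae, h1] with w hw hw1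
      by_contra hne
      exact hw1 ⟨lt_of_le_of_ne hw.1 (Ne.symm hne), hw.2⟩
    have : ∫ w, w ∂κ = 0 := by
      rw [integral_congr_ae (g := fun _ => (0 : ℝ)) hae0]; simp
    linarith
  have hbz : ∀ z, 0 < z → z ≤ 1 → Φ 0 < bar κ Φ z := by
    intro z hz hz1
    have h1 : bar κ Φ z - Φ 0 = ∫ w, (Φ (z * w) - Φ 0) ∂κ := by
      unfold bar
      rw [integral_sub (hint z) (integrable_const _)]
      simp
    have hge : ∀ w : ℝ, w ∈ Icc (0 : ℝ) 1 → 0 ≤ Φ (z * w) - Φ 0 := by
      intro w hw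
      rcases hw.1.eq_or_lt with h2 | h2
      · rw [← h2]; simp
      · have h3 := hΦ (z * w) (by positivity) (by nlinarith [hw.2])
        linarith
    have h2 : 0 < ∫ w, (Φ (z * w) - Φ 0) ∂κ := by
      rw [integral_pos_iff_support_of_nonneg_ae]
      · refine lt_of_lt_of_le hpos (measure_mono ?_)
        intro w hw
        rw [Function.mem_support]
        have h3 := hΦ (z * w) (mul_pos hz hw.1) (by nlinarith [hw.2, hw.1])
        intro h4
        linarith
      · filter_upwards [hae] with w hw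
        exact hge w hw
      · exact (hint z).sub (integrable_const _)
    linarith
  have e1 : HH κ Φ 1 = Φ 0 := by
    unfold HH VV
    simp [hb0]
  have e2 : HH κ Φ 0 = ∫ t in (0 : ℝ)..1, bar κ Φ (t ^ 2) := by
    unfold HH VV
    simp
  rw [e1, e2]
  have e3 : Φ 0 = ∫ _t in (0 : ℝ)..1, Φ 0 := by simp
  rw [e3]
  refine intervalIntegral.integral_lt_integral_of_continuousOn_of_le_of_exists_lt (by norm_num)
    continuousOn_const (by fun_prop) ?_ ⟨1, ⟨zero_le_one, le_rfl⟩, ?_⟩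
  · intro t ht
    exact (hbz _ (by have := ht.1; positivity) (by nlinarith [ht.1, ht.2])).le
  · exact hbz _ (by norm_num) (by norm_num)

end Pool.Agent.K9h70.NC.LeafN2
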