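import Pool.Agent.K9h70.NC.End
import Pool.Agent.K9h70.NC.Leaf_N
import Pool.Agent.K9h70.NC.Leaf_N2

set_option autoImplicit false

namespace Pool.Agent.K9h70.NC

open MeasureTheory Set Metric

variable {n : ℕ}

theorem starOf_congr {g g' : (EuclideanSpace ℝ (Fin n)) → ℝ} (h : ∀ u ∈ sphere (0 : (EuclideanSpace ℝ (Fin n))) 1, g u = g' u) :
    starOf g = starOf g' := by
  ext x
  constructor
  · rintro ⟨u, hu, c, hc, hcg, rfl⟩
    exact ⟨u, hu, c, hc, by rw [← h u hu]; exact hcg, rfl⟩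
  · rintro ⟨u, hu, c, hc, hcg, rfl⟩
    exact ⟨u, hu, c, hc, by rw [h u hu]; exact hcg, rfl⟩

theorem starOf_smul {g : (EuclideanSpace ℝ (Fin n)) → ℝ} {C : ℝ} (hC : 0 < C) :
    starOf (fun u => C * g u) = (fun z => C • z) '' starOf g := by
  ext x
  constructor
  · rintro ⟨u, hu, c, hc, hcg, rfl⟩
    refine ⟨(c / C) • u, ⟨u, hu, c / C, by positivity, ?_, rfl⟩, ?_⟩
    · rw [div_le_iff₀ hC]; linarith
    · simp only
      rw [smul_smul, mul_div_cancel₀ _ hC.ne']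
  · rintro ⟨_, ⟨u, hu, c, hc, hcg, rfl⟩, rfl⟩
    refine ⟨u, hu, C * c, by positivity, mul_le_mul_of_nonneg_left hcg hC.le, ?_⟩
    simp only [smul_smul]

theorem exists_inner_sq (hn : 2 ≤ n) (e : (EuclideanSpace ℝ (Fin n))) (he : ‖e‖ = 1) (y : ℝ) (hy : y ∈ Icc (0 : ℝ) 1) :
    ∃ u ∈ sphere (0 : (EuclideanSpace ℝ (Fin n))) 1, (inner ℝ u e : ℝ) ^ 2 = y := by
  have he0 : e ≠ 0 := by rintro rfl; simp at he
  obtain ⟨v, hv, hv0⟩ : ∃ v ∈ (Submodule.span ℝ {e})ᗮ, v ≠ 0 := by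
    apply Submodule.exists_mem_ne_zero_of_ne_bot
    intro h
    have h1 := Submodule.finrank_add_finrank_orthogonal (Submodule.span ℝ {e})
    rw [h, finrank_bot, finrank_span_singleton he0, finrank_euclideanSpace_fin] at h1
    omega
  have hev : (inner ℝ v e : ℝ) = 0 := by
    rw [real_inner_comm]
    exact Submodule.mem_orthogonal_singleton_iff_inner_right.1 hv
  have hvn : 0 < ‖v‖ := norm_pos_iff.2 hv0
  obtain ⟨w, hw⟩ : ∃ w, w = ‖v‖⁻¹ • v := ⟨_, rfl⟩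
  have hw1 : ‖w‖ = 1 := by
    rw [hw, norm_smul, norm_inv, norm_norm, inv_mul_cancel₀ hvn.ne']
  have hwe : (inner ℝ w e : ℝ) = 0 := by rw [hw, inner_smul_left, hev, mul_zero]
  refine ⟨Real.sqrt y • e + Real.sqrt (1 - y) • w, ?_, ?_⟩
  · rw [mem_sphere_zero_iff_norm, ← sq_eq_sq₀ (norm_nonneg _) zero_le_one, norm_add_sq_real,
      norm_smul, norm_smul, he, hw1, inner_smul_left, inner_smul_right, real_inner_comm, hwe]
    simp only [Real.norm_eq_abs, mul_one, sq_abs, mul_zero, add_zero]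
    rw [Real.sq_sqrt hy.1, Real.sq_sqrt (by linarith [hy.2])]
    ring
  · rw [inner_add_left, inner_smul_left, inner_smul_left, hwe, real_inner_self_eq_norm_sq, he]
    simp [Real.sq_sqrt hy.1]

theorem radial_ball (R : ℝ) (hR : 0 ≤ R) (u : (EuclideanSpace ℝ (Fin n))) (hu : u ∈ sphere (0 : (EuclideanSpace ℝ (Fin n))) 1) :
    radial (closedBall (0 : (EuclideanSpace ℝ (Fin n))) R) u = R := by
  have hu1 : ‖u‖ = 1 := by simpa using hu
  have e : {c : ℝ | 0 ≤ c ∧ c • u ∈ closedBall (0 : (EuclideanSpace ℝ (Fin n))) R} = Icc 0 R := by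
    ext c
    constructor
    · rintro ⟨hc, h⟩
      rw [mem_closedBall_zero_iff, norm_smul, hu1, mul_one, Real.norm_eq_abs, abs_of_nonneg hc] at h
      exact ⟨hc, h⟩
    · rintro ⟨hc, h⟩
      refine ⟨hc, ?_⟩
      rw [mem_closedBall_zero_iff, norm_smul, hu1, mul_one, Real.norm_eq_abs, abs_of_nonneg hc]
      exact h
  unfold radial
  rw [e, csSup_Icc hR]

/-- a zonal even star set that is a ball has constant profile -/
theorem const_of_ball (hn : 2 ≤ n) (G : ℝ → ℝ) (e : (EuclideanSpace ℝ (Fin n))) (he : ‖e‖ = 1)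
    (hG0 : ∀ y ∈ Icc (0 : ℝ) 1, 0 ≤ G y) (q : (EuclideanSpace ℝ (Fin n))) (R : ℝ)
    (h : starOf (fun u : (EuclideanSpace ℝ (Fin n)) => G (inner ℝ u e ^ 2)) = closedBall q R) :
    ∀ y ∈ Icc (0 : ℝ) 1, G y = G 0 := by
  have hin : ∀ u ∈ sphere (0 : (EuclideanSpace ℝ (Fin n))) 1, (inner ℝ u e : ℝ) ^ 2 ∈ Icc (0 : ℝ) 1 := fun u hu =>
    ⟨sq_nonneg _, (sq_le_one_iff_abs_le_one _).2 (LeafG2.inner_abs_le hu he)⟩
  have hg0 : ∀ u ∈ sphere (0 : (EuclideanSpace ℝ (Fin n))) 1, 0 ≤ G ((inner ℝ u e : ℝ) ^ 2) := fun u hu => hG0 _ (hin u hu)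
  have h0 : (0 : (EuclideanSpace ℝ (Fin n))) ∈ closedBall q R := by
    rw [← h, LeafG2.mem_starOf (by omega) _ hg0]
    intro hx; exact absurd rfl hx
  have hR : 0 ≤ R := (norm_nonneg _).trans (by simpa using h0)
  have hsymm : ∀ z ∈ closedBall q R, -z ∈ closedBall q R := by
    intro z hz
    rw [← h] at hz ⊢
    obtain ⟨u, hu, c, hc, hcg, rfl⟩ := hz
    refine ⟨-u, by simpa using hu, c, hc, ?_, by simp⟩
    simpa using hcg
  have hq : q = 0 := by
    by_contra hq0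
    have hqn : 0 < ‖q‖ := norm_pos_iff.2 hq0
    have h1 : q + (R / ‖q‖) • q ∈ closedBall q R := by
      rw [mem_closedBall, dist_eq_norm, add_sub_cancel_left, norm_smul, Real.norm_eq_abs,
        abs_of_nonneg (by positivity), div_mul_cancel₀ _ hqn.ne']
    have h2 := hsymm _ h1
    rw [mem_closedBall, dist_eq_norm] at h2
    have e1 : -(q + (R / ‖q‖) • q) - q = (-(2 + R / ‖q‖)) • q := by
      module
    rw [e1, norm_smul, Real.norm_eq_abs, abs_neg, abs_of_nonneg (by positivity), add_mul,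
      div_mul_cancel₀ _ hqn.ne'] at h2
    linarith
  subst hq
  have hr : ∀ u ∈ sphere (0 : (EuclideanSpace ℝ (Fin n))) 1, G ((inner ℝ u e : ℝ) ^ 2) = R := by
    intro u hu
    rw [← radial_ball R hR u hu, ← h]
    exact (LeafG1.radial_starOf (fun u : (EuclideanSpace ℝ (Fin n)) => G (inner ℝ u e ^ 2)) hg0 u hu).symm
  intro y hy
  obtain ⟨u, hu, hy'⟩ := exists_inner_sq hn e he y hy
  obtain ⟨u', hu', hy''⟩ := exists_inner_sq hn e he 0 ⟨le_refl _, zero_le_one⟩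
  rw [← hy', hr u hu, ← hy'', hr u' hu']

/-- **Main theorem** -/
theorem final (hn : 4 ≤ n) (i : ℝ) (hi : 0 < i) (hin : i ≤ (n : ℝ) - 1) :
    ∃ ε : ℝ, 0 < ε ∧ ∀ p : (EuclideanSpace ℝ (Fin n)), p ≠ 0 → ‖p‖ < ε → ∃ L : Set (EuclideanSpace ℝ (Fin n)), IsStarBody L ∧
      (∀ z ∈ L, (2 : ℝ) • p - z ∈ L) ∧
      (∃ r : ℝ, 0 < r ∧ intersectionBody i L = (fun z => -(r • p) + r • z) '' L) ∧
      ¬ ∃ (c : (EuclideanSpace ℝ (Fin n))) (R : ℝ), L = closedBall c R := by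
  obtain ⟨ε, hε, hε16, H⟩ := (lt_or_eq_of_le hin).elim (fun h => main1 hn i hi h)
    (fun h => main2 hn i h)
  refine ⟨ε, hε, ?_⟩
  intro p hp hpε
  have hpn : 0 < ‖p‖ := norm_pos_iff.2 hp
  obtain ⟨τ, hτd⟩ : ∃ τ, τ = ‖p‖ := ⟨_, rfl⟩
  obtain ⟨e, hed⟩ : ∃ e, e = ‖p‖⁻¹ • p := ⟨_, rfl⟩
  have he : ‖e‖ = 1 := by rw [hed, norm_smul, norm_inv, norm_norm, inv_mul_cancel₀ hpn.ne']
  have hpe : p = τ • e := by rw [hτd, hed, smul_smul, mul_inv_cancel₀ hpn.ne', one_smul]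
  have hτ0 : 0 < τ := by rw [hτd]; exact hpn
  have hτε : |τ| ≤ ε := by rw [abs_of_pos hτ0, hτd]; exact hpε.le
  have hτ8 : τ ≤ 1 / 8 := by rw [hτd]; linarith
  have hτa : |τ| ≤ 1 / 8 := by rwa [abs_of_pos hτ0]
  obtain ⟨κ, Φ, L, L0, C, hκp, hκ, hκm, hL, hΦl, hL0, hL08, hadm, hH0, hΦ0, hF0, hfix, hC, hrad⟩ :=
    H τ hτε
  set G := GG κ Φ with hG
  have hn1 : 1 ≤ n := by omega
  have hfc : ContinuousOn (fun u : (EuclideanSpace ℝ (Fin n)) => ff G τ (inner ℝ u e)) (sphere 0 1) := by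
    refine (ff_cont hL0 hL08 hτa hadm).comp (by fun_prop) ?_
    intro v hv
    exact abs_le.1 (LeafG2.inner_abs_le hv he)
  have hf0 : ∀ u ∈ sphere (0 : (EuclideanSpace ℝ (Fin n))) 1, 0 ≤ ff G τ (inner ℝ u e) := fun v hv =>
    (ff_pos hL0 hL08 hτa hadm (LeafG2.inner_abs_le hv he)).le
  have htr := LeafG2.starOf_translate hn1 G L0 τ hL0 hL08 hτ0 hτ8 hadm e he
  have hGp : ∀ y ∈ Icc (0 : ℝ) 1, 0 ≤ G y := by
    intro y hy
    have := (abs_le.1 (G_bd' hL0 hadm hy)).1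
    linarith
  refine ⟨starOf fun u => ff G τ (inner ℝ u e), (LeafG1.starOf_spec hn1 _ hfc hf0).1, ?_, ?_, ?_⟩
  · -- symmetry about `p`
    intro z hz
    rw [htr] at hz ⊢
    obtain ⟨w, hw, rfl⟩ := hz
    refine ⟨-w, ?_, ?_⟩
    · obtain ⟨u, hu, c, hc, hcg, rfl⟩ := hw
      refine ⟨-u, by simpa using hu, c, hc, ?_, by simp⟩
      simpa using hcg
    · simp only
      rw [hpe]; module
  · refine ⟨C, hC, ?_⟩
    have h1 : intersectionBody i (starOf fun u => ff G τ (inner ℝ u e)) =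
        starOf (fun u : (EuclideanSpace ℝ (Fin n)) => C * G (inner ℝ u e ^ 2)) := by
      have : intersectionBody i (starOf fun u => ff G τ (inner ℝ u e)) =
        starOf (orderRadial i (starOf fun u => ff G τ (inner ℝ u e))) := rfl
      rw [this]
      exact starOf_congr (hrad e he)
    rw [h1, starOf_smul hC, htr, image_image]
    congr 1
    funext z
    rw [hpe]; module
  · rintro ⟨c, R, hball⟩
    have h1 : starOf (fun u : (EuclideanSpace ℝ (Fin n)) => G (inner ℝ u e ^ 2)) = closedBall (c - p) R := by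
      have h2 : (fun z => z + τ • e) '' starOf (fun u : (EuclideanSpace ℝ (Fin n)) => G (inner ℝ u e ^ 2)) = closedBall c R := by
        rw [← htr]; exact hball
      have h3 : starOf (fun u : (EuclideanSpace ℝ (Fin n)) => G (inner ℝ u e ^ 2)) = (fun z => z - τ • e) '' closedBall c R := by
        rw [← h2, image_image]; simp
      rw [h3, hpe]
      ext z
      constructor
      · rintro ⟨w, hw, rfl⟩
        rw [mem_closedBall, dist_eq_norm] at hw ⊢
        rwa [sub_sub_sub_cancel_right]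
      · intro hz
        refine ⟨z + τ • e, ?_, by simp⟩
        rw [mem_closedBall, dist_eq_norm] at hz ⊢
        have : z + τ • e - c = z - (c - τ • e) := by abel
        rwa [this]
    have h4 := const_of_ball (by omega) G e he hGp _ _ h1
    have h5 : ∀ y ∈ Icc (0 : ℝ) 1, G y = 1 := fun y hy => by rw [h4 y hy, hadm.one]
    have h6 : ∀ s, 0 < s → s ≤ 1 → Φ 0 < Φ s := by
      intro s hs0 hs1
      have h7 := LeafN.Fe_gt G h5 τ i hτ0 hτ8 hi (Real.sqrt s) (Real.sqrt_pos.2 hs0)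
        (Real.sqrt_le_iff.2 ⟨zero_le_one, by simpa using hs1⟩)
      rw [hfix s ⟨hs0.le, hs1⟩] at h7
      rw [hΦ0]
      by_contra h8
      push Not at h8
      nlinarith
    have h7 := LeafN2.HH_gt κ hκ hκm Φ L hL hΦl h6
    have h8 := h5 1 ⟨zero_le_one, le_refl _⟩
    rw [hG] at h8
    unfold GG at h8
    rw [div_eq_one_iff_eq hH0.ne'] at h8
    linarith

end Pool.Agent.K9h70.NC
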