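import Pool.Agent.K9h70.NC.Defs

set_option autoImplicit false

namespace Pool.Agent.K9h70.NC.LeafK

open MeasureTheory Set Metric

/-- the state space -/
def KK (L : ℝ) : Set C(Icc (0 : ℝ) 1, ℝ) :=
  {φ | φ ⟨0, by simp⟩ = 1 ∧ ∀ s s' : Icc (0 : ℝ) 1, |φ s - φ s'| ≤ L * |(s : ℝ) - s'|}

/-- LEAF K -/
theorem KK_compact (L : ℝ) (hL : 0 ≤ L) : IsCompact (KK L) := by
  let e := ContinuousMap.isometryEquivBoundedOfCompact (Icc (0 : ℝ) 1) ℝ
  have hcl : IsClosed (KK L) := by
    have h : KK L = {φ | φ ⟨0, by simp⟩ = 1} ∩ ⋂ s : Icc (0 : ℝ) 1, ⋂ s' : Icc (0 : ℝ) 1,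
        {φ | |φ s - φ s'| ≤ L * |(s : ℝ) - s'|} := by
      ext φ
      constructor
      · rintro ⟨h1, h2⟩
        exact ⟨h1, mem_iInter.2 fun s => mem_iInter.2 fun s' => h2 s s'⟩
      · rintro ⟨h1, h2⟩
        exact ⟨h1, fun s s' => mem_iInter.1 (mem_iInter.1 h2 s) s'⟩
    rw [h]
    refine IsClosed.inter (isClosed_eq (continuous_eval_const _) continuous_const) ?_
    refine isClosed_iInter fun s => isClosed_iInter fun s' => ?_
    exact isClosed_le (((continuous_eval_const s).sub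
      (continuous_eval_const s')).abs) continuous_const
  have hA : IsCompact (e '' (KK L)) := by
    refine BoundedContinuousFunction.arzela_ascoli₂ (Icc (1 - L) (1 + L)) isCompact_Icc _ ?_ ?_ ?_
    · exact e.toHomeomorph.isClosedMap _ hcl
    · rintro _ s ⟨φ, hφ, rfl⟩
      have h1 := hφ.2 s ⟨0, by simp⟩
      rw [hφ.1] at h1
      have h2 : |(s : ℝ) - (0 : ℝ)| ≤ 1 := by
        rw [sub_zero, abs_of_nonneg s.2.1]; exact s.2.2
      have h3 : |φ s - 1| ≤ L := h1.trans (by
        calc L * |(s : ℝ) - (0 : ℝ)| ≤ L * 1 := mul_le_mul_of_nonneg_left h2 hL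
          _ = L := mul_one L)
      have h4 := abs_le.1 h3
      change φ s ∈ Icc (1 - L) (1 + L)
      exact ⟨by linarith, by linarith⟩
    · intro s
      rw [Metric.equicontinuousAt_iff]
      intro ε hε
      refine ⟨ε / (L + 1), by positivity, ?_⟩
      rintro s' hs' ⟨_, φ, hφ, rfl⟩
      change dist (φ s) (φ s') < ε
      rw [Real.dist_eq]
      have h1 := hφ.2 s s'
      have h2 : |(s : ℝ) - s'| < ε / (L + 1) := by
        have : dist (s : ℝ) s' < ε / (L + 1) := by
          rw [dist_comm]; exact hs'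
        simpa [Real.dist_eq] using this
      calc |φ s - φ s'| ≤ L * |(s : ℝ) - s'| := h1
        _ ≤ (L + 1) * |(s : ℝ) - s'| := by
          have := abs_nonneg ((s : ℝ) - s'); nlinarith
        _ < (L + 1) * (ε / (L + 1)) := by
          exact mul_lt_mul_of_pos_left h2 (by linarith)
        _ = ε := by field_simp
  exact e.toHomeomorph.isCompact_image.1 hA

end Pool.Agent.K9h70.NC.LeafK
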