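import Pool.Agent.K9h70.NC.Defs
import Pool.Agent.H15.Brouwer

set_option autoImplicit false

namespace Pool.Agent.K9h70.NC.LeafS

open MeasureTheory Set Metric

/-- LEAF S (Schauder) -/
theorem schauder {X : Type*} [NormedAddCommGroup X] [NormedSpace ℝ X] {K : Set X}
    (hK : IsCompact K) (hc : Convex ℝ K) (hne : K.Nonempty) (T : X → X) (hT : ContinuousOn T K)
    (hTK : ∀ x ∈ K, T x ∈ K) : ∃ x ∈ K, T x = x := by
  have key : ∀ ε > 0, ∃ x ∈ K, ‖T x - x‖ ≤ ε := by
    intro ε hε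
    obtain ⟨s, hsK, hsf, hcov⟩ := hK.finite_cover_balls hε
    have : Fintype s := hsf.fintype
    let L := EuclideanSpace.equiv s ℝ
    let Δ : Set (EuclideanSpace ℝ s) := L.symm '' (stdSimplex ℝ s)
    have hΔc : IsCompact Δ := (isCompact_stdSimplex ℝ s).image L.symm.continuous
    have hΔx : Convex ℝ Δ := (convex_stdSimplex ℝ s).linear_image L.symm.toLinearEquiv.toLinearMap
    have hmem : ∀ w : EuclideanSpace ℝ s, w ∈ Δ ↔ (∀ i, 0 ≤ w i) ∧ ∑ i, w i = 1 := by
      intro w
      constructor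
      · rintro ⟨v, ⟨h1, h2⟩, rfl⟩
        exact ⟨h1, h2⟩
      · rintro ⟨h1, h2⟩
        exact ⟨L w, ⟨h1, h2⟩, L.symm_apply_apply w⟩
    let φ : X → s → ℝ := fun x i => max 0 (ε - ‖x - i‖)
    have hφ0 : ∀ x i, 0 ≤ φ x i := fun x i => le_max_left _ _
    let Φ : X → ℝ := fun x => ∑ i, φ x i
    have hΦ0 : ∀ x ∈ K, 0 < Φ x := by
      intro x hx
      obtain ⟨c, hcs, hxc⟩ := mem_iUnion₂.1 (hcov hx)
      refine Finset.sum_pos' (fun i _ => hφ0 x i) ⟨⟨c, hcs⟩, Finset.mem_univ _, ?_⟩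
      have : ‖x - c‖ < ε := by simpa [dist_eq_norm] using hxc
      exact lt_max_of_lt_right (by simpa using this)
    let σ : EuclideanSpace ℝ s → X := fun w => ∑ i, w i • (i : X)
    have hσ : Continuous σ := by fun_prop
    have hσK : ∀ w ∈ Δ, σ w ∈ K := by
      intro w hw
      obtain ⟨h1, h2⟩ := (hmem w).1 hw
      exact hc.sum_mem (fun i _ => h1 i) h2 (fun i _ => hsK i.2)
    let P : X → EuclideanSpace ℝ s := fun x => L.symm (fun i => φ x i / Φ x)
    have hPapp : ∀ x i, P x i = φ x i / Φ x := fun x i => rfl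
    have hPΔ : ∀ x ∈ K, P x ∈ Δ := by
      intro x hx
      refine ⟨_, ⟨fun i => div_nonneg (hφ0 x i) (hΦ0 x hx).le, ?_⟩, rfl⟩
      rw [← Finset.sum_div]
      exact div_self (hΦ0 x hx).ne'
    have hPc : ContinuousOn P K := by
      refine L.symm.continuous.comp_continuousOn ?_
      refine continuousOn_pi.2 fun i => ?_
      refine ContinuousOn.div ?_ ?_ (fun x hx => (hΦ0 x hx).ne')
      · exact Continuous.continuousOn (by fun_prop)
      · exact Continuous.continuousOn (by fun_prop)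
    have hΔne : Δ.Nonempty := by
      obtain ⟨x, hx⟩ := hne
      exact ⟨P x, hPΔ x hx⟩
    obtain ⟨w, hwΔ, hw⟩ := Pool.Agent.H15.Brouwer.brouwer hΔc hΔx hΔne
      (fun w => P (T (σ w))) (by
        refine hPc.comp (hT.comp hσ.continuousOn (fun w hw => hσK w hw)) ?_
        intro w hw
        exact hTK _ (hσK w hw)) (fun w hw => hPΔ _ (hTK _ (hσK w hw)))
    refine ⟨σ w, hσK w hwΔ, ?_⟩
    set y := T (σ w) with hy
    have hyK : y ∈ K := hTK _ (hσK w hwΔ)
    obtain ⟨h1, h2⟩ := (hmem w).1 hwΔ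
    have hyσ : y - σ w = ∑ i, w i • (y - (i : X)) := by
      simp only [smul_sub, Finset.sum_sub_distrib, ← Finset.sum_smul, h2, one_smul, σ]
    rw [hyσ]
    have hterm : ∀ i : s, ‖w i • (y - (i : X))‖ ≤ w i * ε := by
      intro i
      rw [norm_smul, Real.norm_of_nonneg (h1 i)]
      by_cases h0 : φ y i = 0
      · have : w i = 0 := by
          rw [← hw]
          change φ y i / Φ y = 0
          rw [h0, zero_div]
        simp [this]
      · have : ‖y - i‖ ≤ ε := by
          by_contra hlt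
          push Not at hlt
          exact h0 (max_eq_left (by linarith))
        exact mul_le_mul_of_nonneg_left this (h1 i)
    calc ‖∑ i, w i • (y - (i : X))‖ ≤ ∑ i, ‖w i • (y - (i : X))‖ := norm_sum_le _ _
      _ ≤ ∑ i, w i * ε := Finset.sum_le_sum fun i _ => hterm i
      _ = ε := by rw [← Finset.sum_mul, h2, one_mul]
  obtain ⟨x, hxK, hx⟩ := hK.exists_isMinOn hne (f := fun x => ‖T x - x‖)
    ((hT.sub continuousOn_id).norm)
  refine ⟨x, hxK, ?_⟩
  have h0 : ‖T x - x‖ ≤ 0 := by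
    refine le_of_forall_pos_le_add fun ε hε => ?_
    obtain ⟨z, hzK, hz⟩ := key ε hε
    have := hx hzK
    simp only [mem_ofPred_eq] at this
    linarith
  exact sub_eq_zero.1 (norm_le_zero_iff.1 h0)

end Pool.Agent.K9h70.NC.LeafS
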