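import Pool.Agent.K9h70.NC.Bound
import Pool.Agent.K9h70.NC.Leaf_K
import Pool.Agent.K9h70.NC.Leaf_S

set_option autoImplicit false

namespace Pool.Agent.K9h70.NC

open MeasureTheory Set Metric

alias schauder := LeafS.schauder
abbrev KK := LeafK.KK
alias KK_compact := LeafK.KK_compact

theorem rpow_lip (i : ℝ) : ∃ K : ℝ, 0 < K ∧ ∀ a ∈ Icc (1 / 2 : ℝ) 2, ∀ b ∈ Icc (1 / 2 : ℝ) 2,
    |a ^ i - b ^ i| ≤ K * |a - b| := by
  have hc : ContinuousOn (fun x : ℝ => i * x ^ (i - 1)) (Icc (1 / 2 : ℝ) 2) := by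
    apply ContinuousOn.const_mul
    refine continuousOn_id.rpow_const fun x hx => Or.inl ?_
    have := hx.1
    simp only [id]; linarith
  obtain ⟨C, hC⟩ := isCompact_Icc.exists_bound_of_continuousOn hc
  refine ⟨max C 1, lt_of_lt_of_le one_pos (le_max_right _ _), ?_⟩
  intro a ha b hb
  have h := Convex.norm_image_sub_le_of_norm_hasDerivWithin_le (𝕜 := ℝ) (f := fun x : ℝ => x ^ i)
    (f' := fun x => i * x ^ (i - 1)) (s := Icc (1 / 2 : ℝ) 2) (C := max C 1)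
    (fun x hx => (Real.hasDerivAt_rpow_const (Or.inl (by
      have := hx.1
      linarith : x ≠ 0))).hasDerivWithinAt)
    (fun x hx => (hC x hx).trans (le_max_left _ _)) (convex_Icc _ _) hb ha
  simpa [Real.norm_eq_abs] using h

theorem div_close {a a' b b' β A η : ℝ} (hβ : 0 < β) (hb : β ≤ b) (hb' : β ≤ b') (ha' : |a'| ≤ A)
    (h1 : |a - a'| ≤ η) (h2 : |b - b'| ≤ η) : |a / b - a' / b'| ≤ (1 / β + A / β ^ 2) * η := by
  have hb0 : 0 < b := by linarith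
  have hb0' : 0 < b' := by linarith
  have hη : 0 ≤ η := (abs_nonneg _).trans h1
  have hA : 0 ≤ A := (abs_nonneg _).trans ha'
  have e : a / b - a' / b' = (a - a') / b - a' * (b - b') / (b * b') := by
    field_simp; ring
  rw [e]
  refine (abs_sub _ _).trans ?_
  rw [abs_div, abs_div, abs_mul, abs_of_pos hb0, abs_of_pos (mul_pos hb0 hb0')]
  have t1 : |a - a'| / b ≤ η / β := by gcongr
  have t2 : |a'| * |b - b'| / (b * b') ≤ A * η / (β * β) := by gcongr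
  calc |a - a'| / b + |a'| * |b - b'| / (b * b') ≤ η / β + A * η / (β * β) := add_le_add t1 t2
    _ = (1 / β + A / β ^ 2) * η := by field_simp

theorem KK_convex (L : ℝ) : Convex ℝ (KK L) := by
  intro φ hφ ψ hψ a b ha hb hab
  refine ⟨?_, ?_⟩
  · simp only [ContinuousMap.add_apply, ContinuousMap.smul_apply, smul_eq_mul]
    rw [hφ.1, hψ.1]; linarith
  · intro s s'
    simp only [ContinuousMap.add_apply, ContinuousMap.smul_apply, smul_eq_mul]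
    have e : a * φ s + b * ψ s - (a * φ s' + b * ψ s') = a * (φ s - φ s') + b * (ψ s - ψ s') := by
      ring
    rw [e]
    refine (abs_add_le _ _).trans ?_
    rw [abs_mul, abs_mul, abs_of_nonneg ha, abs_of_nonneg hb]
    have h1 := mul_le_mul_of_nonneg_left (hφ.2 s s') ha
    have h2 := mul_le_mul_of_nonneg_left (hψ.2 s s') hb
    calc a * |φ s - φ s'| + b * |ψ s - ψ s'| ≤ a * (L * |(s : ℝ) - s'|) + b * (L * |(s : ℝ) - s'|) :=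
          add_le_add h1 h2
      _ = (a + b) * (L * |(s : ℝ) - s'|) := by ring
      _ = L * |(s : ℝ) - s'| := by rw [hab, one_mul]

theorem KK_nonempty {L : ℝ} (hL : 0 ≤ L) : (KK L).Nonempty :=
  ⟨ContinuousMap.const _ 1, by simp, fun s s' => by simpa using by positivity⟩

section
variable {G : ℝ → ℝ} {L τ i : ℝ}

theorem Fe_bd (hL : 0 ≤ L) (hL8 : L ≤ 1 / 8) (hτ : |τ| ≤ 1 / 8) (hG : Adm L G) (hi : 0 < i) {x : ℝ}
    (hx : |x| ≤ 1) : (1 - L - |τ|) ^ i ≤ Fe G τ i x ∧ Fe G τ i x ≤ 2 ^ i := by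
  have hx' : |-x| ≤ 1 := by rwa [abs_neg]
  have h1 := abs_le.1 (ff_one hL hL8 hτ hG hx)
  have h2 := abs_le.1 (ff_one hL hL8 hτ hG hx')
  have h3 := (ff_spec hL hL8 hτ hG hx).1
  have h4 := (ff_spec hL hL8 hτ hG hx').1
  have h0 : 0 ≤ 1 - L - |τ| := by linarith
  unfold Fe
  have a1 : (1 - L - |τ|) ^ i ≤ ff G τ x ^ i := Real.rpow_le_rpow h0 (by linarith) hi.le
  have a2 : (1 - L - |τ|) ^ i ≤ ff G τ (-x) ^ i := Real.rpow_le_rpow h0 (by linarith) hi.le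
  have a3 : ff G τ x ^ i ≤ 2 ^ i := Real.rpow_le_rpow (by linarith [h3.1]) h3.2 hi.le
  have a4 : ff G τ (-x) ^ i ≤ 2 ^ i := Real.rpow_le_rpow (by linarith [h4.1]) h4.2 hi.le
  constructor <;> linarith

end

theorem sqrt_mem (s : Icc (0 : ℝ) 1) : Real.sqrt s ∈ Icc (0 : ℝ) 1 :=
  ⟨Real.sqrt_nonneg _, Real.sqrt_le_iff.2 ⟨zero_le_one, by simpa using s.2.2⟩⟩

/-- existence of the fixed point -/
theorem fix (i : ℝ) (hi : 0 < i) (L L0 τ M : ℝ) (hL : 0 ≤ L) (hL0 : 0 ≤ L0) (hL08 : L0 ≤ 1 / 8)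
    (hτ : |τ| ≤ 1 / 8) (hM : 0 ≤ M) (Γ : C(Icc (0 : ℝ) 1, ℝ) → ℝ → ℝ)
    (hΓ : ∀ φ ∈ KK L, Adm L0 (Γ φ))
    (hcont : ∀ φ ∈ KK L, ∀ φ' ∈ KK L, ∀ y ∈ Icc (0 : ℝ) 1, |Γ φ y - Γ φ' y| ≤ M * dist φ φ')
    (hlip : ∀ φ ∈ KK L, ∀ x ∈ Icc (0 : ℝ) 1, ∀ x' ∈ Icc (0 : ℝ) 1,
      |Fe (Γ φ) τ i x - Fe (Γ φ) τ i x'| ≤ L * (1 - L0 - |τ|) ^ i * |x ^ 2 - x' ^ 2|) :
    ∃ φ ∈ KK L, ∀ s : Icc (0 : ℝ) 1, Fe (Γ φ) τ i (Real.sqrt s) = Fe (Γ φ) τ i 0 * φ s := by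
  classical
  have hsm : ∀ s : Icc (0 : ℝ) 1, |Real.sqrt s| ≤ 1 := fun s => by
    rw [abs_of_nonneg (sqrt_mem s).1]; exact (sqrt_mem s).2
  have h01 : |(0 : ℝ)| ≤ 1 := by simp
  have hbase : 0 < 1 - L0 - |τ| := by linarith
  have hbp : 0 < (1 - L0 - |τ|) ^ i := Real.rpow_pos_of_pos hbase i
  have hcts : ∀ φ ∈ KK L, Continuous fun s : Icc (0 : ℝ) 1 =>
      Fe (Γ φ) τ i (Real.sqrt s) / Fe (Γ φ) τ i 0 := by
    intro φ hφ
    have h1 := Fe_cont hL0 hL08 hτ (hΓ φ hφ) i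
    have h2 : Continuous fun s : Icc (0 : ℝ) 1 => Fe (Γ φ) τ i (Real.sqrt s) := by
      refine h1.comp_continuous (Real.continuous_sqrt.comp continuous_subtype_val) ?_
      intro s
      exact ⟨by linarith [(sqrt_mem s).1], (sqrt_mem s).2⟩
    exact h2.div_const _
  set T : C(Icc (0 : ℝ) 1, ℝ) → C(Icc (0 : ℝ) 1, ℝ) := fun φ =>
    if h : φ ∈ KK L then ⟨_, hcts φ h⟩ else φ with hT
  have hTe : ∀ φ, φ ∈ KK L → ∀ s, T φ s = Fe (Γ φ) τ i (Real.sqrt s) / Fe (Γ φ) τ i 0 := by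
    intro φ h s
    rw [hT]
    simp only [dif_pos h]
    rfl
  have hF0 : ∀ φ ∈ KK L, (1 - L0 - |τ|) ^ i ≤ Fe (Γ φ) τ i 0 := fun φ hφ =>
    (Fe_bd hL0 hL08 hτ (hΓ φ hφ) hi h01).1
  -- invariance
  have hinv : ∀ φ ∈ KK L, T φ ∈ KK L := by
    intro φ hφ
    refine ⟨?_, ?_⟩
    · rw [hTe φ hφ]
      simp only [Real.sqrt_zero]
      exact div_self (lt_of_lt_of_le hbp (hF0 φ hφ)).ne'
    · intro s s'
      rw [hTe φ hφ, hTe φ hφ, ← sub_div, abs_div,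
        abs_of_pos (lt_of_lt_of_le hbp (hF0 φ hφ)), div_le_iff₀ (lt_of_lt_of_le hbp (hF0 φ hφ))]
      have h := hlip φ hφ _ (sqrt_mem s) _ (sqrt_mem s')
      rw [Real.sq_sqrt s.2.1, Real.sq_sqrt s'.2.1] at h
      refine h.trans ?_
      have h2 : L * (1 - L0 - |τ|) ^ i * |(s : ℝ) - s'| ≤ L * Fe (Γ φ) τ i 0 * |(s : ℝ) - s'| := by
        gcongr
        exact hF0 φ hφ
      linarith
  -- continuity
  obtain ⟨K, hK, hKl⟩ := rpow_lip i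
  have hclose : ∀ φ ∈ KK L, ∀ φ' ∈ KK L, ∀ x : ℝ, |x| ≤ 1 →
      |Fe (Γ φ) τ i x - Fe (Γ φ') τ i x| ≤ 2 * K * M * dist φ φ' := by
    intro φ hφ φ' hφ' x hx
    have hx' : |-x| ≤ 1 := by rwa [abs_neg]
    have h1 := ff_lipG hL0 hL08 hτ (hΓ φ hφ) (hΓ φ' hφ') (hcont φ hφ φ' hφ') hx
    have h2 := ff_lipG hL0 hL08 hτ (hΓ φ hφ) (hΓ φ' hφ') (hcont φ hφ φ' hφ') hx'
    have h3 := hKl _ (ff_spec hL0 hL08 hτ (hΓ φ hφ) hx).1 _ (ff_spec hL0 hL08 hτ (hΓ φ' hφ') hx).1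
    have h4 := hKl _ (ff_spec hL0 hL08 hτ (hΓ φ hφ) hx').1 _ (ff_spec hL0 hL08 hτ (hΓ φ' hφ') hx').1
    unfold Fe
    have e : (ff (Γ φ) τ x ^ i + ff (Γ φ) τ (-x) ^ i) / 2 -
        (ff (Γ φ') τ x ^ i + ff (Γ φ') τ (-x) ^ i) / 2 =
        ((ff (Γ φ) τ x ^ i - ff (Γ φ') τ x ^ i) + (ff (Γ φ) τ (-x) ^ i - ff (Γ φ') τ (-x) ^ i)) / 2 := by
      ring
    rw [e, abs_div, abs_of_pos (by norm_num : (0 : ℝ) < 2), div_le_iff₀ (by norm_num)]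
    refine (abs_add_le _ _).trans ?_
    have h5 : K * |ff (Γ φ) τ x - ff (Γ φ') τ x| ≤ K * (2 * (M * dist φ φ')) := by gcongr
    have h6 : K * |ff (Γ φ) τ (-x) - ff (Γ φ') τ (-x)| ≤ K * (2 * (M * dist φ φ')) := by gcongr
    linarith
  set β := (1 - L0 - |τ|) ^ i with hβ
  have hTl : ∀ φ ∈ KK L, ∀ φ' ∈ KK L,
      dist (T φ) (T φ') ≤ (1 / β + 2 ^ i / β ^ 2) * (2 * K * M) * dist φ φ' := by
    intro φ hφ φ' hφ'
    rw [ContinuousMap.dist_le (by positivity)]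
    intro s
    rw [hTe φ hφ, hTe φ' hφ', Real.dist_eq]
    have h1 := hclose φ hφ φ' hφ' _ (hsm s)
    have h2 := hclose φ hφ φ' hφ' _ h01
    have h3 := Fe_bd hL0 hL08 hτ (hΓ φ' hφ') hi (hsm s)
    have h4 : |Fe (Γ φ') τ i (Real.sqrt s)| ≤ 2 ^ i := by
      rw [abs_of_nonneg (hbp.le.trans h3.1)]; exact h3.2
    have := div_close hbp (hF0 φ hφ) (hF0 φ' hφ') h4 h1 h2
    rw [mul_assoc]
    exact this
  have hTc : ContinuousOn T (KK L) := by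
    have : LipschitzOnWith (Real.toNNReal ((1 / β + 2 ^ i / β ^ 2) * (2 * K * M))) T (KK L) := by
      refine LipschitzOnWith.of_dist_le_mul fun φ hφ φ' hφ' => ?_
      rw [Real.coe_toNNReal _ (by positivity)]
      exact hTl φ hφ φ' hφ'
    exact this.continuousOn
  obtain ⟨φ, hφ, he⟩ := schauder (KK_compact L hL) (KK_convex L) (KK_nonempty hL) T hTc hinv
  refine ⟨φ, hφ, fun s => ?_⟩
  have h := hTe φ hφ s
  rw [he] at h
  have hp : 0 < Fe (Γ φ) τ i 0 := lt_of_lt_of_le hbp (hF0 φ hφ)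
  rw [h]
  field_simp

end Pool.Agent.K9h70.NC
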