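import Mathlib

set_option autoImplicit false

namespace Pool.Agent.K9h70.NC

open MeasureTheory Set Metric

section Defs

variable {E : Type*} [NormedAddCommGroup E] [InnerProductSpace ℝ E]

/-- The radial function `ρ_L(u) = sup {c ≥ 0 : c u ∈ L}`. -/
noncomputable def radial (L : Set E) (u : E) : ℝ := sSup {c : ℝ | 0 ≤ c ∧ c • u ∈ L}

/-- A star body -/
structure IsStarBody (L : Set E) : Prop where
  compact : IsCompact L
  zero_mem : (0 : E) ∈ L
  star : StarConvex ℝ 0 L
  cont : ContinuousOn (radial L) (sphere (0 : E) 1)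

/-- The hyperplane `u^⊥`. -/
noncomputable def hyperplane (u : E) : Submodule ℝ E := (Submodule.span ℝ {u})ᗮ

/-- the star-shaped set with radial function `g` -/
def starOf (g : E → ℝ) : Set E :=
  {x | ∃ u ∈ sphere (0 : E) 1, ∃ c : ℝ, 0 ≤ c ∧ c ≤ g u ∧ x = c • u}

variable [FiniteDimensional ℝ E] [MeasurableSpace E] [BorelSpace E]

/-- The spherical Lebesgue measure on the unit sphere of the hyperplane `u^⊥`. -/
noncomputable def sphereMeasure (u : E) : Measure (sphere (0 : hyperplane u) 1) :=
  (volume : Measure (hyperplane u)).toSphere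

/-- The radial function of the intersection body of order `i` -/
noncomputable def orderRadial (i : ℝ) (L : Set E) (u : E) : ℝ :=
  1 / ((Module.finrank ℝ E : ℝ) - 1) *
    ∫ v, (radial L ((v : hyperplane u) : E)) ^ i ∂(sphereMeasure u)

/-- The intersection body of order `i` -/
def intersectionBody (i : ℝ) (L : Set E) : Set E :=
  {x | ∃ u ∈ sphere (0 : E) 1, ∃ c : ℝ, 0 ≤ c ∧ c ≤ orderRadial i L u ∧ x = c • u}

end Defs

end Pool.Agent.K9h70.NC
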