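import Pool.Agent.K9h70.NC.Defs

/-! Leaf A (helper81) -/

set_option autoImplicit false

namespace Pool.Agent.K9h70.NC.LeafA

open Pool.Agent.K9h70.NC
open MeasureTheory Set Metric

lemma cont_of_lip {Ψ : ℝ → ℝ} {L : ℝ} (hL : 0 ≤ L) (h : ∀ z z', |Ψ z - Ψ z'| ≤ L * |z - z'|) :
    Continuous Ψ := by
  have h1 : LipschitzWith ⟨L, hL⟩ Ψ := by
    apply LipschitzWith.of_dist_le_mul
    intro x y
    rw [Real.dist_eq, Real.dist_eq]
    exact h x y
  exact h1.continuous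

/-- LEAF A1 -/
theorem VV_deriv (Ψ : ℝ → ℝ) (L : ℝ) (hL : 0 ≤ L) (h : ∀ z z', |Ψ z - Ψ z'| ≤ L * |z - z'|)
    (z : ℝ) (hz : 0 < z) : HasDerivAt (VV Ψ) ((Ψ z - VV Ψ z) / (2 * z)) z := by
  have hc := cont_of_lip hL h
  let H : ℝ → ℝ := fun v => ∫ u in (0 : ℝ)..v, Ψ (u ^ 2)
  have hc2 : Continuous fun u : ℝ => Ψ (u ^ 2) := by fun_prop
  have hH : ∀ v, HasDerivAt H (Ψ (v ^ 2)) v := by
    intro v
    exact intervalIntegral.integral_hasDerivAt_right (hc2.intervalIntegrable _ _)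
      (hc2.stronglyMeasurableAtFilter _ _) hc2.continuousAt
  have key : ∀ w : ℝ, 0 < w → VV Ψ w = (Real.sqrt w)⁻¹ * H (Real.sqrt w) := by
    intro w hw
    have hs : 0 < Real.sqrt w := Real.sqrt_pos.mpr hw
    have e : ∀ t : ℝ, Ψ (w * t ^ 2) = (fun u : ℝ => Ψ (u ^ 2)) (Real.sqrt w * t) := by
      intro t
      show Ψ (w * t ^ 2) = Ψ ((Real.sqrt w * t) ^ 2)
      rw [mul_pow, Real.sq_sqrt hw.le]
    unfold VV
    rw [intervalIntegral.integral_congr (g := fun t : ℝ => (fun u : ℝ => Ψ (u ^ 2)) (Real.sqrt w * t))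
      (fun t _ => e t), intervalIntegral.integral_comp_mul_left (fun u : ℝ => Ψ (u ^ 2)) hs.ne',
      mul_zero, mul_one, smul_eq_mul]
  have hs : 0 < Real.sqrt z := Real.sqrt_pos.mpr hz
  have hsq : Real.sqrt z * Real.sqrt z = z := Real.mul_self_sqrt hz.le
  have hd1 : HasDerivAt Real.sqrt (1 / (2 * Real.sqrt z)) z := Real.hasDerivAt_sqrt hz.ne'
  have hd2 : HasDerivAt (fun w => H (Real.sqrt w)) (Ψ (Real.sqrt z ^ 2) * (1 / (2 * Real.sqrt z))) z :=
    (hH (Real.sqrt z)).comp z hd1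
  have hd3 : HasDerivAt (fun w => (Real.sqrt w)⁻¹) (-(1 / (2 * Real.sqrt z)) / Real.sqrt z ^ 2) z :=
    hd1.inv hs.ne'
  have hd4 := hd3.mul hd2
  have hev : VV Ψ =ᶠ[nhds z] fun w => (Real.sqrt w)⁻¹ * H (Real.sqrt w) := by
    filter_upwards [lt_mem_nhds hz] with w hw
    exact key w hw
  refine (hd4.congr_of_eventuallyEq hev).congr_deriv ?_
  rw [key z hz]
  have h5 : Real.sqrt z ^ 2 = z := Real.sq_sqrt hz.le
  rw [h5]
  have h6 : Real.sqrt z ≠ 0 := hs.ne'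
  have h7 : z ≠ 0 := hz.ne'
  field_simp
  linear_combination -(Ψ z) * h5

/-- LEAF A2 -/
theorem VV_lip (Ψ : ℝ → ℝ) (L : ℝ) (hL : 0 ≤ L) (h : ∀ z z', |Ψ z - Ψ z'| ≤ L * |z - z'|)
    (z z' : ℝ) : |VV Ψ z - VV Ψ z'| ≤ L / 3 * |z - z'| := by
  have hc := cont_of_lip hL h
  have hcz : ∀ z : ℝ, Continuous fun t : ℝ => Ψ (z * t ^ 2) := fun z => by fun_prop
  unfold VV
  rw [← intervalIntegral.integral_sub ((hcz z).intervalIntegrable _ _)
    ((hcz z').intervalIntegrable _ _)]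
  have h1 : |∫ t in (0 : ℝ)..1, (Ψ (z * t ^ 2) - Ψ (z' * t ^ 2))|
      ≤ ∫ t in (0 : ℝ)..1, |Ψ (z * t ^ 2) - Ψ (z' * t ^ 2)| :=
    intervalIntegral.abs_integral_le_integral_abs (by norm_num)
  have h2 : ∫ t in (0 : ℝ)..1, |Ψ (z * t ^ 2) - Ψ (z' * t ^ 2)|
      ≤ ∫ t in (0 : ℝ)..1, L * |z - z'| * t ^ 2 := by
    apply intervalIntegral.integral_mono_on (by norm_num)
    · exact (((hcz z).sub (hcz z')).abs).intervalIntegrable _ _
    · exact Continuous.intervalIntegrable (by fun_prop) _ _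
    · intro t _
      have := h (z * t ^ 2) (z' * t ^ 2)
      have e : |z * t ^ 2 - z' * t ^ 2| = |z - z'| * t ^ 2 := by
        rw [← sub_mul, abs_mul, abs_of_nonneg (sq_nonneg t)]
      rw [e] at this
      show |Ψ (z * t ^ 2) - Ψ (z' * t ^ 2)| ≤ _
      linarith
  have h3 : ∫ t in (0 : ℝ)..1, L * |z - z'| * t ^ 2 = L / 3 * |z - z'| := by
    rw [intervalIntegral.integral_const_mul, integral_pow]
    norm_num
    ring
  linarith

/-- LEAF A3 -/
theorem VV_sub (Ψ : ℝ → ℝ) (L : ℝ) (hL : 0 ≤ L) (h : ∀ z z', |Ψ z - Ψ z'| ≤ L * |z - z'|)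
    (z : ℝ) (hz : 0 ≤ z) : |Ψ z - VV Ψ z| ≤ 2 * L / 3 * z := by
  have hc := cont_of_lip hL h
  have hcz : Continuous fun t : ℝ => Ψ (z * t ^ 2) := by fun_prop
  have h0 : Ψ z = ∫ t in (0 : ℝ)..1, Ψ z := by
    rw [intervalIntegral.integral_const]
    simp
  unfold VV
  rw [h0, ← intervalIntegral.integral_sub (continuous_const.intervalIntegrable _ _)
    (hcz.intervalIntegrable _ _)]
  have h1 : |∫ t in (0 : ℝ)..1, (Ψ z - Ψ (z * t ^ 2))|
      ≤ ∫ t in (0 : ℝ)..1, |Ψ z - Ψ (z * t ^ 2)| :=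
    intervalIntegral.abs_integral_le_integral_abs (by norm_num)
  have h2 : ∫ t in (0 : ℝ)..1, |Ψ z - Ψ (z * t ^ 2)|
      ≤ ∫ t in (0 : ℝ)..1, L * z * (1 - t ^ 2) := by
    apply intervalIntegral.integral_mono_on (by norm_num)
    · exact ((continuous_const.sub hcz).abs).intervalIntegrable _ _
    · exact Continuous.intervalIntegrable (by fun_prop) _ _
    · intro t ht
      have := h z (z * t ^ 2)
      have ht2 : t ^ 2 ≤ 1 := by
        have := ht.1
        have := ht.2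
        nlinarith
      have e : |z - z * t ^ 2| = z * (1 - t ^ 2) := by
        rw [abs_of_nonneg (by nlinarith)]; ring
      rw [e] at this
      show |Ψ z - Ψ (z * t ^ 2)| ≤ _
      linarith
  have h3 : ∫ t in (0 : ℝ)..1, L * z * (1 - t ^ 2) = 2 * L / 3 * z := by
    rw [intervalIntegral.integral_const_mul, intervalIntegral.integral_sub
      (continuous_const.intervalIntegrable _ _)
      (Continuous.intervalIntegrable (by fun_prop) _ _), integral_pow]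
    norm_num
    ring
  linarith

end Pool.Agent.K9h70.NC.LeafA
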