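import Pool.Agent.K9h70.NC.Defs

set_option autoImplicit false

namespace Pool.Agent.K9h70.NC.LeafB

open MeasureTheory Set Metric

theorem abs_tx {τ x : ℝ} (hτ : |τ| ≤ 1 / 8) (hx : |x| ≤ 1) : |τ * x| ≤ 1 / 8 := by
  rw [abs_mul]
  nlinarith [abs_nonneg τ, abs_nonneg x]

theorem nn_eq (τ x t : ℝ) : nn τ x t = (t - τ * x) ^ 2 + τ ^ 2 * (1 - x ^ 2) := by
  unfold nn; ring

theorem sq_x {x : ℝ} (hx : |x| ≤ 1) : x ^ 2 ≤ 1 := by
  have := sq_abs x
  nlinarith [abs_nonneg x]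

theorem nn_lower {τ x t : ℝ} (hτ : |τ| ≤ 1 / 8) (hx : |x| ≤ 1) (ht : 1 / 2 ≤ t) :
    9 / 16 * t ^ 2 ≤ nn τ x t := by
  rw [nn_eq]
  have h1 := abs_le.1 (abs_tx hτ hx)
  have h2 := sq_x hx
  have h3 : 3 / 4 * t ≤ t - τ * x := by linarith [h1.2]
  have h4 : (3 / 4 * t) ^ 2 ≤ (t - τ * x) ^ 2 := pow_le_pow_left₀ (by linarith) h3 2
  have h5 : 0 ≤ τ ^ 2 * (1 - x ^ 2) := mul_nonneg (sq_nonneg _) (by linarith)
  nlinarith

theorem nn_pos {τ x t : ℝ} (hτ : |τ| ≤ 1 / 8) (hx : |x| ≤ 1) (ht : 1 / 2 ≤ t) :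
    0 < nn τ x t := lt_of_lt_of_le (by positivity) (nn_lower hτ hx ht)

theorem yy_eq {τ x t : ℝ} (hn : 0 < nn τ x t) : yy τ x t = 1 - t ^ 2 * (1 - x ^ 2) / nn τ x t := by
  unfold yy
  rw [eq_sub_iff_add_eq, ← add_div, div_eq_one_iff_eq hn.ne']
  unfold nn; ring

theorem yy_mem {τ x t : ℝ} (hτ : |τ| ≤ 1 / 8) (hx : |x| ≤ 1) (ht : 1 / 2 ≤ t) :
    yy τ x t ∈ Icc (0 : ℝ) 1 := by
  have hn := nn_pos hτ hx ht
  constructor
  · unfold yy; positivity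
  · rw [yy_eq hn]
    have h2 := sq_x hx
    have : 0 ≤ t ^ 2 * (1 - x ^ 2) / nn τ x t :=
      div_nonneg (mul_nonneg (sq_nonneg _) (by linarith)) hn.le
    linarith

theorem sqrt_upper {τ x t : ℝ} (hτ : |τ| ≤ 1 / 8) (hx : |x| ≤ 1) (ht : 1 / 2 ≤ t) :
    Real.sqrt (nn τ x t) ≤ 5 / 4 * (t - τ * x) := by
  have h1 := abs_le.1 (abs_tx hτ hx)
  have h2 := sq_x hx
  have h3 : 3 / 8 ≤ t - τ * x := by linarith [h1.2]
  apply Real.sqrt_le_iff.2
  refine ⟨by linarith, ?_⟩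
  rw [nn_eq]
  have h4 : τ ^ 2 ≤ 1 / 64 := by
    have := sq_abs τ
    nlinarith [abs_nonneg τ]
  have h5 : τ ^ 2 * (1 - x ^ 2) ≤ 1 / 64 := by nlinarith [sq_nonneg x, sq_nonneg τ]
  nlinarith

theorem sqrt_lower {τ x t : ℝ} (hτ : |τ| ≤ 1 / 8) (hx : |x| ≤ 1) (ht : 1 / 2 ≤ t) :
    3 / 4 * t ≤ Real.sqrt (nn τ x t) := by
  apply Real.le_sqrt_of_sq_le
  have := nn_lower hτ hx ht
  nlinarith

/-- LEAF B1 -/
theorem ee_mono (G : ℝ → ℝ) (L τ : ℝ) (hL : 0 ≤ L) (hL8 : L ≤ 1 / 8) (hτ : |τ| ≤ 1 / 8)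
    (hG : Adm L G) (x : ℝ) (hx : |x| ≤ 1) (t t' : ℝ) (ht : 1 / 2 ≤ t) (htt : t ≤ t') :
    (t' - t) / 2 ≤ ee G τ x t' - ee G τ x t := by
  have ht' : 1 / 2 ≤ t' := ht.trans htt
  have hn := nn_pos hτ hx ht
  have hn' := nn_pos hτ hx ht'
  have h0 : 0 ≤ t' - t := by linarith
  -- square root part
  have hm : 4 / 5 * (t' - t) ≤ Real.sqrt (nn τ x t') - Real.sqrt (nn τ x t) := by
    have e1 := Real.sq_sqrt hn.le
    have e2 := Real.sq_sqrt hn'.le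
    have u1 := sqrt_upper hτ hx ht
    have u2 := sqrt_upper hτ hx ht'
    have l1 := sqrt_lower hτ hx ht
    have l2 := sqrt_lower hτ hx ht'
    set m := Real.sqrt (nn τ x t)
    set m' := Real.sqrt (nn τ x t')
    have e3 : (m' - m) * (m' + m) = (t' - t) * (t' + t - 2 * τ * x) := by
      have : (m' - m) * (m' + m) = m' ^ 2 - m ^ 2 := by ring
      rw [this, e1, e2]; unfold nn; ring
    have e4 : 4 / 5 * (m' + m) ≤ t' + t - 2 * τ * x := by linarith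
    have e5 : 4 / 5 * (t' - t) * (m' + m) ≤ (m' - m) * (m' + m) := by
      rw [e3]
      calc 4 / 5 * (t' - t) * (m' + m) = (t' - t) * (4 / 5 * (m' + m)) := by ring
        _ ≤ _ := mul_le_mul_of_nonneg_left e4 h0
    exact le_of_mul_le_mul_right e5 (by linarith)
  -- profile part
  have hy : |yy τ x t' - yy τ x t| ≤ 12 / 5 * (t' - t) := by
    rw [yy_eq hn, yy_eq hn']
    have e1 : 1 - t' ^ 2 * (1 - x ^ 2) / nn τ x t' - (1 - t ^ 2 * (1 - x ^ 2) / nn τ x t) =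
        (t' - t) * ((1 - x ^ 2) * (2 * (τ * x) * (t * t') - τ ^ 2 * (t + t')) /
          (nn τ x t * nn τ x t')) := by
      field_simp
      unfold nn
      ring
    rw [e1, abs_mul, abs_of_nonneg h0, mul_comm (12 / 5 : ℝ)]
    refine mul_le_mul_of_nonneg_left ?_ h0
    have hnn : 0 < nn τ x t * nn τ x t' := mul_pos hn hn'
    rw [abs_div, abs_of_pos hnn, div_le_iff₀ hnn]
    have l1 := nn_lower hτ hx ht
    have l2 := nn_lower hτ hx ht'
    have l3 : (9 / 16 * t ^ 2) * (9 / 16 * t' ^ 2) ≤ nn τ x t * nn τ x t' :=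
      mul_le_mul l1 l2 (by positivity) hn.le
    have hx2 := sq_x hx
    have e2 : |(1 - x ^ 2) * (2 * (τ * x) * (t * t') - τ ^ 2 * (t + t'))| ≤
        (1 - x ^ 2) * (2 * (|τ| * |x|) * (t * t') + τ ^ 2 * (t + t')) := by
      rw [abs_mul, abs_of_nonneg (by linarith : (0 : ℝ) ≤ 1 - x ^ 2)]
      refine mul_le_mul_of_nonneg_left ?_ (by linarith)
      refine (abs_sub _ _).trans ?_
      rw [abs_mul, abs_mul, abs_mul τ x, abs_of_pos (by positivity : (0 : ℝ) < 2),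
        abs_of_pos (by positivity : 0 < t * t'), abs_of_nonneg (by positivity : 0 ≤ τ ^ 2 * (t + t'))]
    refine e2.trans (le_trans ?_ (mul_le_mul_of_nonneg_left l3 (by norm_num)))
    set a := |x| with ha
    have ha0 : 0 ≤ a := abs_nonneg x
    have hxa : x ^ 2 = a ^ 2 := (sq_abs x).symm
    rw [hxa] at hx2 ⊢
    have e3 : (1 - a ^ 2) * a ≤ 1 / 2 := by
      nlinarith [sq_nonneg (a - 1 / 2), sq_nonneg (a + 1), mul_nonneg ha0 (sq_nonneg (a - 1 / 2))]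
    have e4 : 0 ≤ (1 - a ^ 2) * a := mul_nonneg (by linarith) ha0
    have hτ0 := abs_nonneg τ
    have hτ2 : τ ^ 2 ≤ 1 / 64 := by
      have := sq_abs τ
      nlinarith
    have htt1 : 1 / 4 ≤ t * t' := by nlinarith
    -- (1 - a^2) (2 |τ| a T + τ² (t+t')) ≤ (1/8) T + (t + t')/64 ≤ ...
    have e5 : (1 - a ^ 2) * (2 * (|τ| * a) * (t * t')) ≤ 1 / 8 * (t * t') := by
      have : (1 - a ^ 2) * (2 * (|τ| * a) * (t * t')) = (2 * |τ| * ((1 - a ^ 2) * a)) * (t * t') := by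
        ring
      rw [this]
      refine mul_le_mul_of_nonneg_right ?_ (by positivity)
      nlinarith
    have e6 : (1 - a ^ 2) * (τ ^ 2 * (t + t')) ≤ 1 / 64 * (t + t') := by
      have h1 : (1 - a ^ 2) * τ ^ 2 ≤ 1 / 64 := by nlinarith [sq_nonneg a, sq_nonneg τ]
      calc (1 - a ^ 2) * (τ ^ 2 * (t + t')) = ((1 - a ^ 2) * τ ^ 2) * (t + t') := by ring
        _ ≤ _ := mul_le_mul_of_nonneg_right h1 (by linarith)
    have e7 : t + t' ≤ 4 * (t * t') := by nlinarith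
    have e8 : t * t' ≤ 4 * (t * t') ^ 2 := by nlinarith
    calc (1 - a ^ 2) * (2 * (|τ| * a) * (t * t') + τ ^ 2 * (t + t'))
        = (1 - a ^ 2) * (2 * (|τ| * a) * (t * t')) + (1 - a ^ 2) * (τ ^ 2 * (t + t')) := by ring
      _ ≤ 1 / 8 * (t * t') + 1 / 64 * (t + t') := add_le_add e5 e6
      _ ≤ 3 / 16 * (t * t') := by linarith
      _ ≤ 3 / 4 * (t * t') ^ 2 := by linarith
      _ ≤ 12 / 5 * (9 / 16 * t ^ 2 * (9 / 16 * t' ^ 2)) := by nlinarith [sq_nonneg (t * t')]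
  have hGl := hG.lip _ (yy_mem hτ hx ht') _ (yy_mem hτ hx ht)
  have hG2 : |G (yy τ x t') - G (yy τ x t)| ≤ 3 / 10 * (t' - t) := by
    calc _ ≤ L * |yy τ x t' - yy τ x t| := hGl
      _ ≤ 1 / 8 * (12 / 5 * (t' - t)) := mul_le_mul hL8 hy (abs_nonneg _) (by norm_num)
      _ = _ := by ring
  have h3 := (abs_le.1 hG2).2
  unfold ee
  linarith

/-- LEAF B2 -/
theorem ee_lipx (G : ℝ → ℝ) (L τ : ℝ) (hL : 0 ≤ L) (hL8 : L ≤ 1 / 8) (hτ : |τ| ≤ 1 / 8)
    (hG : Adm L G) (x x' : ℝ) (hx : |x| ≤ 1) (hx' : |x'| ≤ 1) (t : ℝ) (ht : 1 / 2 ≤ t) :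
    |ee G τ x t - ee G τ x' t| ≤ |x - x'| := by
  have hn := nn_pos hτ hx ht
  have hn' := nn_pos hτ hx' ht
  have t0 : 0 < t := by linarith
  have hd := abs_nonneg (x - x')
  have hτ0 := abs_nonneg τ
  have hm : |Real.sqrt (nn τ x t) - Real.sqrt (nn τ x' t)| ≤ 1 / 6 * |x - x'| := by
    have e1 := Real.sq_sqrt hn.le
    have e2 := Real.sq_sqrt hn'.le
    have l1 := sqrt_lower hτ hx ht
    have l2 := sqrt_lower hτ hx' ht
    set m := Real.sqrt (nn τ x t)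
    set m' := Real.sqrt (nn τ x' t)
    have hs : 0 < m + m' := by linarith
    have e3 : (m - m') * (m + m') = -(2 * τ * t * (x - x')) := by
      have : (m - m') * (m + m') = m ^ 2 - m' ^ 2 := by ring
      rw [this, e1, e2]; unfold nn; ring
    have e4 : |m - m'| * (m + m') = 2 * |τ| * t * |x - x'| := by
      have e6 : |m - m'| * (m + m') = |(m - m') * (m + m')| := by rw [abs_mul, abs_of_pos hs]
      rw [e6, e3, abs_neg, abs_mul, abs_mul, abs_mul,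
        abs_of_pos t0, abs_of_pos (by norm_num : (0 : ℝ) < 2)]
    have e5 : |m - m'| * (m + m') ≤ (1 / 6 * |x - x'|) * (m + m') := by
      rw [e4]
      calc 2 * |τ| * t * |x - x'| ≤ 2 * (1 / 8) * t * |x - x'| := by gcongr
        _ = (1 / 6 * |x - x'|) * (3 / 2 * t) := by ring
        _ ≤ _ := mul_le_mul_of_nonneg_left (by linarith) (by positivity)
    exact le_of_mul_le_mul_right e5 hs
  have hy : |yy τ x t - yy τ x' t| ≤ 6 * |x - x'| := by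
    rw [yy_eq hn, yy_eq hn']
    have e1 : 1 - t ^ 2 * (1 - x ^ 2) / nn τ x t - (1 - t ^ 2 * (1 - x' ^ 2) / nn τ x' t) =
        (x - x') * (t ^ 2 * (x + x') / nn τ x t -
          2 * τ * t ^ 3 * (1 - x' ^ 2) / (nn τ x t * nn τ x' t)) := by
      field_simp
      unfold nn
      ring
    rw [e1, abs_mul, mul_comm]
    refine mul_le_mul_of_nonneg_right ?_ hd
    refine (abs_sub _ _).trans ?_
    have l1 := nn_lower hτ hx ht
    have l2 := nn_lower hτ hx' ht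
    have f1 : |t ^ 2 * (x + x') / nn τ x t| ≤ 4 := by
      rw [abs_div, abs_of_pos hn, div_le_iff₀ hn, abs_mul, abs_of_pos (by positivity : 0 < t ^ 2)]
      have : |x + x'| ≤ 2 := (abs_add_le _ _).trans (by linarith)
      calc t ^ 2 * |x + x'| ≤ t ^ 2 * 2 := by gcongr
        _ ≤ 4 * nn τ x t := by nlinarith
    have f2 : |2 * τ * t ^ 3 * (1 - x' ^ 2) / (nn τ x t * nn τ x' t)| ≤ 2 := by
      have hnn : 0 < nn τ x t * nn τ x' t := mul_pos hn hn'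
      rw [abs_div, abs_of_pos hnn, div_le_iff₀ hnn]
      have l3 : (9 / 16 * t ^ 2) * (9 / 16 * t ^ 2) ≤ nn τ x t * nn τ x' t :=
        mul_le_mul l1 l2 (by positivity) hn.le
      refine le_trans ?_ (mul_le_mul_of_nonneg_left l3 (by norm_num))
      have hx2 := sq_x hx'
      rw [abs_mul, abs_mul, abs_mul, abs_of_pos (by positivity : 0 < t ^ 3),
        abs_of_nonneg (by linarith : (0 : ℝ) ≤ 1 - x' ^ 2), abs_of_pos (by norm_num : (0 : ℝ) < 2)]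
      calc 2 * |τ| * t ^ 3 * (1 - x' ^ 2) ≤ 2 * (1 / 8) * t ^ 3 * 1 := by
            gcongr
            linarith [sq_nonneg x']
        _ ≤ 2 * (9 / 16 * t ^ 2 * (9 / 16 * t ^ 2)) := by nlinarith [pow_pos t0 3]
    linarith
  have hGl := hG.lip _ (yy_mem hτ hx ht) _ (yy_mem hτ hx' ht)
  have hG2 : |G (yy τ x t) - G (yy τ x' t)| ≤ 3 / 4 * |x - x'| := by
    calc _ ≤ L * |yy τ x t - yy τ x' t| := hGl
      _ ≤ 1 / 8 * (6 * |x - x'|) := mul_le_mul hL8 hy (abs_nonneg _) (by norm_num)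
      _ = _ := by ring
  unfold ee
  have e : Real.sqrt (nn τ x t) - G (yy τ x t) - (Real.sqrt (nn τ x' t) - G (yy τ x' t)) =
      (Real.sqrt (nn τ x t) - Real.sqrt (nn τ x' t)) - (G (yy τ x t) - G (yy τ x' t)) := by ring
  rw [e]
  refine (abs_sub _ _).trans ?_
  linarith

end Pool.Agent.K9h70.NC.LeafB
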