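import Mathlib

set_option autoImplicit false

namespace Pool.Agent.K9h70.NC.LeafC

open Filter Topology

/-- choice of the parameters -/
theorem params (i d C : ℝ) (hi : 0 < i) (hid : i < d) (hd : 3 ≤ d) (hC : 0 < C) :
    ∃ L τ0 : ℝ, 0 < L ∧ L ≤ 1 / 16 ∧ 0 < τ0 ∧ τ0 ≤ 1 / 16 ∧ ∀ τ, |τ| ≤ τ0 →
      (i * (L / (d * (1 - L))) * (1 + C * (L / (d * (1 - L)))) + C * |τ|) ≤
        L * (1 - (L / (d * (1 - L))) - |τ|) ^ i := by
  have hd0 : 0 < d := by linarith
  -- choose `L`
  have hc : ContinuousAt (fun L : ℝ => (1 - L / (d * (1 - L))) ^ i -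
      i * (1 / (d * (1 - L))) * (1 + C * (L / (d * (1 - L))))) 0 := by
    have h1 : ContinuousAt (fun L : ℝ => 1 - L / (d * (1 - L))) 0 := by
      have : ContinuousAt (fun L : ℝ => L / (d * (1 - L))) 0 := by
        apply ContinuousAt.div (by fun_prop) (by fun_prop)
        simp; exact hd0.ne'
      exact continuousAt_const.sub this
    have h2 : ContinuousAt (fun L : ℝ => 1 / (d * (1 - L))) 0 := by
      apply ContinuousAt.div (by fun_prop) (by fun_prop)
      simp; exact hd0.ne'
    have h3 : ContinuousAt (fun L : ℝ => L / (d * (1 - L))) 0 := by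
      apply ContinuousAt.div (by fun_prop) (by fun_prop)
      simp; exact hd0.ne'
    have h4 : ContinuousAt (fun L : ℝ => (1 - L / (d * (1 - L))) ^ i) 0 :=
      h1.rpow_const (Or.inr hi.le)
    exact h4.sub ((continuousAt_const.mul h2).mul (continuousAt_const.add (continuousAt_const.mul h3)))
  have h0 : (0 : ℝ) < (1 - 0 / (d * (1 - 0))) ^ i -
      i * (1 / (d * (1 - 0))) * (1 + C * (0 / (d * (1 - 0)))) := by
    have : i * (1 / d) < 1 := by
      rw [mul_one_div, div_lt_one hd0]; exact hid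
    simpa using this
  have h1 := (continuousAt_const (y := (0 : ℝ))).eventually_lt hc h0
  obtain ⟨ε, hε, h2⟩ := Metric.eventually_nhds_iff.1 h1
  obtain ⟨L, hL⟩ : ∃ L, L = min (ε / 2) (1 / 16) := ⟨_, rfl⟩
  have hL0 : 0 < L := by rw [hL]; positivity
  have hL1 : L ≤ 1 / 16 := by rw [hL]; exact min_le_right _ _
  have hLε : L < ε := by
    have : L ≤ ε / 2 := by rw [hL]; exact min_le_left _ _
    linarith
  have h3 := h2 (y := L) (by rw [Real.dist_eq, sub_zero, abs_of_pos hL0]; exact hLε)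
  set L0 := L / (d * (1 - L)) with hL0d
  have h1L : 0 < 1 - L := by linarith
  have hL0p : 0 < L0 := by positivity
  have hL0s : L0 ≤ 1 / 16 := by
    rw [hL0d, div_le_iff₀ (by positivity)]
    nlinarith
  have h4 : i * L0 * (1 + C * L0) < L * (1 - L0) ^ i := by
    have : i * L0 * (1 + C * L0) = L * (i * (1 / (d * (1 - L))) * (1 + C * L0)) := by
      rw [hL0d]; ring
    rw [this]
    apply mul_lt_mul_of_pos_left _ hL0
    linarith
  -- choose `τ0`
  have hc2 : ContinuousAt (fun t : ℝ => L * (1 - L0 - t) ^ i - (i * L0 * (1 + C * L0) + C * t)) 0 := by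
    have h5 : ContinuousAt (fun t : ℝ => (1 - L0 - t) ^ i) 0 := by
      apply ContinuousAt.rpow_const (by fun_prop) (Or.inr hi.le)
    exact (continuousAt_const.mul h5).sub (by fun_prop)
  have h5 : (0 : ℝ) < L * (1 - L0 - 0) ^ i - (i * L0 * (1 + C * L0) + C * 0) := by
    simp; linarith
  have h6 := (continuousAt_const (y := (0 : ℝ))).eventually_lt hc2 h5
  obtain ⟨δ, hδ, h7⟩ := Metric.eventually_nhds_iff.1 h6
  refine ⟨L, min (δ / 2) (1 / 16), hL0, hL1, by positivity, min_le_right _ _, ?_⟩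
  intro τ hτ
  have h8 : |τ| < δ := by
    have := min_le_left (δ / 2) (1 / 16)
    linarith
  have h9 := h7 (y := |τ|) (by rw [Real.dist_eq, sub_zero, abs_abs]; exact h8)
  linarith

end Pool.Agent.K9h70.NC.LeafC
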