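import Pool.Agent.K9h70.NC.Geo

set_option autoImplicit false

namespace Pool.Agent.K9h70.NC.LeafG1

open MeasureTheory Set Metric

variable {n : ℕ}

theorem radial_starOf (g : (EuclideanSpace ℝ (Fin n)) → ℝ) (h0 : ∀ u ∈ sphere (0 : (EuclideanSpace ℝ (Fin n))) 1, 0 ≤ g u) (u : (EuclideanSpace ℝ (Fin n)))
    (hu : u ∈ sphere (0 : (EuclideanSpace ℝ (Fin n))) 1) : radial (starOf g) u = g u := by
  have hu1 : ‖u‖ = 1 := by simpa using hu
  have hu0 : u ≠ 0 := by rintro rfl; simp at hu1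
  have e : {c : ℝ | 0 ≤ c ∧ c • u ∈ starOf g} = Icc 0 (g u) := by
    ext c
    constructor
    · rintro ⟨hc, v, hv, c', hc', hcg, he⟩
      have hv1 : ‖v‖ = 1 := by simpa using hv
      have hn : c = c' := by
        have := congrArg norm he
        rw [norm_smul, norm_smul, hu1, hv1, mul_one, mul_one, Real.norm_eq_abs, Real.norm_eq_abs,
          abs_of_nonneg hc, abs_of_nonneg hc'] at this
        exact this
      subst hn
      refine ⟨hc, ?_⟩
      rcases hc.eq_or_lt with h | h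
      · rw [← h]; exact h0 u hu
      · have : u = v := smul_right_injective _ h.ne' he
        rw [this]; exact hcg
    · rintro ⟨hc, hcg⟩
      exact ⟨hc, u, hu, c, hc, hcg, rfl⟩
  unfold radial
  rw [e, csSup_Icc (h0 u hu)]

/-- LEAF G1 (star sets) -/
theorem starOf_spec (hn : 1 ≤ n) (g : EuclideanSpace ℝ (Fin n) → ℝ)
    (hg : ContinuousOn g (sphere 0 1)) (h0 : ∀ u ∈ sphere (0 : EuclideanSpace ℝ (Fin n)) 1, 0 ≤ g u) :
    IsStarBody (starOf g) ∧
      ∀ u ∈ sphere (0 : EuclideanSpace ℝ (Fin n)) 1, radial (starOf g) u = g u := by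
  have hr := radial_starOf g h0
  refine ⟨⟨?_, ?_, ?_, ?_⟩, hr⟩
  · -- compactness: image of `[0,1] × sphere`
    have he : starOf g = (fun p : ℝ × (EuclideanSpace ℝ (Fin n)) => (p.1 * g p.2) • p.2) '' (Icc (0 : ℝ) 1 ×ˢ sphere (0 : (EuclideanSpace ℝ (Fin n))) 1) := by
      ext x
      constructor
      · rintro ⟨u, hu, c, hc, hcg, rfl⟩
        rcases (h0 u hu).eq_or_lt with h | h
        · refine ⟨(0, u), ⟨⟨le_refl _, zero_le_one⟩, hu⟩, ?_⟩
          have : c = 0 := le_antisymm (by rw [h]; exact hcg) hc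
          simp [this]
        · refine ⟨(c / g u, u), ⟨⟨by positivity, (div_le_one h).2 hcg⟩, hu⟩, ?_⟩
          simp only
          rw [div_mul_cancel₀ _ h.ne']
      · rintro ⟨⟨s, u⟩, ⟨hs, hu⟩, rfl⟩
        refine ⟨u, hu, s * g u, mul_nonneg hs.1 (h0 u hu), ?_, rfl⟩
        exact mul_le_of_le_one_left (h0 u hu) hs.2
    rw [he]
    apply (isCompact_Icc.prod (isCompact_sphere _ _)).image_of_continuousOn
    have h1 : ContinuousOn (fun p : ℝ × (EuclideanSpace ℝ (Fin n)) => p.1 * g p.2) (Icc (0 : ℝ) 1 ×ˢ sphere (0 : (EuclideanSpace ℝ (Fin n))) 1) :=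
      continuous_fst.continuousOn.mul (hg.comp continuous_snd.continuousOn fun p hp => hp.2)
    exact h1.smul continuous_snd.continuousOn
  · have : Nonempty (Fin n) := ⟨⟨0, by omega⟩⟩
    have hu : (EuclideanSpace.single (⟨0, by omega⟩ : Fin n) (1 : ℝ)) ∈ sphere (0 : (EuclideanSpace ℝ (Fin n))) 1 := by simp
    exact ⟨_, hu, 0, le_refl _, h0 _ hu, by simp⟩
  · intro x hx a b ha hb hab
    obtain ⟨u, hu, c, hc, hcg, rfl⟩ := hx
    refine ⟨u, hu, b * c, by positivity, ?_, ?_⟩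
    · exact (mul_le_of_le_one_left hc (by linarith)).trans hcg
    · rw [smul_zero, zero_add, smul_smul]
  · exact hg.congr hr

end Pool.Agent.K9h70.NC.LeafG1
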