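import Pool.Agent.K9h70.NC.Trans
import Pool.Agent.K9h70.NC.Geo

set_option autoImplicit false

namespace Pool.Agent.K9h70.NC.LeafG2

open MeasureTheory Set Metric

variable {n : ℕ}

theorem mem_starOf (hn : 1 ≤ n) (g : (EuclideanSpace ℝ (Fin n)) → ℝ) (h0 : ∀ u ∈ sphere (0 : (EuclideanSpace ℝ (Fin n))) 1, 0 ≤ g u) (x : (EuclideanSpace ℝ (Fin n))) :
    x ∈ starOf g ↔ (x ≠ 0 → ‖x‖ ≤ g (‖x‖⁻¹ • x)) := by
  constructor
  · rintro ⟨u, hu, c, hc, hcg, rfl⟩ hx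
    have hu1 : ‖u‖ = 1 := by simpa using hu
    have hc0 : c ≠ 0 := by rintro rfl; simp at hx
    rw [norm_smul, hu1, mul_one, Real.norm_eq_abs, abs_of_nonneg hc, smul_smul,
      inv_mul_cancel₀ hc0, one_smul]
    exact hcg
  · intro h
    by_cases hx : x = 0
    · have hu : (EuclideanSpace.single (⟨0, by omega⟩ : Fin n) (1 : ℝ)) ∈ sphere (0 : (EuclideanSpace ℝ (Fin n))) 1 := by simp
      exact ⟨_, hu, 0, le_refl _, h0 _ hu, by simp [hx]⟩
    · have hx1 : 0 < ‖x‖ := norm_pos_iff.2 hx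
      refine ⟨‖x‖⁻¹ • x, ?_, ‖x‖, hx1.le, h hx, ?_⟩
      · rw [mem_sphere_zero_iff_norm, norm_smul, norm_inv, norm_norm, inv_mul_cancel₀ hx1.ne']
      · rw [smul_smul, mul_inv_cancel₀ hx1.ne', one_smul]

theorem inner_abs_le {u e : (EuclideanSpace ℝ (Fin n))} (hu : u ∈ sphere (0 : (EuclideanSpace ℝ (Fin n))) 1) (he : ‖e‖ = 1) :
    |(inner ℝ u e : ℝ)| ≤ 1 := by
  have hu1 : ‖u‖ = 1 := by simpa using hu
  have := abs_real_inner_le_norm u e
  rwa [hu1, he, one_mul] at this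

/-- LEAF G2 (translation) -/
theorem starOf_translate (hn : 1 ≤ n) (G : ℝ → ℝ) (L τ : ℝ) (hL : 0 ≤ L) (hL8 : L ≤ 1 / 8)
    (hτ0 : 0 < τ) (hτ : τ ≤ 1 / 8) (hG : Adm L G) (e : EuclideanSpace ℝ (Fin n)) (he : ‖e‖ = 1) :
    starOf (fun u => ff G τ (inner ℝ u e)) =
      (fun z => z + τ • e) '' starOf (fun u : (EuclideanSpace ℝ (Fin n)) => G (inner ℝ u e ^ 2)) := by
  have hτa : |τ| ≤ 1 / 8 := by rwa [abs_of_pos hτ0]
  have hf0 : ∀ u ∈ sphere (0 : (EuclideanSpace ℝ (Fin n))) 1, 0 ≤ ff G τ (inner ℝ u e) := by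
    intro u hu
    linarith [ff_ge hL hL8 hτa hG (inner_abs_le hu he)]
  have hGb : ∀ y ∈ Icc (0 : ℝ) 1, 7 / 8 ≤ G y := by
    intro y hy
    have := (abs_le.1 (G_bd' hL hG hy)).1
    linarith
  have hsq : ∀ u ∈ sphere (0 : (EuclideanSpace ℝ (Fin n))) 1, (inner ℝ u e : ℝ) ^ 2 ∈ Icc (0 : ℝ) 1 := by
    intro u hu
    exact ⟨sq_nonneg _, (sq_le_one_iff_abs_le_one _).2 (inner_abs_le hu he)⟩
  have hG0 : ∀ u ∈ sphere (0 : (EuclideanSpace ℝ (Fin n))) 1, 0 ≤ G ((inner ℝ u e : ℝ) ^ 2) := by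
    intro u hu
    linarith [hGb _ (hsq u hu)]
  have himg : ∀ (S : Set (EuclideanSpace ℝ (Fin n))) (z : (EuclideanSpace ℝ (Fin n))), z ∈ (fun z => z + τ • e) '' S ↔ z - τ • e ∈ S := by
    intro S z
    constructor
    · rintro ⟨w, hw, rfl⟩
      simpa using hw
    · intro h
      exact ⟨_, h, by simp⟩
  ext z
  rw [himg, mem_starOf hn _ hf0, mem_starOf hn _ hG0]
  set w := z - τ • e with hw
  have hee : (inner ℝ e e : ℝ) = 1 := by rw [real_inner_self_eq_norm_sq, he, one_pow]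
  have hwe : (inner ℝ w e : ℝ) = inner ℝ z e - τ := by
    rw [hw, inner_sub_left, inner_smul_left, hee]; simp
  have hwn : ‖w‖ ^ 2 = ‖z‖ ^ 2 - 2 * τ * inner ℝ z e + τ ^ 2 := by
    rw [hw, norm_sub_sq_real, inner_smul_right, norm_smul, he, Real.norm_eq_abs, abs_of_pos hτ0]
    ring
  by_cases hz : z = 0
  · have hwz : w = -(τ • e) := by rw [hw, hz, zero_sub]
    have hwn' : ‖w‖ = τ := by
      rw [hwz, norm_neg, norm_smul, he, Real.norm_eq_abs, abs_of_pos hτ0, mul_one]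
    have h1 : ‖w‖⁻¹ • w ∈ sphere (0 : (EuclideanSpace ℝ (Fin n))) 1 := by
      rw [mem_sphere_zero_iff_norm, norm_smul, norm_inv, norm_norm, hwn', inv_mul_cancel₀ hτ0.ne']
    constructor
    · intro _ _
      have := hGb _ (hsq _ h1)
      rw [hwn']
      rw [hwn'] at this
      linarith
    · intro _ h; exact absurd hz h
  · have ht0 : 0 < ‖z‖ := norm_pos_iff.2 hz
    have hzs : ‖z‖⁻¹ • z ∈ sphere (0 : (EuclideanSpace ℝ (Fin n))) 1 := by
      rw [mem_sphere_zero_iff_norm, norm_smul, norm_inv, norm_norm, inv_mul_cancel₀ ht0.ne']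
    obtain ⟨x, hx⟩ : ∃ x, x = (inner ℝ (‖z‖⁻¹ • z) e : ℝ) := ⟨_, rfl⟩
    have hxa : |x| ≤ 1 := by rw [hx]; exact inner_abs_le hzs he
    have hxz : (inner ℝ z e : ℝ) = ‖z‖ * x := by
      rw [hx, inner_smul_left]
      simp
      field_simp
    have hnn : ‖w‖ ^ 2 = nn τ x ‖z‖ := by
      rw [hwn, hxz]; unfold nn; ring
    have hsn : Real.sqrt (nn τ x ‖z‖) = ‖w‖ := by
      rw [← hnn, Real.sqrt_sq (norm_nonneg _)]
    have key := ff_iff hL hL8 hτa hG hxa ht0.le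
    rw [← hx]
    by_cases hw0 : w = 0
    · constructor
      · intro _ h; exact absurd hw0 h
      · intro _ _
        apply key.1
        rw [hsn, hw0, norm_zero]
        linarith [hGb _ (yy_mem (τ := τ) (t := ‖z‖) hxa)]
    · have hwp : 0 < ‖w‖ := norm_pos_iff.2 hw0
      have hy : (inner ℝ (‖w‖⁻¹ • w) e : ℝ) ^ 2 = yy τ x ‖z‖ := by
        rw [inner_smul_left]
        unfold yy
        rw [← hnn, hwe, hxz]
        simp
        field_simp
      rw [hy, ← hsn]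
      constructor
      · intro h _; exact key.2 (h hz)
      · intro h _; exact key.1 (h hw0)

end Pool.Agent.K9h70.NC.LeafG2
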