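import Pool.Agent.K7.H98.GMC.Arch

/-!
Leaf H: the marginal of the uniform measure on the unit sphere of a hyperplane (helper56).
-/

set_option autoImplicit false
set_option linter.all false

namespace Pool.Agent.K9h70.NC.LeafH

open MeasureTheory Set Metric
open scoped RealInnerProductSpace ENNReal Pointwise

section iso
variable {V W : Type*} [NormedAddCommGroup V] [InnerProductSpace ℝ V] [FiniteDimensional ℝ V]
  [MeasurableSpace V] [BorelSpace V] [NormedAddCommGroup W] [InnerProductSpace ℝ W]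
  [FiniteDimensional ℝ W] [MeasurableSpace W] [BorelSpace W]

/-- the map of the unit spheres -/
def rot (L : V ≃ₗᵢ[ℝ] W) (x : sphere (0 : V) 1) : sphere (0 : W) 1 :=
  ⟨L (x : V), by
    rw [mem_sphere_zero_iff_norm, LinearIsometryEquiv.norm_map]
    exact mem_sphere_zero_iff_norm.1 x.2⟩

theorem continuous_rot (L : V ≃ₗᵢ[ℝ] W) : Continuous (rot L) := by
  unfold rot
  exact Continuous.subtype_mk (L.continuous.comp continuous_subtype_val) _

theorem smul_image_preimage (L : V ≃ₗᵢ[ℝ] W) (s : Set (sphere (0 : W) 1)) :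
    (Ioo (0 : ℝ) 1 • ((↑) '' (rot L ⁻¹' s) : Set V)) =
      L ⁻¹' (Ioo (0 : ℝ) 1 • ((↑) '' s : Set W)) := by
  ext v
  simp only [Set.mem_smul, Set.mem_image, Set.mem_preimage]
  constructor
  · rintro ⟨t, ht, w, ⟨x, hx, rfl⟩, rfl⟩
    exact ⟨t, ht, L (x : V), ⟨rot L x, hx, rfl⟩, by simp⟩
  · rintro ⟨t, ht, w, ⟨x, hx, rfl⟩, hv⟩
    have hxn : ‖(x : W)‖ = 1 := by simpa using x.2
    refine ⟨t, ht, L.symm (x : W), ⟨⟨L.symm (x : W), by simp [hxn]⟩, ?_, rfl⟩, ?_⟩
    · have : rot L ⟨L.symm (x : W), by simp [hxn]⟩ = x := by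
        apply Subtype.ext
        simp [rot]
      rw [this]
      exact hx
    · apply L.injective
      rw [← hv]
      simp

theorem map_toSphere (L : V ≃ₗᵢ[ℝ] W) :
    Measure.map (rot L) (volume : Measure V).toSphere = (volume : Measure W).toSphere := by
  ext s hs
  rw [Measure.map_apply (continuous_rot L).measurable hs]
  rw [Measure.toSphere_apply' _ hs,
    Measure.toSphere_apply' _ ((continuous_rot L).measurable hs), smul_image_preimage]
  have hdim : Module.finrank ℝ V = Module.finrank ℝ W := L.toLinearEquiv.finrank_eq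
  rw [hdim]
  congr 1
  exact (L.measurePreserving).measure_preimage_equiv (f := L.toMeasurableEquiv) _

/-- transport of integrals over the spheres -/
theorem integral_rot (L : V ≃ₗᵢ[ℝ] W) (f : W → ℝ) (hf : Continuous f) :
    ∫ v, f (L (v : V)) ∂(volume : Measure V).toSphere =
      ∫ w, f (w : W) ∂(volume : Measure W).toSphere := by
  rw [← map_toSphere L, integral_map (continuous_rot L).measurable.aemeasurable]
  · rfl
  · exact (hf.comp continuous_subtype_val).aestronglyMeasurable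

/-- only the norm of the direction matters -/
theorem integral_dir (F : ℝ → ℝ) (hF : Continuous F) {a a' : W} (h : ‖a‖ = ‖a'‖) :
    ∫ w, F ⟪(w : W), a⟫ ∂(volume : Measure W).toSphere =
      ∫ w, F ⟪(w : W), a'⟫ ∂(volume : Measure W).toSphere := by
  set R : W ≃ₗᵢ[ℝ] W := Submodule.reflection (ℝ ∙ (a - a'))ᗮ with hR
  have hRa : R a = a' := Submodule.reflection_sub h
  have h1 := integral_rot R (fun w => F ⟪w, a'⟫) (by fun_prop)
  rw [← h1]
  apply integral_congr_ae
  refine Filter.Eventually.of_forall (fun w => ?_)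
  simp only
  rw [← hRa, LinearIsometryEquiv.inner_map_map]

end iso

open Pool.Agent.K7.H95.GMC in
/-- Archimedes -/
theorem arch_map (y : S2) : Measure.map (fun x : S2 => ⟪(y : R3), (x : R3)⟫)
    (volume : Measure R3).toSphere = ENNReal.ofReal (2 * Real.pi) • volume.restrict (Ioo (-1 : ℝ) 1) := by
  have hm : Measurable (fun x : S2 => ⟪(y : R3), (x : R3)⟫) := by fun_prop
  ext s hs
  have h1 := Pool.Agent.K7.H98.GMC.Arch.sphere_height y (s.indicator 1) (measurable_one.indicator hs)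
  rw [lintegral_indicator_one hs] at h1
  rw [Measure.map_apply hm hs, Measure.smul_apply, smul_eq_mul, ← h1]
  rw [← lintegral_indicator_one (hm hs)]
  rfl

open Pool.Agent.K7.H95.GMC in
theorem arch_int (a : R3) (F : ℝ → ℝ) (hF : Continuous F) :
    ∫ x : S2, F ⟪a, (x : R3)⟫ ∂(volume : Measure R3).toSphere =
      4 * Real.pi * ∫ t in (0 : ℝ)..1, (F (‖a‖ * t) + F (-(‖a‖ * t))) / 2 := by
  have key : ∀ y : S2, ∀ r : ℝ, ∫ x : S2, F (r * ⟪(y : R3), (x : R3)⟫) ∂(volume : Measure R3).toSphere =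
      4 * Real.pi * ∫ t in (0 : ℝ)..1, (F (r * t) + F (-(r * t))) / 2 := by
    intro y r
    have hm : Measurable (fun x : S2 => ⟪(y : R3), (x : R3)⟫) := by fun_prop
    have h1 : ∫ x : S2, F (r * ⟪(y : R3), (x : R3)⟫) ∂(volume : Measure R3).toSphere =
        ∫ t, F (r * t) ∂(Measure.map (fun x : S2 => ⟪(y : R3), (x : R3)⟫) (volume : Measure R3).toSphere) := by
      rw [integral_map hm.aemeasurable]
      exact (by fun_prop : Continuous fun t => F (r * t)).aestronglyMeasurable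
    rw [h1, arch_map, integral_smul_measure, ← integral_Ioc_eq_integral_Ioo,
      ← intervalIntegral.integral_of_le (by norm_num)]
    have hc : Continuous fun t => F (r * t) := by fun_prop
    have h2 : ∫ t in (-1 : ℝ)..1, F (r * t) = (∫ t in (-1 : ℝ)..0, F (r * t)) + ∫ t in (0 : ℝ)..1, F (r * t) :=
      (intervalIntegral.integral_add_adjacent_intervals (hc.intervalIntegrable _ _)
        (hc.intervalIntegrable _ _)).symm
    have h3 : ∫ t in (-1 : ℝ)..0, F (r * t) = ∫ t in (0 : ℝ)..1, F (-(r * t)) := by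
      have := intervalIntegral.integral_comp_neg (a := (0 : ℝ)) (b := 1) (fun t => F (r * t))
      rw [neg_zero] at this
      rw [← this]
      simp
    have h4 : ∫ t in (0 : ℝ)..1, (F (r * t) + F (-(r * t))) / 2 =
        ((∫ t in (0 : ℝ)..1, F (r * t)) + ∫ t in (0 : ℝ)..1, F (-(r * t))) / 2 := by
      rw [intervalIntegral.integral_div, intervalIntegral.integral_add]
      · exact (hc.intervalIntegrable _ _)
      · exact (by fun_prop : Continuous fun t => F (-(r * t))).intervalIntegrable _ _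
    rw [h2, h3, h4, ENNReal.toReal_ofReal (by positivity), smul_eq_mul]
    ring
  by_cases ha : a = 0
  · subst ha
    have := key ⟨EuclideanSpace.single 0 1, by simp⟩ 0
    simpa using this
  · have hn : ‖a‖ ≠ 0 := norm_ne_zero_iff.2 ha
    have := key ⟨‖a‖⁻¹ • a, by
      rw [mem_sphere_zero_iff_norm, norm_smul, norm_inv, norm_norm, inv_mul_cancel₀ hn]⟩ ‖a‖
    rw [← this]
    apply integral_congr_ae
    refine Filter.Eventually.of_forall (fun x => ?_)
    simp only
    rw [real_inner_smul_left, ← mul_assoc, mul_inv_cancel₀ hn, one_mul]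

/-- the space `ℝ ^ (3 + k)` -/
abbrev Wk (k : ℕ) : Type := EuclideanSpace ℝ (Fin (3 + k))

/-- the first three coordinates -/
noncomputable def P3 (k : ℕ) (w : Wk k) : EuclideanSpace ℝ (Fin 3) :=
  WithLp.toLp 2 (fun i => w (Fin.castAdd k i))

/-- the inclusion of the first three coordinates -/
noncomputable def J3 (k : ℕ) (b : EuclideanSpace ℝ (Fin 3)) : Wk k :=
  WithLp.toLp 2 (Fin.append (fun i => b i) (fun _ => 0))

theorem inner_J3 (k : ℕ) (w : Wk k) (b : EuclideanSpace ℝ (Fin 3)) : ⟪w, J3 k b⟫ = ⟪P3 k w, b⟫ := by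
  rw [PiLp.inner_apply, PiLp.inner_apply, Fin.sum_univ_add]
  simp [J3, P3]

theorem norm_J3 (k : ℕ) (b : EuclideanSpace ℝ (Fin 3)) : ‖J3 k b‖ = ‖b‖ := by
  rw [EuclideanSpace.norm_eq, EuclideanSpace.norm_eq, Fin.sum_univ_add]
  simp [J3]

theorem continuous_P3 (k : ℕ) : Continuous (P3 k) := by
  unfold P3
  fun_prop

theorem norm_P3_sq (k : ℕ) (w : Wk k) : ‖P3 k w‖ ^ 2 = ∑ i : Fin 3, (w (Fin.castAdd k i)) ^ 2 := by
  rw [EuclideanSpace.norm_sq_eq]
  simp [P3]

theorem norm_P3_le (k : ℕ) (w : Wk k) : ‖P3 k w‖ ^ 2 ≤ ‖w‖ ^ 2 := by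
  rw [norm_P3_sq, EuclideanSpace.norm_sq_eq, Fin.sum_univ_add]
  simp only [Real.norm_eq_abs, sq_abs]
  have : 0 ≤ ∑ i : Fin k, (w (Fin.natAdd 3 i)) ^ 2 := Finset.sum_nonneg (fun i _ => sq_nonneg _)
  linarith

/-- the surface measure -/
noncomputable abbrev sg (k : ℕ) : Measure (sphere (0 : Wk k) 1) := (volume : Measure (Wk k)).toSphere

/-- the averaged function -/
noncomputable def Ph (F : ℝ → ℝ) (s : ℝ) : ℝ := ∫ t in (0 : ℝ)..1, (F (s * t) + F (-(s * t))) / 2

theorem continuous_Ph (F : ℝ → ℝ) (hF : Continuous F) : Continuous (Ph F) := by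
  unfold Ph
  apply intervalIntegral.continuous_parametric_intervalIntegral_of_continuous'
  fun_prop

theorem key_id (k : ℕ) (F : ℝ → ℝ) (hF : Continuous F) (a : Wk k) :
    ∫ w, F ⟪(w : Wk k), a⟫ ∂sg k = ∫ w, Ph F (‖a‖ * ‖P3 k (w : Wk k)‖) ∂sg k := by
  set σ2 : Measure (sphere (0 : EuclideanSpace ℝ (Fin 3)) 1) :=
    (volume : Measure (EuclideanSpace ℝ (Fin 3))).toSphere with hσ2
  have h4 : (σ2 univ).toReal = 4 * Real.pi := by
    have := Pool.Agent.K7.H98.GMC.Arch.toSphere_univ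
    rw [hσ2]
    rw [this, ENNReal.toReal_ofReal (by positivity)]
  have h1 : ∀ b : sphere (0 : EuclideanSpace ℝ (Fin 3)) 1, ∫ w, F ⟪(w : Wk k), a⟫ ∂sg k =
      ∫ w, F (‖a‖ * ⟪P3 k (w : Wk k), (b : EuclideanSpace ℝ (Fin 3))⟫) ∂sg k := by
    intro b
    have hb : ‖(b : EuclideanSpace ℝ (Fin 3))‖ = 1 := mem_sphere_zero_iff_norm.1 b.2
    rw [integral_dir F hF (a' := ‖a‖ • J3 k b) (by rw [norm_smul, norm_J3, hb, norm_norm, mul_one])]
    apply integral_congr_ae
    refine Filter.Eventually.of_forall (fun w => ?_)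
    simp only
    rw [real_inner_smul_right, inner_J3]
  have h2 : ∫ b, (∫ w, F (‖a‖ * ⟪P3 k (w : Wk k), (b : EuclideanSpace ℝ (Fin 3))⟫) ∂sg k) ∂σ2 =
      ∫ w, (∫ b, F (‖a‖ * ⟪P3 k (w : Wk k), (b : EuclideanSpace ℝ (Fin 3))⟫) ∂σ2) ∂sg k := by
    apply integral_integral_swap
    have hP := continuous_P3 k
    have hc : Continuous (fun p : (sphere (0 : EuclideanSpace ℝ (Fin 3)) 1) × (sphere (0 : Wk k) 1) =>
        F (‖a‖ * ⟪P3 k (p.2 : Wk k), (p.1 : EuclideanSpace ℝ (Fin 3))⟫)) := by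
      apply hF.comp
      apply continuous_const.mul
      exact (hP.comp (continuous_subtype_val.comp continuous_snd)).inner
        (continuous_subtype_val.comp continuous_fst)
    exact hc.integrable_of_hasCompactSupport (HasCompactSupport.of_compactSpace _)
  have h3 : ∀ w : sphere (0 : Wk k) 1,
      ∫ b, F (‖a‖ * ⟪P3 k (w : Wk k), (b : EuclideanSpace ℝ (Fin 3))⟫) ∂σ2 =
        4 * Real.pi * Ph F (‖a‖ * ‖P3 k (w : Wk k)‖) := by
    intro w
    have := arch_int (‖a‖ • P3 k (w : Wk k)) F hF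
    rw [norm_smul, norm_norm] at this
    unfold Ph
    rw [← this]
    apply integral_congr_ae
    refine Filter.Eventually.of_forall (fun b => ?_)
    simp only
    rw [real_inner_smul_left]
  have h5 : ∫ b : sphere (0 : EuclideanSpace ℝ (Fin 3)) 1, (∫ w, F ⟪(w : Wk k), a⟫ ∂sg k) ∂σ2 =
      4 * Real.pi * ∫ w, F ⟪(w : Wk k), a⟫ ∂sg k := by
    rw [integral_const, smul_eq_mul, measureReal_def, h4]
  have h6 : 4 * Real.pi * ∫ w, F ⟪(w : Wk k), a⟫ ∂sg k =
      4 * Real.pi * ∫ w, Ph F (‖a‖ * ‖P3 k (w : Wk k)‖) ∂sg k := by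
    rw [← h5, ← integral_const_mul, ← integral_congr_ae (Filter.Eventually.of_forall h3), ← h2]
    exact integral_congr_ae (Filter.Eventually.of_forall h1)
  have hpi : (4 * Real.pi) ≠ 0 := by positivity
  exact mul_left_cancel₀ hpi h6

theorem sg_pos (k : ℕ) : 0 < (sg k univ).toReal := by
  apply ENNReal.toReal_pos
  · rw [Measure.toSphere_apply_univ]
    apply mul_ne_zero
    · simp
    · exact (measure_ball_pos volume (0 : Wk k) one_pos).ne'
  · exact measure_ne_top _ _

/-- the second moments -/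
theorem moment (k : ℕ) : ∫ w, ‖P3 k (w : Wk k)‖ ^ 2 ∂sg k = 3 / (3 + k : ℝ) * (sg k univ).toReal := by
  have hint : ∀ i : Fin (3 + k), Integrable (fun w : sphere (0 : Wk k) 1 => ((w : Wk k) i) ^ 2) (sg k) := by
    intro i
    have hc : Continuous (fun w : sphere (0 : Wk k) 1 => ((w : Wk k) i) ^ 2) := by fun_prop
    exact hc.integrable_of_hasCompactSupport (HasCompactSupport.of_compactSpace _)
  have hin : ∀ (w : Wk k) (i : Fin (3 + k)), ⟪w, EuclideanSpace.single i (1 : ℝ)⟫ = w i := by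
    intro w i
    rw [EuclideanSpace.inner_single_right]
    simp
  have heq : ∀ i j : Fin (3 + k), ∫ w, ((w : Wk k) i) ^ 2 ∂sg k = ∫ w, ((w : Wk k) j) ^ 2 ∂sg k := by
    intro i j
    have := integral_dir (W := Wk k) (fun x => x ^ 2) (by fun_prop)
      (a := EuclideanSpace.single i (1 : ℝ)) (a' := EuclideanSpace.single j (1 : ℝ)) (by simp)
    simp only [hin] at this
    exact this
  set c := ∫ w, ((w : Wk k) (Fin.castAdd k 0)) ^ 2 ∂sg k with hc
  have hsum : ∑ i : Fin (3 + k), ∫ w, ((w : Wk k) i) ^ 2 ∂sg k = (sg k univ).toReal := by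
    rw [← integral_finset_sum _ (fun i _ => hint i)]
    have : ∀ w : sphere (0 : Wk k) 1, ∑ i : Fin (3 + k), ((w : Wk k) i) ^ 2 = 1 := by
      intro w
      have h1 : ‖(w : Wk k)‖ = 1 := mem_sphere_zero_iff_norm.1 w.2
      have h2 := EuclideanSpace.norm_sq_eq (w : Wk k)
      rw [h1] at h2
      simp only [Real.norm_eq_abs, sq_abs] at h2
      linarith
    simp only [this]
    rw [integral_const, smul_eq_mul, mul_one, measureReal_def]
  have hall : ∀ i : Fin (3 + k), ∫ w, ((w : Wk k) i) ^ 2 ∂sg k = c := fun i => heq i _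
  simp only [hall, Finset.sum_const, Finset.card_univ, Fintype.card_fin, nsmul_eq_mul] at hsum
  have h3 : ∫ w, ‖P3 k (w : Wk k)‖ ^ 2 ∂sg k = 3 * c := by
    simp only [norm_P3_sq]
    rw [integral_finset_sum Finset.univ (fun i _ => hint (Fin.castAdd k i))]
    simp only [hall, Finset.sum_const, Finset.card_univ, Fintype.card_fin, nsmul_eq_mul]
    norm_num
  rw [h3, ← hsum]
  push_cast
  have : (3 + (k : ℝ)) ≠ 0 := by positivity
  field_simp

/-- LEAF H (sphere formula) -/
theorem sphere_formula (n : ℕ) (hn : 4 ≤ n) : ∃ (κ : Measure ℝ) (ω : ℝ), IsProbabilityMeasure κ ∧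
    0 < ω ∧ κ (Icc 0 1)ᶜ = 0 ∧ ∫ w, w ∂κ = 3 / ((n : ℝ) - 1) ∧
    ∀ (u e : EuclideanSpace ℝ (Fin n)), ‖u‖ = 1 → ‖e‖ = 1 → ∀ F : ℝ → ℝ, Continuous F →
      ∫ v, F (inner ℝ ((v : (Submodule.span ℝ {u})ᗮ) : EuclideanSpace ℝ (Fin n)) e)
        ∂((volume : Measure (Submodule.span ℝ {u})ᗮ).toSphere) =
      ω * ∫ w, (∫ t in (0 : ℝ)..1, (F (Real.sqrt ((1 - inner ℝ u e ^ 2) * w) * t) +
        F (-(Real.sqrt ((1 - inner ℝ u e ^ 2) * w) * t))) / 2) ∂κ := by
  obtain ⟨k, rfl⟩ : ∃ k, n = (3 + k) + 1 := ⟨n - 4, by omega⟩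
  set ω : ℝ := (sg k univ).toReal with hω
  have hωp : 0 < ω := sg_pos k
  have hc2 : Continuous (fun w : sphere (0 : Wk k) 1 => ‖P3 k (w : Wk k)‖ ^ 2) :=
    ((continuous_P3 k).comp continuous_subtype_val).norm.pow 2
  set κ₀ : Measure ℝ := Measure.map (fun w : sphere (0 : Wk k) 1 => ‖P3 k (w : Wk k)‖ ^ 2) (sg k) with hκ₀
  set κ : Measure ℝ := ENNReal.ofReal ω⁻¹ • κ₀ with hκ
  have hint : ∀ g : ℝ → ℝ, Continuous g → ∫ x, g x ∂κ = ω⁻¹ * ∫ w, g (‖P3 k (w : Wk k)‖ ^ 2) ∂sg k := by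
    intro g hg
    rw [hκ, integral_smul_measure, ENNReal.toReal_ofReal (by positivity), smul_eq_mul, hκ₀,
      integral_map hc2.measurable.aemeasurable hg.aestronglyMeasurable]
  refine ⟨κ, ω, ⟨?_⟩, hωp, ?_, ?_, ?_⟩
  · rw [hκ, Measure.smul_apply, hκ₀, Measure.map_apply hc2.measurable MeasurableSet.univ, preimage_univ,
      smul_eq_mul]
    have h1 : sg k univ = ENNReal.ofReal ω := by
      rw [hω, ENNReal.ofReal_toReal (measure_ne_top _ _)]
    rw [h1, ← ENNReal.ofReal_mul (by positivity), inv_mul_cancel₀ hωp.ne', ENNReal.ofReal_one]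
  · rw [hκ, Measure.smul_apply, hκ₀, Measure.map_apply hc2.measurable measurableSet_Icc.compl, smul_eq_mul]
    have : (fun w : sphere (0 : Wk k) 1 => ‖P3 k (w : Wk k)‖ ^ 2) ⁻¹' (Icc 0 1)ᶜ = ∅ := by
      ext w
      simp only [mem_preimage, mem_compl_iff, mem_Icc, mem_empty_iff_false, iff_false, not_not]
      refine ⟨by positivity, ?_⟩
      have h1 : ‖(w : Wk k)‖ = 1 := mem_sphere_zero_iff_norm.1 w.2
      have := norm_P3_le k (w : Wk k)
      rw [h1] at this
      simpa using this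
    rw [this, measure_empty, mul_zero]
  · rw [hint (fun x => x) continuous_id, moment k, ← hω]
    push_cast
    have : (3 + (k : ℝ)) ≠ 0 := by positivity
    have h2 : (3 + (k : ℝ) + 1 - 1) = 3 + k := by ring
    rw [h2]
    field_simp
  · intro u e hu he F hF
    haveI : Fact (Module.finrank ℝ (EuclideanSpace ℝ (Fin ((3 + k) + 1))) = (3 + k) + 1) :=
      ⟨by simp⟩
    have hu0 : u ≠ 0 := by
      rintro rfl
      simp at hu
    set L : (Submodule.span ℝ {u})ᗮ ≃ₗᵢ[ℝ] Wk k :=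
      (OrthonormalBasis.fromOrthogonalSpanSingleton (3 + k) hu0).repr with hL
    set a : (Submodule.span ℝ {u})ᗮ := (Submodule.span ℝ {u})ᗮ.orthogonalProjectionOnto e with ha
    have hinner : ∀ v : (Submodule.span ℝ {u})ᗮ, inner ℝ (v : EuclideanSpace ℝ (Fin ((3 + k) + 1))) e =
        ⟪L v, L a⟫ := by
      intro v
      rw [LinearIsometryEquiv.inner_map_map, ha]
      rw [Submodule.coe_inner]
      exact (Submodule.inner_orthogonalProjection_eq_of_mem_left v e).symm
    have hnorm : ‖a‖ ^ 2 = 1 - inner ℝ u e ^ 2 := by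
      have h3 := Submodule.norm_sq_eq_add_norm_sq_projection e (Submodule.span ℝ {u})
      have h4 : ‖(Submodule.span ℝ {u}).orthogonalProjectionOnto e‖ ^ 2 = inner ℝ u e ^ 2 := by
        have h5 : ((Submodule.span ℝ {u}).orthogonalProjectionOnto e : EuclideanSpace ℝ (Fin ((3 + k) + 1))) =
            inner ℝ u e • u := Submodule.starProjection_unit_singleton ℝ hu e
        rw [← Submodule.norm_coe, h5, norm_smul, hu, mul_one, Real.norm_eq_abs, sq_abs]
      rw [he, h4] at h3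
      rw [ha]
      linarith
    have h1 : ∫ v, F (inner ℝ ((v : (Submodule.span ℝ {u})ᗮ) : EuclideanSpace ℝ (Fin ((3 + k) + 1))) e)
        ∂((volume : Measure (Submodule.span ℝ {u})ᗮ).toSphere) =
        ∫ w, F ⟪(w : Wk k), L a⟫ ∂sg k := by
      rw [← integral_rot L (fun w => F ⟪w, L a⟫) (by fun_prop)]
      apply integral_congr_ae
      refine Filter.Eventually.of_forall (fun v => ?_)
      simp only
      rw [hinner]
    rw [h1, key_id k F hF]
    have hPh : Continuous (fun x : ℝ => ∫ t in (0 : ℝ)..1, (F (Real.sqrt ((1 - inner ℝ u e ^ 2) * x) * t) +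
        F (-(Real.sqrt ((1 - inner ℝ u e ^ 2) * x) * t))) / 2) := by
      have : Continuous (fun x : ℝ => Real.sqrt ((1 - inner ℝ u e ^ 2) * x)) := by fun_prop
      exact (continuous_Ph F hF).comp this
    rw [hint _ hPh, ← mul_assoc, mul_inv_cancel₀ hωp.ne', one_mul]
    apply integral_congr_ae
    refine Filter.Eventually.of_forall (fun w => ?_)
    simp only
    unfold Ph
    have h2 : Real.sqrt ((1 - inner ℝ u e ^ 2) * ‖P3 k (w : Wk k)‖ ^ 2) = ‖L a‖ * ‖P3 k (w : Wk k)‖ := by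
      rw [← hnorm, LinearIsometryEquiv.norm_map, ← mul_pow, Real.sqrt_sq (by positivity)]
    rw [h2]

end Pool.Agent.K9h70.NC.LeafH
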