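import Pool.Agent.K9h70.NC.BDefs

set_option autoImplicit false

namespace Pool.Agent.K9h70.NC.LeafK1

open MeasureTheory Set Metric

/-- LEAF K1: the derivative of `LL κ d Φ` -/
theorem LL_deriv (κ : Measure ℝ) [IsProbabilityMeasure κ] (hκ : κ (Icc 0 1)ᶜ = 0) (d : ℝ)
    (Φ γ : ℝ → ℝ) (L : ℝ) (hγ : Continuous γ) (hΦ : ∀ z, HasDerivAt Φ (γ z) z)
    (hb : ∀ z, |γ z| ≤ L) (s : ℝ) :
    HasDerivAt (LL κ d Φ) (-(KO κ d γ s)) s ∧ Continuous (KO κ d γ) := by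
  have hΦc : Continuous Φ := continuous_iff_continuousAt.2 fun z => (hΦ z).continuousAt
  let ν : Measure ℝ := volume.restrict (Ioc (0 : ℝ) 1)
  have hνfin : IsFiniteMeasure ν := ⟨by simp [ν]⟩
  let μ : Measure (ℝ × ℝ) := κ.prod ν
  have h1 : ∀ᵐ w ∂κ, w ∈ Icc (0 : ℝ) 1 := by
    rw [ae_iff]; exact hκ
  have h2 : ∀ᵐ t ∂ν, t ∈ Ioc (0 : ℝ) 1 := ae_restrict_mem measurableSet_Ioc
  have hμ : ∀ᵐ p ∂μ, p.1 ∈ Icc (0 : ℝ) 1 ∧ p.2 ∈ Ioc (0 : ℝ) 1 :=
    (Measure.quasiMeasurePreserving_fst.ae h1).and (Measure.quasiMeasurePreserving_snd.ae h2)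
  have hint : ∀ F : ℝ × ℝ → ℝ, Continuous F → Integrable F μ := by
    intro F hF
    obtain ⟨C, hC⟩ := ((isCompact_Icc (a := (0 : ℝ)) (b := 1)).prod
      (isCompact_Icc (a := (0 : ℝ)) (b := 1))).exists_bound_of_continuousOn hF.continuousOn
    exact Integrable.of_bound hF.aestronglyMeasurable C
      (hμ.mono fun p hp => hC p ⟨hp.1, ⟨hp.2.1.le, hp.2.2⟩⟩)
  have hLL : ∀ s, LL κ d Φ s = d * ∫ p, Φ ((1 - s) * p.2 ^ 2 * p.1) ∂μ := by
    intro s
    unfold LL VV bar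
    rw [intervalIntegral.integral_of_le zero_le_one,
      integral_prod_symm (fun p : ℝ × ℝ => Φ ((1 - s) * p.2 ^ 2 * p.1)) (hint _ (by fun_prop))]
  have hKO : ∀ s, KO κ d γ s = d * ∫ p, p.1 * p.2 ^ 2 * γ ((1 - s) * (p.1 * p.2 ^ 2)) ∂μ := by
    intro s
    unfold KO
    rw [integral_prod (fun p : ℝ × ℝ => p.1 * p.2 ^ 2 * γ ((1 - s) * (p.1 * p.2 ^ 2)))
      (hint _ (by fun_prop))]
    simp only [intervalIntegral.integral_of_le zero_le_one, ν]
  have hbd : ∀ x : ℝ, ∀ p : ℝ × ℝ, p.1 ∈ Icc (0 : ℝ) 1 ∧ p.2 ∈ Ioc (0 : ℝ) 1 →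
      |p.1 * p.2 ^ 2 * γ x| ≤ L := by
    intro x p hp
    have hL : 0 ≤ L := (abs_nonneg _).trans (hb x)
    have h3 : |p.1 * p.2 ^ 2| ≤ 1 := by
      rw [abs_of_nonneg (mul_nonneg hp.1.1 (sq_nonneg _))]
      have : p.2 ^ 2 ≤ 1 := by nlinarith [hp.2.1, hp.2.2]
      nlinarith [hp.1.1, hp.1.2, sq_nonneg p.2]
    rw [abs_mul]
    calc |p.1 * p.2 ^ 2| * |γ x| ≤ 1 * L := mul_le_mul h3 (hb x) (abs_nonneg _) zero_le_one
      _ = L := one_mul L
  constructor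
  · have hd := (hasDerivAt_integral_of_dominated_loc_of_deriv_le (μ := μ) (x₀ := s)
      (F := fun s p => Φ ((1 - s) * p.2 ^ 2 * p.1))
      (F' := fun s p => -(p.1 * p.2 ^ 2 * γ ((1 - s) * (p.1 * p.2 ^ 2))))
      (s := univ) (bound := fun _ => L) Filter.univ_mem
      (Filter.Eventually.of_forall fun x => (by fun_prop : Continuous
        (fun p : ℝ × ℝ => Φ ((1 - x) * p.2 ^ 2 * p.1))).aestronglyMeasurable)
      (hint _ (by fun_prop))
      (by fun_prop : Continuous (fun p : ℝ × ℝ =>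
        -(p.1 * p.2 ^ 2 * γ ((1 - s) * (p.1 * p.2 ^ 2))))).aestronglyMeasurable
      (hμ.mono fun p hp x _ => by
        rw [Real.norm_eq_abs, abs_neg]
        exact hbd _ p hp)
      (integrable_const L)
      (Filter.Eventually.of_forall fun p x _ => by
        have h3 : HasDerivAt (fun x : ℝ => (1 - x) * p.2 ^ 2 * p.1) (-1 * p.2 ^ 2 * p.1) x :=
          (((hasDerivAt_id x).const_sub 1).mul_const _).mul_const _
        have h4 := (hΦ ((1 - x) * p.2 ^ 2 * p.1)).comp x h3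
        refine h4.congr_deriv ?_
        have e : (1 - x) * (p.1 * p.2 ^ 2) = (1 - x) * p.2 ^ 2 * p.1 := by ring
        rw [e]; ring)).2
    have h5 := hd.const_mul d
    have e1 : LL κ d Φ = fun s => d * ∫ p, Φ ((1 - s) * p.2 ^ 2 * p.1) ∂μ := funext hLL
    rw [e1]
    refine h5.congr_deriv ?_
    rw [hKO, integral_neg]; ring
  · have e1 : KO κ d γ = fun s => d * ∫ p, p.1 * p.2 ^ 2 * γ ((1 - s) * (p.1 * p.2 ^ 2)) ∂μ :=
      funext hKO
    rw [e1]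
    refine continuous_const.mul ?_
    refine continuous_of_dominated (bound := fun _ => L) (fun x => (by fun_prop : Continuous
        (fun p : ℝ × ℝ => p.1 * p.2 ^ 2 * γ ((1 - x) * (p.1 * p.2 ^ 2)))).aestronglyMeasurable)
      (fun x => hμ.mono fun p hp => hbd _ p hp) (integrable_const L)
      (Filter.Eventually.of_forall fun p => by fun_prop)

end Pool.Agent.K9h70.NC.LeafK1
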