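import Pool.Agent.K9h70.NC.BDefs

set_option autoImplicit false

namespace Pool.Agent.K9h70.NC.LeafK3

open MeasureTheory Set Metric

section

variable (κ : Measure ℝ) [IsProbabilityMeasure κ]

theorem ae_unit (hκ : κ (Icc 0 1)ᶜ = 0) : ∀ᵐ w ∂κ, w ∈ Icc (0 : ℝ) 1 := by
  rw [ae_iff]; exact hκ

instance nuFin : IsFiniteMeasure (volume.restrict (Ioc (0 : ℝ) 1)) := ⟨by simp⟩

theorem int_cont (hκ : κ (Icc 0 1)ᶜ = 0) (F : ℝ × ℝ → ℝ) (hF : Continuous F) :
    Integrable F (κ.prod (volume.restrict (Ioc (0 : ℝ) 1))) := by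
  have h2 : ∀ᵐ t ∂(volume.restrict (Ioc (0 : ℝ) 1)), t ∈ Ioc (0 : ℝ) 1 :=
    ae_restrict_mem measurableSet_Ioc
  have hμ : ∀ᵐ p ∂(κ.prod (volume.restrict (Ioc (0 : ℝ) 1))),
      p.1 ∈ Icc (0 : ℝ) 1 ∧ p.2 ∈ Ioc (0 : ℝ) 1 :=
    (Measure.quasiMeasurePreserving_fst.ae (ae_unit κ hκ)).and
      (Measure.quasiMeasurePreserving_snd.ae h2)
  obtain ⟨C, hC⟩ := ((isCompact_Icc (a := (0 : ℝ)) (b := 1)).prod
    (isCompact_Icc (a := (0 : ℝ)) (b := 1))).exists_bound_of_continuousOn hF.continuousOn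
  exact Integrable.of_bound hF.aestronglyMeasurable C
    (hμ.mono fun p hp => hC p ⟨hp.1, ⟨hp.2.1.le, hp.2.2⟩⟩)

theorem KO_eq (hκ : κ (Icc 0 1)ᶜ = 0) (d : ℝ) (γ : ℝ → ℝ) (hγ : Continuous γ) (s : ℝ) :
    KO κ d γ s = d * ∫ p, p.1 * p.2 ^ 2 * γ ((1 - s) * (p.1 * p.2 ^ 2))
      ∂(κ.prod (volume.restrict (Ioc (0 : ℝ) 1))) := by
  unfold KO
  rw [integral_prod (fun p : ℝ × ℝ => p.1 * p.2 ^ 2 * γ ((1 - s) * (p.1 * p.2 ^ 2)))
    (int_cont κ hκ _ (by fun_prop))]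
  simp only [intervalIntegral.integral_of_le zero_le_one]

theorem int_id (hκ : κ (Icc 0 1)ᶜ = 0) : Integrable (fun w : ℝ => w) κ := by
  refine Integrable.of_bound continuous_id.aestronglyMeasurable 1 ?_
  filter_upwards [ae_unit κ hκ] with w hw
  simp only [id, Real.norm_eq_abs]
  rw [abs_of_nonneg hw.1]; exact hw.2

theorem KO_const (hκ : κ (Icc 0 1)ᶜ = 0) (d : ℝ) (hd : 3 ≤ d) (hm : ∫ w, w ∂κ = 3 / d) (c s : ℝ) :
    KO κ d (fun _ => c) s = c := by
  unfold KO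
  have h1 : ∀ w : ℝ, (∫ t in (0 : ℝ)..1, w * t ^ 2 * c) = w * (c / 3) := by
    intro w
    have : ∀ t : ℝ, w * t ^ 2 * c = (w * c) * t ^ 2 := fun t => by ring
    simp only [this]
    rw [intervalIntegral.integral_const_mul, integral_pow]
    norm_num
    ring
  simp only [h1]
  rw [integral_mul_const, hm]
  have : d ≠ 0 := by linarith
  field_simp

theorem KO_add (hκ : κ (Icc 0 1)ᶜ = 0) (d : ℝ) (f g : ℝ → ℝ) (hf : Continuous f)
    (hg : Continuous g) (s : ℝ) :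
    KO κ d (fun z => f z + g z) s = KO κ d f s + KO κ d g s := by
  rw [KO_eq κ hκ d _ (by fun_prop), KO_eq κ hκ d f hf, KO_eq κ hκ d g hg, ← mul_add,
    ← integral_add (int_cont κ hκ _ (by fun_prop)) (int_cont κ hκ _ (by fun_prop))]
  congr 1
  refine integral_congr_ae (Filter.Eventually.of_forall fun p => ?_)
  simp only
  ring

theorem KO_mul (hκ : κ (Icc 0 1)ᶜ = 0) (d : ℝ) (f : ℝ → ℝ) (hf : Continuous f) (c s : ℝ) :
    KO κ d (fun z => c * f z) s = c * KO κ d f s := by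
  have e : ∫ p : ℝ × ℝ, p.1 * p.2 ^ 2 * (c * f ((1 - s) * (p.1 * p.2 ^ 2)))
      ∂(κ.prod (volume.restrict (Ioc (0 : ℝ) 1))) =
      c * ∫ p : ℝ × ℝ, p.1 * p.2 ^ 2 * f ((1 - s) * (p.1 * p.2 ^ 2))
      ∂(κ.prod (volume.restrict (Ioc (0 : ℝ) 1))) := by
    rw [← integral_const_mul]
    refine integral_congr_ae (Filter.Eventually.of_forall fun p => ?_)
    simp only
    ring
  rw [KO_eq κ hκ d _ (by fun_prop), KO_eq κ hκ d f hf, e]
  ring

/-- LEAF K2: `KO` is a Markov operator -/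
theorem KO_markov (hκ : κ (Icc 0 1)ᶜ = 0) (d : ℝ)
    (hd : 3 ≤ d) (hm : ∫ w, w ∂κ = 3 / d) (γ : ℝ → ℝ) (L : ℝ) (hγ : Continuous γ)
    (hb : ∀ z, |γ z| ≤ L) (s : ℝ) : |KO κ d γ s| ≤ L := by
  have hd0 : 0 < d := by linarith
  unfold KO
  rw [abs_mul, abs_of_pos hd0]
  have h1 : ‖∫ w, (∫ t in (0 : ℝ)..1, w * t ^ 2 * γ ((1 - s) * (w * t ^ 2))) ∂κ‖ ≤
      ∫ w, w * (L / 3) ∂κ := by
    refine norm_integral_le_of_norm_le ((int_id κ hκ).mul_const _) ?_
    filter_upwards [ae_unit κ hκ] with w hw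
    have h2 : ‖∫ t in (0 : ℝ)..1, w * t ^ 2 * γ ((1 - s) * (w * t ^ 2))‖ ≤
        ∫ t in (0 : ℝ)..1, (w * L) * t ^ 2 := by
      refine intervalIntegral.norm_integral_le_of_norm_le zero_le_one
        (Filter.Eventually.of_forall fun t _ => ?_) (by
          apply Continuous.intervalIntegrable; fun_prop)
      rw [Real.norm_eq_abs, abs_mul, abs_of_nonneg (mul_nonneg hw.1 (sq_nonneg t))]
      calc w * t ^ 2 * |γ ((1 - s) * (w * t ^ 2))| ≤ w * t ^ 2 * L :=
            mul_le_mul_of_nonneg_left (hb _) (mul_nonneg hw.1 (sq_nonneg t))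
        _ = w * L * t ^ 2 := by ring
    refine h2.trans (le_of_eq ?_)
    rw [intervalIntegral.integral_const_mul, integral_pow]
    norm_num
    ring
  rw [Real.norm_eq_abs, integral_mul_const, hm] at h1
  calc d * |∫ w, (∫ t in (0 : ℝ)..1, w * t ^ 2 * γ ((1 - s) * (w * t ^ 2))) ∂κ|
      ≤ d * (3 / d * (L / 3)) := mul_le_mul_of_nonneg_left h1 hd0.le
    _ = L := by field_simp

theorem KO_cont (hκ : κ (Icc 0 1)ᶜ = 0) (d : ℝ) (γ : ℝ → ℝ) (L : ℝ) (hγ : Continuous γ)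
    (hb : ∀ z, |γ z| ≤ L) : Continuous (KO κ d γ) := by
  have h2 : ∀ᵐ t ∂(volume.restrict (Ioc (0 : ℝ) 1)), t ∈ Ioc (0 : ℝ) 1 :=
    ae_restrict_mem measurableSet_Ioc
  have hμ : ∀ᵐ p ∂(κ.prod (volume.restrict (Ioc (0 : ℝ) 1))),
      p.1 ∈ Icc (0 : ℝ) 1 ∧ p.2 ∈ Ioc (0 : ℝ) 1 :=
    (Measure.quasiMeasurePreserving_fst.ae (ae_unit κ hκ)).and
      (Measure.quasiMeasurePreserving_snd.ae h2)
  have hbd : ∀ x : ℝ, ∀ p : ℝ × ℝ, p.1 ∈ Icc (0 : ℝ) 1 ∧ p.2 ∈ Ioc (0 : ℝ) 1 →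
      |p.1 * p.2 ^ 2 * γ x| ≤ L := by
    intro x p hp
    have hL : 0 ≤ L := (abs_nonneg _).trans (hb x)
    have h3 : |p.1 * p.2 ^ 2| ≤ 1 := by
      rw [abs_of_nonneg (mul_nonneg hp.1.1 (sq_nonneg _))]
      have : p.2 ^ 2 ≤ 1 := by nlinarith [hp.2.1, hp.2.2]
      nlinarith [hp.1.1, hp.1.2, sq_nonneg p.2]
    rw [abs_mul]
    calc |p.1 * p.2 ^ 2| * |γ x| ≤ 1 * L := mul_le_mul h3 (hb x) (abs_nonneg _) zero_le_one
      _ = L := one_mul L
  have e1 : KO κ d γ = fun s => d * ∫ p, p.1 * p.2 ^ 2 * γ ((1 - s) * (p.1 * p.2 ^ 2))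
      ∂(κ.prod (volume.restrict (Ioc (0 : ℝ) 1))) := funext fun s => KO_eq κ hκ d γ hγ s
  rw [e1]
  refine continuous_const.mul ?_
  refine continuous_of_dominated (bound := fun _ => L) (fun x => (by fun_prop : Continuous
      (fun p : ℝ × ℝ => p.1 * p.2 ^ 2 * γ ((1 - x) * (p.1 * p.2 ^ 2)))).aestronglyMeasurable)
    (fun x => hμ.mono fun p hp => hbd _ p hp) (integrable_const L)
    (Filter.Eventually.of_forall fun p => by fun_prop)

/-- change of variables in the inner integral -/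
theorem inner_ge (g : ℝ → ℝ) (hg : Continuous g) (h0 : ∀ z, 0 ≤ g z) (w : ℝ)
    (hw : w ∈ Icc (0 : ℝ) 1) :
    (1 / 2) * ∫ r in (0 : ℝ)..w, r * g r ≤ ∫ t in (0 : ℝ)..1, w * t ^ 2 * g (w * t ^ 2) := by
  have h1 : ∫ t in (0 : ℝ)..1, (fun r => r * g r) (w * t ^ 2) * (w * (2 * t)) =
      ∫ r in (w * (0 : ℝ) ^ 2)..(w * 1 ^ 2), r * g r := by
    refine intervalIntegral.integral_comp_mul_deriv (f := fun t : ℝ => w * t ^ 2)
      (f' := fun t => w * (2 * t)) (g := fun r => r * g r) ?_ ?_ ?_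
    · intro x _
      have := ((hasDerivAt_id x).pow 2).const_mul w
      refine this.congr_deriv ?_
      simp
    · exact Continuous.continuousOn (by fun_prop)
    · fun_prop
  have h2 : (w * (0 : ℝ) ^ 2) = 0 := by ring
  have h3 : (w * (1 : ℝ) ^ 2) = w := by ring
  rw [h2, h3] at h1
  rw [← h1, ← intervalIntegral.integral_const_mul]
  refine intervalIntegral.integral_mono_on zero_le_one ?_ ?_ ?_
  · apply Continuous.intervalIntegrable; fun_prop
  · apply Continuous.intervalIntegrable; fun_prop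
  · intro t ht
    have e : 1 / 2 * ((fun r => r * g r) (w * t ^ 2) * (w * (2 * t))) =
        (w * t ^ 2 * g (w * t ^ 2)) * (w * t) := by
      simp only; ring
    rw [e]
    have h4 : 0 ≤ w * t ^ 2 * g (w * t ^ 2) :=
      mul_nonneg (mul_nonneg hw.1 (sq_nonneg t)) (h0 _)
    have h5 : w * t ≤ 1 := by nlinarith [hw.1, hw.2, ht.1, ht.2]
    nlinarith

/-- key lower bound -/
theorem key (hκ : κ (Icc 0 1)ᶜ = 0) (d : ℝ) (hd : 3 ≤ d) (hm : ∫ w, w ∂κ = 3 / d)
    (g : ℝ → ℝ) (hg : Continuous g) (h0 : ∀ z, 0 ≤ g z) (s : ℝ) :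
    (3 / 4) * ∫ r in (0 : ℝ)..(3 / (2 * d)), r * g ((1 - s) * r) ≤ KO κ d g s := by
  have hd0 : 0 < d := by linarith
  set r0 : ℝ := 3 / (2 * d) with hr0
  have hr0p : 0 < r0 := by positivity
  set g' : ℝ → ℝ := fun r => g ((1 - s) * r) with hg'
  have hg'c : Continuous g' := by fun_prop
  have hg'0 : ∀ z, 0 ≤ g' z := fun z => h0 _
  set G : ℝ → ℝ := fun w => ∫ r in (0 : ℝ)..w, r * g' r with hG
  have hG0 : 0 ≤ G r0 := by
    refine intervalIntegral.integral_nonneg hr0p.le fun r hr => mul_nonneg hr.1 (hg'0 r)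
  have hI : ∀ w ∈ Icc (0 : ℝ) 1, (1 / 2) * G r0 * (w - r0) ≤
      ∫ t in (0 : ℝ)..1, w * t ^ 2 * g ((1 - s) * (w * t ^ 2)) := by
    intro w hw
    have h1 := inner_ge g' hg'c hg'0 w hw
    have h2 : 0 ≤ G w := intervalIntegral.integral_nonneg hw.1 fun r hr => mul_nonneg hr.1 (hg'0 r)
    refine le_trans ?_ h1
    change (1 / 2) * G r0 * (w - r0) ≤ 1 / 2 * G w
    rcases le_or_gt w r0 with h | h
    · nlinarith
    · have h3 : G r0 ≤ G w := by
        have h4 : G w = G r0 + ∫ r in r0..w, r * g' r := by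
          rw [hG]
          simp only
          rw [intervalIntegral.integral_add_adjacent_intervals]
          · apply Continuous.intervalIntegrable; fun_prop
          · apply Continuous.intervalIntegrable; fun_prop
        have h5 : 0 ≤ ∫ r in r0..w, r * g' r :=
          intervalIntegral.integral_nonneg h.le fun r hr =>
            mul_nonneg (hr0p.le.trans hr.1) (hg'0 r)
        linarith
      have h6 : w - r0 ≤ 1 := by linarith [hw.2]
      nlinarith
  have hint : Integrable (fun w => ∫ t in (0 : ℝ)..1, w * t ^ 2 * g ((1 - s) * (w * t ^ 2))) κ := by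
    have := (int_cont κ hκ (fun p => p.1 * p.2 ^ 2 * g ((1 - s) * (p.1 * p.2 ^ 2)))
      (by fun_prop)).integral_prod_left
    simpa only [intervalIntegral.integral_of_le zero_le_one] using this
  have h7 : ∫ w, (1 / 2) * G r0 * (w - r0) ∂κ ≤
      ∫ w, (∫ t in (0 : ℝ)..1, w * t ^ 2 * g ((1 - s) * (w * t ^ 2))) ∂κ := by
    refine integral_mono_ae (((int_id κ hκ).sub (integrable_const r0)).const_mul _) hint ?_
    filter_upwards [ae_unit κ hκ] with w hw
    exact hI w hw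
  rw [integral_const_mul, integral_sub (int_id κ hκ) (integrable_const r0), hm] at h7
  simp only [integral_const, probReal_univ, smul_eq_mul, one_mul] at h7
  unfold KO
  have h8 : 3 / d - r0 = 3 / (2 * d) := by rw [hr0]; field_simp; ring
  rw [h8] at h7
  calc 3 / 4 * G r0 = d * (1 / 2 * G r0 * (3 / (2 * d))) := by field_simp; ring
    _ ≤ _ := mul_le_mul_of_nonneg_left h7 hd0.le

/-- lower bound by a fixed interval -/
theorem lowJ (hκ : κ (Icc 0 1)ᶜ = 0) (d : ℝ) (hd : 3 ≤ d) (hm : ∫ w, w ∂κ = 3 / d)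
    (g : ℝ → ℝ) (hg : Continuous g) (h0 : ∀ z, 0 ≤ g z) (s : ℝ) (hs : s ∈ Icc (0 : ℝ) (1 / 2)) :
    (3 * (3 / (2 * d)) / 16) * ∫ r in (3 / (2 * d) / 4)..(3 / (2 * d) / 2), g r ≤ KO κ d g s := by
  have hd0 : 0 < d := by linarith
  refine le_trans ?_ (key κ hκ d hd hm g hg h0 s)
  set r0 : ℝ := 3 / (2 * d) with hr0
  have hr0p : 0 < r0 := by positivity
  have hs1 : 0 < 1 - s := by linarith [hs.2]
  have h1 : ∫ r in (0 : ℝ)..r0, r * g ((1 - s) * r) =
      (1 - s)⁻¹ * ((1 - s)⁻¹ * ∫ u in (0 : ℝ)..((1 - s) * r0), u * g u) := by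
    have h2 := intervalIntegral.integral_comp_mul_left (a := 0) (b := r0)
      (fun u => u * g u) hs1.ne'
    simp only [mul_zero, smul_eq_mul] at h2
    rw [← h2, ← intervalIntegral.integral_const_mul]
    refine intervalIntegral.integral_congr fun r _ => ?_
    field_simp
  have h3 : (1 : ℝ) ≤ (1 - s)⁻¹ := by
    rw [one_le_inv₀ hs1]; linarith [hs.1]
  have h4 : 0 ≤ ∫ u in (0 : ℝ)..((1 - s) * r0), u * g u :=
    intervalIntegral.integral_nonneg (by positivity) fun u hu => mul_nonneg hu.1 (h0 u)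
  have h5 : r0 / 4 * ∫ r in (r0 / 4)..(r0 / 2), g r ≤ ∫ u in (0 : ℝ)..((1 - s) * r0), u * g u := by
    have hc : Continuous fun u => u * g u := by fun_prop
    have e1 : ∫ u in (0 : ℝ)..((1 - s) * r0), u * g u =
        (∫ u in (0 : ℝ)..(r0 / 4), u * g u) + (∫ u in (r0 / 4)..(r0 / 2), u * g u) +
          ∫ u in (r0 / 2)..((1 - s) * r0), u * g u := by
      rw [intervalIntegral.integral_add_adjacent_intervals (hc.intervalIntegrable _ _)
        (hc.intervalIntegrable _ _), intervalIntegral.integral_add_adjacent_intervals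
        (hc.intervalIntegrable _ _) (hc.intervalIntegrable _ _)]
    have e2 : 0 ≤ ∫ u in (0 : ℝ)..(r0 / 4), u * g u :=
      intervalIntegral.integral_nonneg (by positivity) fun u hu => mul_nonneg hu.1 (h0 u)
    have e3 : 0 ≤ ∫ u in (r0 / 2)..((1 - s) * r0), u * g u :=
      intervalIntegral.integral_nonneg (by nlinarith [hs.2]) fun u hu =>
        mul_nonneg (by linarith [hu.1]) (h0 u)
    have e4 : r0 / 4 * ∫ r in (r0 / 4)..(r0 / 2), g r ≤ ∫ u in (r0 / 4)..(r0 / 2), u * g u := by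
      rw [← intervalIntegral.integral_const_mul]
      refine intervalIntegral.integral_mono_on (by linarith) ?_ (hc.intervalIntegrable _ _) ?_
      · apply Continuous.intervalIntegrable; fun_prop
      · intro u hu
        exact mul_le_mul_of_nonneg_right hu.1 (h0 u)
    linarith
  rw [h1]
  have h6 : ∫ u in (0 : ℝ)..((1 - s) * r0), u * g u ≤
      (1 - s)⁻¹ * ((1 - s)⁻¹ * ∫ u in (0 : ℝ)..((1 - s) * r0), u * g u) := by
    set I := ∫ u in (0 : ℝ)..((1 - s) * r0), u * g u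
    have h7 : I ≤ (1 - s)⁻¹ * I := by nlinarith
    have h8 : (1 - s)⁻¹ * I ≤ (1 - s)⁻¹ * ((1 - s)⁻¹ * I) :=
      mul_le_mul_of_nonneg_left h7 (by positivity)
    linarith
  have e5 : 3 * r0 / 16 * ∫ r in (r0 / 4)..(r0 / 2), g r =
      3 / 4 * (r0 / 4 * ∫ r in (r0 / 4)..(r0 / 2), g r) := by ring
  rw [e5]
  linarith

theorem half (hκ : κ (Icc 0 1)ᶜ = 0) (d : ℝ) (hd : 3 ≤ d) (hm : ∫ w, w ∂κ = 3 / d)
    (γ : ℝ → ℝ) (L : ℝ) (hγ : Continuous γ) (hb : ∀ z, |γ z| ≤ L) (s : ℝ)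
    (hs : s ∈ Icc (0 : ℝ) 1) :
    KO κ d (KO κ d γ) s - KO κ d (KO κ d (KO κ d γ)) s ≤
      (2 - 3 / 8 * (3 / (2 * d)) ^ 2 * (2 * (3 * (3 / (2 * d)) / 16) ^ 2 *
        (3 / (2 * d) / 4) ^ 2)) * L := by
  have hd0 : 0 < d := by linarith
  set r0 : ℝ := 3 / (2 * d) with hr0
  have hr0p : 0 < r0 := by positivity
  have hr0h : r0 ≤ 1 / 2 := by
    rw [hr0, div_le_iff₀ (by positivity)]; linarith
  set c : ℝ := 3 * r0 / 16 with hc
  have hcp : 0 < c := by positivity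
  set J : ℝ := r0 / 4 with hJ
  have hJp : 0 < J := by positivity
  have hL : 0 ≤ L := (abs_nonneg _).trans (hb 0)
  set K : (ℝ → ℝ) → ℝ → ℝ := KO κ d with hK
  have hKγ : Continuous (K γ) := KO_cont κ hκ d γ L hγ hb
  have hKb : ∀ z, |K γ z| ≤ L := KO_markov κ hκ d hd hm γ L hγ hb
  have hKKγ : Continuous (K (K γ)) := KO_cont κ hκ d _ L hKγ hKb
  have hKKb : ∀ z, |K (K γ) z| ≤ L := KO_markov κ hκ d hd hm _ L hKγ hKb
  -- linearity
  have lin : ∀ f g : ℝ → ℝ, Continuous f → Continuous g → ∀ α z,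
      K (fun z => α + -1 * f z + g z) z = α + -1 * K f z + K g z := by
    intro f g hf hg α z
    have e1 := KO_add κ hκ d (fun z => α + -1 * f z) g (by fun_prop) hg z
    have e2 := KO_add κ hκ d (fun _ => α) (fun z => -1 * f z) (by fun_prop) (by fun_prop) z
    have e3 := KO_mul κ hκ d f hf (-1) z
    have e4 := KO_const κ hκ d hd hm α z
    rw [hK]
    rw [e1, e2, e3, e4]
  set h : ℝ → ℝ := fun z => 2 * L + -1 * γ z + K γ z with hh
  have hhc : Continuous h := by fun_prop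
  have hh0 : ∀ z, 0 ≤ h z := fun z => by
    have h1 := (abs_le.1 (hb z)).2
    have h2 := (abs_le.1 (hKb z)).1
    simp only [hh]; linarith
  have hKh : K h = fun z => 2 * L + -1 * K γ z + K (K γ) z :=
    funext fun z => lin γ (K γ) hγ hKγ (2 * L) z
  have hKKh : ∀ z, K (K h) z = 2 * L + -1 * K (K γ) z + K (K (K γ)) z := by
    intro z
    rw [hKh]
    exact lin (K γ) (K (K γ)) hKγ hKKγ (2 * L) z
  have hKhc : Continuous (K h) := by rw [hKh]; fun_prop
  have hKh0 : ∀ z, 0 ≤ K h z := fun z => by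
    rw [hKh]
    have h1 := (abs_le.1 (hKb z)).2
    have h2 := (abs_le.1 (hKKb z)).1
    linarith
  -- the integral over the interval
  have hLγ : ∀ z ∈ Icc (0 : ℝ) (1 / 2), c * (∫ r in (r0 / 4)..(r0 / 2), (L + γ r)) ≤ L + K γ z := by
    intro z hz
    have h1 := lowJ κ hκ d hd hm (fun r => L + γ r) (by fun_prop)
      (fun r => by have := (abs_le.1 (hb r)).1; linarith) z hz
    have e1 := KO_add κ hκ d (fun _ => L) γ (by fun_prop) hγ z
    rw [KO_const κ hκ d hd hm] at e1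
    rw [e1] at h1
    exact h1
  have hA : c * J * (2 * L * J) ≤ ∫ r in (r0 / 4)..(r0 / 2), h r := by
    set A := ∫ r in (r0 / 4)..(r0 / 2), (L - γ r) with hAdef
    set B := ∫ r in (r0 / 4)..(r0 / 2), (L + γ r) with hBdef
    have hA0 : 0 ≤ A := intervalIntegral.integral_nonneg (by linarith) fun r _ => by
      have := (abs_le.1 (hb r)).2; linarith
    have hB0 : 0 ≤ B := intervalIntegral.integral_nonneg (by linarith) fun r _ => by
      have := (abs_le.1 (hb r)).1; linarith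
    have e1 : A + B = 2 * L * J := by
      rw [hAdef, hBdef, ← intervalIntegral.integral_add
        (by apply Continuous.intervalIntegrable; fun_prop)
        (by apply Continuous.intervalIntegrable; fun_prop)]
      have : ∀ r : ℝ, (L - γ r) + (L + γ r) = 2 * L := fun r => by ring
      simp only [this, intervalIntegral.integral_const, smul_eq_mul, hJ]
      ring
    have e2 : ∫ r in (r0 / 4)..(r0 / 2), h r = A + ∫ r in (r0 / 4)..(r0 / 2), (L + K γ r) := by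
      rw [hAdef, ← intervalIntegral.integral_add
        (by apply Continuous.intervalIntegrable; fun_prop)
        (by apply Continuous.intervalIntegrable; fun_prop)]
      refine intervalIntegral.integral_congr fun r _ => ?_
      simp only [hh]; ring
    have e3 : J * (c * B) ≤ ∫ r in (r0 / 4)..(r0 / 2), (L + K γ r) := by
      have : ∫ r in (r0 / 4)..(r0 / 2), c * B = J * (c * B) := by
        rw [intervalIntegral.integral_const, smul_eq_mul, hJ]; ring
      rw [← this]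
      refine intervalIntegral.integral_mono_on (by linarith) intervalIntegrable_const
        (by apply Continuous.intervalIntegrable; fun_prop) ?_
      intro r hr
      exact hLγ r ⟨by linarith [hr.1], by linarith [hr.2]⟩
    have e4 : c * J ≤ 1 := by
      rw [hc, hJ]; nlinarith
    rw [e2, ← e1]
    have : c * J * A ≤ A := by nlinarith
    nlinarith
  set m : ℝ := c * (c * J * (2 * L * J)) with hmdef
  have hm' : ∀ u ∈ Icc (0 : ℝ) (1 / 2), m ≤ K h u := by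
    intro u hu
    refine le_trans ?_ (lowJ κ hκ d hd hm h hhc hh0 u hu)
    exact mul_le_mul_of_nonneg_left hA hcp.le
  have hfin : 3 / 8 * r0 ^ 2 * m ≤ K (K h) s := by
    refine le_trans ?_ (key κ hκ d hd hm (K h) hKhc hKh0 s)
    have e1 : ∫ r in (0 : ℝ)..r0, r * m = r0 ^ 2 / 2 * m := by
      rw [intervalIntegral.integral_mul_const, integral_id]; ring
    have e2 : ∫ r in (0 : ℝ)..r0, r * m ≤ ∫ r in (0 : ℝ)..r0, r * K h ((1 - s) * r) := by
      refine intervalIntegral.integral_mono_on hr0p.le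
        (by apply Continuous.intervalIntegrable; fun_prop)
        (by apply Continuous.intervalIntegrable; fun_prop) ?_
      intro r hr
      refine mul_le_mul_of_nonneg_left (hm' _ ⟨mul_nonneg (by linarith [hs.2]) hr.1, ?_⟩) hr.1
      have h1 : (1 - s) * r ≤ 1 * r := mul_le_mul_of_nonneg_right (by linarith [hs.1]) hr.1
      linarith [hr.2]
    rw [e1] at e2
    linarith
  rw [hKKh] at hfin
  have e5 : 3 / 8 * r0 ^ 2 * m = 3 / 8 * r0 ^ 2 * (2 * c ^ 2 * J ^ 2) * L := by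
    rw [hmdef]; ring
  rw [e5] at hfin
  have e6 : (2 - 3 / 8 * r0 ^ 2 * (2 * c ^ 2 * J ^ 2)) * L =
      2 * L - 3 / 8 * r0 ^ 2 * (2 * c ^ 2 * J ^ 2) * L := by ring
  rw [e6]
  linarith

/-- LEAF K3 (Doeblin type estimate). -/
theorem KO_doeblin (hκ : κ (Icc 0 1)ᶜ = 0) (d : ℝ)
    (hd : 3 ≤ d) (hm : ∫ w, w ∂κ = 3 / d) : ∃ δ : ℝ, 0 < δ ∧ δ < 1 ∧ ∀ (γ : ℝ → ℝ) (L : ℝ),
      Continuous γ → (∀ z, |γ z| ≤ L) → ∀ s ∈ Icc (0 : ℝ) 1,
        |KO κ d (KO κ d γ) s - KO κ d (KO κ d (KO κ d γ)) s| ≤ (2 - δ) * L := by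
  have hd0 : 0 < d := by linarith
  have hr0h : 3 / (2 * d) ≤ 1 / 2 := by
    rw [div_le_iff₀ (by positivity)]; linarith
  have hr0p : 0 < 3 / (2 * d) := by positivity
  refine ⟨3 / 8 * (3 / (2 * d)) ^ 2 * (2 * (3 * (3 / (2 * d)) / 16) ^ 2 *
        (3 / (2 * d) / 4) ^ 2), by positivity, ?_, ?_⟩
  · set r0 := 3 / (2 * d)
    have h1 : r0 ^ 2 ≤ 1 := by nlinarith
    have h2 : (3 * r0 / 16) ^ 2 ≤ 1 := by nlinarith
    have h3 : (r0 / 4) ^ 2 ≤ 1 := by nlinarith
    have h4 : (3 * r0 / 16) ^ 2 * (r0 / 4) ^ 2 ≤ 1 := by nlinarith [sq_nonneg (3 * r0 / 16), sq_nonneg (r0 / 4)]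
    have h5 : r0 ^ 2 * ((3 * r0 / 16) ^ 2 * (r0 / 4) ^ 2) ≤ 1 := by
      nlinarith [sq_nonneg r0, mul_nonneg (sq_nonneg (3 * r0 / 16)) (sq_nonneg (r0 / 4))]
    nlinarith
  · intro γ L hγ hb s hs
    have h1 := half κ hκ d hd hm γ L hγ hb s hs
    have hb' : ∀ z, |(-1 * γ z)| ≤ L := fun z => by simpa using hb z
    have h2 := half κ hκ d hd hm (fun z => -1 * γ z) L (by fun_prop) hb' s hs
    have hKγ : Continuous (KO κ d γ) := KO_cont κ hκ d γ L hγ hb
    have hKb : ∀ z, |KO κ d γ z| ≤ L := KO_markov κ hκ d hd hm γ L hγ hb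
    have hKKγ : Continuous (KO κ d (KO κ d γ)) := KO_cont κ hκ d _ L hKγ hKb
    have e1 : KO κ d (fun z => -1 * γ z) = fun z => -1 * KO κ d γ z :=
      funext fun z => KO_mul κ hκ d γ hγ (-1) z
    have e2 : KO κ d (fun z => -1 * KO κ d γ z) = fun z => -1 * KO κ d (KO κ d γ) z :=
      funext fun z => KO_mul κ hκ d _ hKγ (-1) z
    have e3 : KO κ d (fun z => -1 * KO κ d (KO κ d γ) z) =
        fun z => -1 * KO κ d (KO κ d (KO κ d γ)) z :=
      funext fun z => KO_mul κ hκ d _ hKKγ (-1) z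
    rw [e1, e2, e3] at h2
    rw [abs_le]
    constructor
    · linarith
    · exact h1

end

end Pool.Agent.K9h70.NC.LeafK3
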