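import Pool.Agent.K9h70.NC.Prof

set_option autoImplicit false

namespace Pool.Agent.K9h70.NC.LeafP

open MeasureTheory Set Metric

section
variable {κ : Measure ℝ} [IsProbabilityMeasure κ] {Φ Φ' : ℝ → ℝ} {L : ℝ}

theorem cont_of_lip (hL : 0 ≤ L) (h : ∀ z z', |Φ z - Φ z'| ≤ L * |z - z'|) : Continuous Φ := by
  have : LipschitzWith (Real.toNNReal L) Φ := by
    refine LipschitzWith.of_dist_le_mul fun z z' => ?_
    rw [Real.dist_eq, Real.dist_eq, Real.coe_toNNReal _ hL]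
    exact h z z'
  exact this.continuous

theorem ae_mem (hκ : κ (Icc 0 1)ᶜ = 0) : ∀ᵐ w ∂κ, w ∈ Icc (0 : ℝ) 1 := by
  rw [ae_iff]
  exact hκ

theorem integrable_of_bdd (hc : Continuous Φ) (hb : ∀ z, |Φ z - 1| ≤ L) (z : ℝ) :
    Integrable (fun w => Φ (z * w)) κ := by
  refine Integrable.of_bound (C := 1 + L) ?_ ?_
  · exact (hc.comp (continuous_const_mul z)).aestronglyMeasurable
  · refine Filter.Eventually.of_forall fun w => ?_
    rw [Real.norm_eq_abs]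
    have := abs_le.1 (hb (z * w))
    rw [abs_le]
    constructor <;> linarith

theorem bar_near (hc : Continuous Φ) (hb : ∀ z, |Φ z - 1| ≤ L) (z : ℝ) : |bar κ Φ z - 1| ≤ L := by
  have h1 : bar κ Φ z - 1 = ∫ w, (Φ (z * w) - 1) ∂κ := by
    rw [integral_sub (integrable_of_bdd hc hb z) (integrable_const _)]
    simp [bar]
  rw [h1, ← Real.norm_eq_abs]
  refine (norm_integral_le_of_norm_le_const (C := L) ?_).trans ?_
  · exact Filter.Eventually.of_forall fun w => by rw [Real.norm_eq_abs]; exact hb _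
  · simp

theorem bar_lip (hκ : κ (Icc 0 1)ᶜ = 0) {c : ℝ} (hm : ∫ w, w ∂κ = c) (hL : 0 ≤ L)
    (h : ∀ z z', |Φ z - Φ z'| ≤ L * |z - z'|) (hb : ∀ z, |Φ z - 1| ≤ L) (z z' : ℝ) :
    |bar κ Φ z - bar κ Φ z'| ≤ L * c * |z - z'| := by
  have hc := cont_of_lip hL h
  have h1 : bar κ Φ z - bar κ Φ z' = ∫ w, (Φ (z * w) - Φ (z' * w)) ∂κ := by
    rw [integral_sub (integrable_of_bdd hc hb z) (integrable_of_bdd hc hb z')]
    rfl
  have hid : Integrable (fun w : ℝ => w) κ := by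
    refine Integrable.of_bound (C := 1) continuous_id.aestronglyMeasurable ?_
    filter_upwards [ae_mem hκ] with w hw
    rw [Real.norm_eq_abs, abs_of_nonneg hw.1]; exact hw.2
  rw [h1, ← Real.norm_eq_abs]
  have h2 : ‖∫ w, (Φ (z * w) - Φ (z' * w)) ∂κ‖ ≤ ∫ w, L * |z - z'| * w ∂κ := by
    refine norm_integral_le_of_norm_le (hid.const_mul _) ?_
    filter_upwards [ae_mem hκ] with w hw
    rw [Real.norm_eq_abs]
    refine (h _ _).trans ?_
    rw [← sub_mul, abs_mul, abs_of_nonneg hw.1, mul_assoc]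
  refine h2.trans ?_
  rw [integral_const_mul, hm]
  apply le_of_eq; ring

theorem VV_near {Ψ : ℝ → ℝ} (hc : Continuous Ψ) (hb : ∀ z, |Ψ z - 1| ≤ L) (z : ℝ) :
    |VV Ψ z - 1| ≤ L := by
  have h1 : VV Ψ z - 1 = ∫ t in (0 : ℝ)..1, (Ψ (z * t ^ 2) - 1) := by
    rw [intervalIntegral.integral_sub (by
      apply Continuous.intervalIntegrable; fun_prop) (by simp)]
    simp [VV]
  rw [h1, ← Real.norm_eq_abs]
  refine (intervalIntegral.norm_integral_le_of_norm_le_const (C := L) ?_).trans ?_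
  · intro t _
    rw [Real.norm_eq_abs]; exact hb _
  · simp

theorem VV_close {Ψ Ψ' : ℝ → ℝ} {δ : ℝ} (hc : Continuous Ψ) (hc' : Continuous Ψ')
    (hδ : ∀ z, |Ψ z - Ψ' z| ≤ δ) (z : ℝ) : |VV Ψ z - VV Ψ' z| ≤ δ := by
  have h1 : VV Ψ z - VV Ψ' z = ∫ t in (0 : ℝ)..1, (Ψ (z * t ^ 2) - Ψ' (z * t ^ 2)) := by
    rw [intervalIntegral.integral_sub (by
      apply Continuous.intervalIntegrable; fun_prop) (by
      apply Continuous.intervalIntegrable; fun_prop)]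
    rfl
  rw [h1, ← Real.norm_eq_abs]
  refine (intervalIntegral.norm_integral_le_of_norm_le_const (C := δ) ?_).trans ?_
  · intro t _
    rw [Real.norm_eq_abs]; exact hδ _
  · simp

end

/-- LEAF P1 (Lipschitz profiles): `L0 = L / (d (1 - L))`, `d = n - 1` -/
theorem prof_adm (κ : Measure ℝ) [IsProbabilityMeasure κ] (hκ : κ (Icc 0 1)ᶜ = 0) (d : ℝ)
    (hd : 3 ≤ d) (hm : ∫ w, w ∂κ = 3 / d) (Φ : ℝ → ℝ) (L : ℝ) (hL : 0 ≤ L) (hL2 : L ≤ 1 / 2)
    (h : ∀ z z', |Φ z - Φ z'| ≤ L * |z - z'|) (hb : ∀ z, |Φ z - 1| ≤ L) :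
    1 - L ≤ HH κ Φ 0 ∧ Adm1 (L / (d * (1 - L))) (GG κ Φ) (kk κ Φ) := by
  have hd0 : 0 < d := by linarith
  have hcΦ := cont_of_lip hL h
  set B := L * (3 / d) with hB
  have hB0 : 0 ≤ B := by positivity
  have hbl : ∀ z z', |bar κ Φ z - bar κ Φ z'| ≤ B * |z - z'| := bar_lip hκ hm hL h hb
  have hbc : Continuous (bar κ Φ) := cont_of_lip hB0 hbl
  have hbn : ∀ z, |bar κ Φ z - 1| ≤ L := bar_near hcΦ hb
  have hH0 : 1 - L ≤ HH κ Φ 0 := by
    have := (abs_le.1 (VV_near hbc hbn (1 - 0))).1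
    unfold HH; linarith
  have h1L : 0 < 1 - L := by linarith
  have hHp : 0 < HH κ Φ 0 := by linarith
  have hB3 : B / 3 = L / d := by rw [hB]; field_simp
  have hVl : ∀ z z', |VV (bar κ Φ) z - VV (bar κ Φ) z'| ≤ L / d * |z - z'| := by
    intro z z'
    have := VV_lip (bar κ Φ) B hB0 hbl z z'
    rwa [hB3] at this
  have hVs : ∀ z, 0 ≤ z → |bar κ Φ z - VV (bar κ Φ) z| ≤ 2 * (L / d) * z := by
    intro z hz
    have := VV_sub (bar κ Φ) B hB0 hbl z hz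
    have e : 2 * B / 3 = 2 * (L / d) := by rw [← hB3]; ring
    rwa [e] at this
  have hdiv : ∀ t : ℝ, 0 ≤ t → L / d * t / HH κ Φ 0 ≤ L / (d * (1 - L)) * t := by
    intro t ht
    calc L / d * t / HH κ Φ 0 ≤ L / d * t / (1 - L) := by gcongr
      _ = L / (d * (1 - L)) * t := by field_simp
  refine ⟨hH0, ⟨⟨?_, ?_⟩, ?_, ?_, ?_⟩⟩
  · unfold GG; exact div_self hHp.ne'
  · intro y _ y' _
    unfold GG
    rw [← sub_div, abs_div, abs_of_pos hHp]
    refine le_trans ?_ (hdiv _ (abs_nonneg _))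
    gcongr
    unfold HH
    refine (hVl _ _).trans ?_
    rw [show (1 - y - (1 - y')) = -(y - y') by ring, abs_neg]
  · intro y _ hy1
    have hz : 0 < 1 - y := by linarith
    have h1 := VV_deriv (bar κ Φ) B hB0 hbl (1 - y) hz
    have h2 : HasDerivAt (fun y : ℝ => 1 - y) (-1) y := by
      simpa using (hasDerivAt_id y).const_sub 1
    have h3 : HasDerivAt (fun y : ℝ => VV (bar κ Φ) (1 - y)) _ y := HasDerivAt.scomp y h1 h2
    have h4 := h3.div_const (HH κ Φ 0)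
    have h5 : GG κ Φ = fun y => VV (bar κ Φ) (1 - y) / HH κ Φ 0 := rfl
    rw [h5]
    refine h4.congr_deriv ?_
    unfold kk
    simp only [smul_eq_mul]
    field_simp
  · intro y hy
    unfold kk
    have hz : 0 ≤ 1 - y := by linarith [hy.2]
    rw [abs_div, abs_neg, abs_of_pos (by positivity : 0 < 2 * HH κ Φ 0)]
    refine le_trans ?_ (hdiv _ hz)
    rw [div_le_div_iff₀ (by positivity) hHp]
    have := mul_le_mul_of_nonneg_right (hVs (1 - y) hz) hHp.le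
    nlinarith
  · intro y hy y' hy'
    unfold kk
    rw [← sub_div, abs_div, abs_of_pos (by positivity : 0 < 2 * HH κ Φ 0)]
    have e : -(bar κ Φ (1 - y) - VV (bar κ Φ) (1 - y)) - -(bar κ Φ (1 - y') - VV (bar κ Φ) (1 - y')) =
        -(bar κ Φ (1 - y) - bar κ Φ (1 - y')) + (VV (bar κ Φ) (1 - y) - VV (bar κ Φ) (1 - y')) := by
      ring
    have h1 : |(-(bar κ Φ (1 - y) - bar κ Φ (1 - y')) +
        (VV (bar κ Φ) (1 - y) - VV (bar κ Φ) (1 - y')))| ≤ 4 * (L / d) * |y - y'| := by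
      refine (abs_add_le _ _).trans ?_
      rw [abs_neg]
      have a1 := hbl (1 - y) (1 - y')
      have a2 := hVl (1 - y) (1 - y')
      rw [show (1 - y - (1 - y')) = -(y - y') by ring, abs_neg] at a1 a2
      have e2 : B = 3 * (L / d) := by rw [← hB3]; ring
      rw [e2] at a1
      linarith
    rw [e]
    have h2 := hdiv |y - y'| (abs_nonneg _)
    calc |(-(bar κ Φ (1 - y) - bar κ Φ (1 - y')) +
        (VV (bar κ Φ) (1 - y) - VV (bar κ Φ) (1 - y')))| / (2 * HH κ Φ 0) ≤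
        4 * (L / d) * |y - y'| / (2 * HH κ Φ 0) := by gcongr
      _ = 2 * (L / d * |y - y'| / HH κ Φ 0) := by field_simp; ring
      _ ≤ 2 * (L / (d * (1 - L)) * |y - y'|) := by linarith
      _ = 2 * (L / (d * (1 - L))) * |y - y'| := by ring

/-- LEAF P2 (continuity) -/
theorem prof_close (κ : Measure ℝ) [IsProbabilityMeasure κ] (hκ : κ (Icc 0 1)ᶜ = 0)
    (Φ Φ' : ℝ → ℝ) (L δ : ℝ) (hL : 0 ≤ L) (hL2 : L ≤ 1 / 2)
    (h : ∀ z z', |Φ z - Φ z'| ≤ L * |z - z'|) (h' : ∀ z z', |Φ' z - Φ' z'| ≤ L * |z - z'|)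
    (hb : ∀ z, |Φ z - 1| ≤ L) (hb' : ∀ z, |Φ' z - 1| ≤ L) (hδ : ∀ z, |Φ z - Φ' z| ≤ δ) (y : ℝ) :
    |HH κ Φ y - HH κ Φ' y| ≤ δ ∧ |GG κ Φ y - GG κ Φ' y| ≤ 8 * δ := by
  have hc := cont_of_lip hL h
  have hc' := cont_of_lip hL h'
  have hbl := bar_lip hκ rfl hL h hb
  have hbl' := bar_lip hκ rfl hL h' hb'
  have hw0 : 0 ≤ ∫ w, w ∂κ := by
    apply integral_nonneg_of_ae
    filter_upwards [ae_mem hκ] with w hw using hw.1
  have hbc : Continuous (bar κ Φ) := cont_of_lip (by positivity) hbl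
  have hbc' : Continuous (bar κ Φ') := cont_of_lip (by positivity) hbl'
  have hbd : ∀ z, |bar κ Φ z - bar κ Φ' z| ≤ δ := by
    intro z
    have h1 : bar κ Φ z - bar κ Φ' z = ∫ w, (Φ (z * w) - Φ' (z * w)) ∂κ := by
      rw [integral_sub (integrable_of_bdd hc hb z) (integrable_of_bdd hc' hb' z)]
      rfl
    rw [h1, ← Real.norm_eq_abs]
    refine (norm_integral_le_of_norm_le_const (C := δ) ?_).trans ?_
    · exact Filter.Eventually.of_forall fun w => by rw [Real.norm_eq_abs]; exact hδ _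
    · simp
  have hH : ∀ y, |HH κ Φ y - HH κ Φ' y| ≤ δ := fun y => VV_close hbc hbc' hbd (1 - y)
  refine ⟨hH y, ?_⟩
  have n1 := abs_le.1 (VV_near hbc (bar_near hc hb) (1 - 0))
  have n2 := abs_le.1 (VV_near hbc' (bar_near hc' hb') (1 - 0))
  have n3 := abs_le.1 (VV_near hbc' (bar_near hc' hb') (1 - y))
  have hδ0 : 0 ≤ δ := (abs_nonneg _).trans (hH 0)
  have e1 : 1 / 2 ≤ HH κ Φ 0 := by
    have : HH κ Φ 0 = VV (bar κ Φ) (1 - 0) := rfl
    rw [this]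
    have q := n1.1
    generalize VV (bar κ Φ) (1 - 0) = A at q ⊢
    linarith
  have e2 : 1 / 2 ≤ HH κ Φ' 0 := by
    have : HH κ Φ' 0 = VV (bar κ Φ') (1 - 0) := rfl
    rw [this]
    have q := n2.1
    generalize VV (bar κ Φ') (1 - 0) = A at q ⊢
    linarith
  have e3 : |HH κ Φ' y| ≤ 3 / 2 := by
    unfold HH
    rw [abs_le]; constructor <;> linarith [n3.1, n3.2]
  have p1 : 0 < HH κ Φ 0 := by linarith
  have p2 : 0 < HH κ Φ' 0 := by linarith
  unfold GG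
  have e : HH κ Φ y / HH κ Φ 0 - HH κ Φ' y / HH κ Φ' 0 =
      (HH κ Φ y - HH κ Φ' y) / HH κ Φ 0 -
        HH κ Φ' y * (HH κ Φ 0 - HH κ Φ' 0) / (HH κ Φ 0 * HH κ Φ' 0) := by
    field_simp; ring
  rw [e]
  refine (abs_sub _ _).trans ?_
  rw [abs_div, abs_div, abs_mul, abs_of_pos p1, abs_of_pos (mul_pos p1 p2)]
  have t1 : |HH κ Φ y - HH κ Φ' y| / HH κ Φ 0 ≤ δ / (1 / 2) := by
    gcongr
    exact hH y
  have t2 : |HH κ Φ' y| * |HH κ Φ 0 - HH κ Φ' 0| / (HH κ Φ 0 * HH κ Φ' 0) ≤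
      3 / 2 * δ / (1 / 2 * (1 / 2)) := by
    gcongr
    exact hH 0
  calc _ ≤ δ / (1 / 2) + 3 / 2 * δ / (1 / 2 * (1 / 2)) := add_le_add t1 t2
    _ = 8 * δ := by ring

end Pool.Agent.K9h70.NC.LeafP
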