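import Pool.Agent.K9h70.NC.Fix
import Pool.Agent.K9h70.NC.Leaf_C
import Pool.Agent.K9h70.NC.Leaf_P
import Pool.Agent.K9h70.NC.Leaf_G1
import Pool.Agent.K9h70.NC.Leaf_G2
import Pool.Agent.K9h70.NC.Leaf_H

set_option autoImplicit false

namespace Pool.Agent.K9h70.NC

open MeasureTheory Set Metric

section ext

variable {L : ℝ} {φ φ' : C(Icc (0 : ℝ) 1, ℝ)}

theorem ext_lip (hL : 0 ≤ L) (hφ : φ ∈ KK L) (z z' : ℝ) : |ext φ z - ext φ z'| ≤ L * |z - z'| := by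
  unfold ext
  exact (hφ.2 _ _).trans (mul_le_mul_of_nonneg_left (Set.abs_projIcc_sub_projIcc zero_le_one) hL)

theorem ext_of_mem {z : ℝ} (hz : z ∈ Icc (0 : ℝ) 1) : ext φ z = φ ⟨z, hz⟩ := by
  unfold ext; rw [projIcc_of_mem zero_le_one hz]

theorem ext_zero (hφ : φ ∈ KK L) : ext φ 0 = 1 := by
  rw [ext_of_mem ⟨le_refl _, zero_le_one⟩]; exact hφ.1

theorem ext_near (hL : 0 ≤ L) (hφ : φ ∈ KK L) (z : ℝ) : |ext φ z - 1| ≤ L := by
  unfold ext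
  have h := hφ.2 (projIcc 0 1 zero_le_one z) ⟨0, by simp⟩
  rw [hφ.1] at h
  refine h.trans ?_
  have h2 := (projIcc (0 : ℝ) 1 zero_le_one z).2
  rw [sub_zero, abs_of_nonneg h2.1]
  exact mul_le_of_le_one_right hL h2.2

theorem ext_close (z : ℝ) : |ext φ z - ext φ' z| ≤ dist φ φ' := by
  unfold ext
  rw [← Real.dist_eq]
  exact ContinuousMap.dist_apply_le_dist _

end ext

/-- Fubini -/
theorem HH_eq {κ : Measure ℝ} [IsProbabilityMeasure κ] {Φ : ℝ → ℝ} {L : ℝ} (hc : Continuous Φ)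
    (hb : ∀ z, |Φ z - 1| ≤ L) (y : ℝ) :
    HH κ Φ y = ∫ w, (∫ t in (0 : ℝ)..1, Φ ((1 - y) * w * t ^ 2)) ∂κ := by
  unfold HH VV bar
  have h1 : ∀ t w : ℝ, Φ ((1 - y) * t ^ 2 * w) = Φ ((1 - y) * w * t ^ 2) := by
    intro t w; congr 1; ring
  simp only [h1]
  rw [intervalIntegral.integral_of_le zero_le_one]
  rw [integral_integral_swap]
  · congr 1
    funext w
    rw [intervalIntegral.integral_of_le zero_le_one]
  · refine Integrable.of_bound (C := 1 + L) ?_ ?_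
    · apply Continuous.aestronglyMeasurable
      unfold Function.uncurry
      fun_prop
    · refine Filter.Eventually.of_forall fun p => ?_
      rw [Real.norm_eq_abs]
      have := abs_le.1 (hb ((1 - y) * p.2 * p.1 ^ 2))
      show |Φ ((1 - y) * p.2 * p.1 ^ 2)| ≤ 1 + L
      rw [abs_le]
      constructor <;> linarith

variable {n : ℕ}

/-- the radial function of the intersection body of order `i` of a zonal star body -/
theorem orderRadial_zonal (hn : 4 ≤ n) {κ : Measure ℝ} [IsProbabilityMeasure κ] {ω : ℝ}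
    (hκ : κ (Icc 0 1)ᶜ = 0)
    (hsf : ∀ (u e : EuclideanSpace ℝ (Fin n)), ‖u‖ = 1 → ‖e‖ = 1 → ∀ F : ℝ → ℝ, Continuous F →
      ∫ v, F (inner ℝ ((v : (Submodule.span ℝ {u})ᗮ) : EuclideanSpace ℝ (Fin n)) e)
        ∂((volume : Measure (Submodule.span ℝ {u})ᗮ).toSphere) =
      ω * ∫ w, (∫ t in (0 : ℝ)..1, (F (Real.sqrt ((1 - inner ℝ u e ^ 2) * w) * t) +
        F (-(Real.sqrt ((1 - inner ℝ u e ^ 2) * w) * t))) / 2) ∂κ)
    (f : ℝ → ℝ) (hf : ContinuousOn f (Icc (-1) 1)) (hf0 : ∀ x ∈ Icc (-1 : ℝ) 1, 0 ≤ f x) (i : ℝ)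
    (hi : 0 < i) (Φ : ℝ → ℝ) (L : ℝ) (hc : Continuous Φ) (hb : ∀ z, |Φ z - 1| ≤ L) (c : ℝ)
    (hΦ : ∀ s ∈ Icc (0 : ℝ) 1, (f (Real.sqrt s) ^ i + f (-Real.sqrt s) ^ i) / 2 = c * Φ s)
    (e : (EuclideanSpace ℝ (Fin n))) (he : ‖e‖ = 1) (u : (EuclideanSpace ℝ (Fin n))) (hu : u ∈ sphere (0 : (EuclideanSpace ℝ (Fin n))) 1) :
    orderRadial i (starOf fun u => f (inner ℝ u e)) u =
      1 / ((n : ℝ) - 1) * (ω * (c * HH κ Φ (inner ℝ u e ^ 2))) := by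
  have hu1 : ‖u‖ = 1 := by simpa using hu
  have hg : ContinuousOn (fun u : (EuclideanSpace ℝ (Fin n)) => f (inner ℝ u e)) (sphere 0 1) := by
    refine hf.comp (by fun_prop) ?_
    intro v hv
    exact abs_le.1 (LeafG2.inner_abs_le hv he)
  have h0 : ∀ u ∈ sphere (0 : (EuclideanSpace ℝ (Fin n))) 1, 0 ≤ f (inner ℝ u e) := fun v hv =>
    hf0 _ (abs_le.1 (LeafG2.inner_abs_le hv he))
  have hr := LeafG1.radial_starOf (fun u : (EuclideanSpace ℝ (Fin n)) => f (inner ℝ u e)) h0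
  unfold orderRadial
  rw [finrank_euclideanSpace_fin]
  congr 1
  -- the continuous extension
  set F : ℝ → ℝ := fun x => f (projIcc (-1) 1 (by norm_num) x) ^ i with hF
  have hFc : Continuous F := by
    have h1 : Continuous fun x : ℝ => f (projIcc (-1 : ℝ) 1 (by norm_num) x) := by
      refine hf.comp_continuous (continuous_subtype_val.comp continuous_projIcc) ?_
      intro x
      exact (projIcc (-1 : ℝ) 1 (by norm_num) x).2
    exact h1.rpow_const fun x => Or.inr hi.le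
  have hFe : ∀ x ∈ Icc (-1 : ℝ) 1, F x = f x ^ i := by
    intro x hx
    rw [hF]
    simp only [projIcc_of_mem _ hx]
  have h1 := hsf u e hu1 he F hFc
  have h2 : ∫ v, (radial (starOf fun u => f (inner ℝ u e)) ((v : hyperplane u) : (EuclideanSpace ℝ (Fin n)))) ^ i
        ∂(sphereMeasure u) =
      ∫ v, F (inner ℝ ((v : (Submodule.span ℝ {u})ᗮ) : EuclideanSpace ℝ (Fin n)) e)
        ∂((volume : Measure (Submodule.span ℝ {u})ᗮ).toSphere) := by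
    unfold sphereMeasure hyperplane
    congr 1
    funext v
    have hv : ((v : (Submodule.span ℝ {u})ᗮ) : (EuclideanSpace ℝ (Fin n))) ∈ sphere (0 : (EuclideanSpace ℝ (Fin n))) 1 :=
      mem_sphere_zero_iff_norm.2 (mem_sphere_zero_iff_norm.1 v.2)
    rw [hFe _ (abs_le.1 (LeafG2.inner_abs_le hv he)), hr _ hv]
  rw [h2, h1, HH_eq hc hb]
  congr 1
  rw [← integral_const_mul]
  apply integral_congr_ae
  filter_upwards [LeafP.ae_mem hκ] with w hw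
  rw [← intervalIntegral.integral_const_mul]
  apply intervalIntegral.integral_congr
  intro t ht
  rw [uIcc_of_le zero_le_one] at ht
  simp only
  have hy : (inner ℝ u e : ℝ) ^ 2 ∈ Icc (0 : ℝ) 1 :=
    ⟨sq_nonneg _, (sq_le_one_iff_abs_le_one _).2 (LeafG2.inner_abs_le hu he)⟩
  have hyw : 0 ≤ (1 - (inner ℝ u e : ℝ) ^ 2) * w := mul_nonneg (by linarith [hy.2]) hw.1
  have hyw1 : (1 - (inner ℝ u e : ℝ) ^ 2) * w ≤ 1 :=
    mul_le_one₀ (by linarith [hy.1]) hw.1 hw.2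
  have hs : Real.sqrt ((1 - (inner ℝ u e : ℝ) ^ 2) * w * t ^ 2) =
      Real.sqrt ((1 - (inner ℝ u e : ℝ) ^ 2) * w) * t := by
    rw [Real.sqrt_mul hyw, Real.sqrt_sq ht.1]
  have hm : (1 - (inner ℝ u e : ℝ) ^ 2) * w * t ^ 2 ∈ Icc (0 : ℝ) 1 :=
    ⟨by positivity, mul_le_one₀ hyw1 (by positivity) (pow_le_one₀ ht.1 ht.2)⟩
  have hm2 : Real.sqrt ((1 - (inner ℝ u e : ℝ) ^ 2) * w) * t ∈ Icc (0 : ℝ) 1 := by
    rw [← hs]
    exact sqrt_mem ⟨_, hm⟩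
  have h3 := hΦ _ hm
  rw [hs] at h3
  rw [hFe _ ⟨by linarith [hm2.1], hm2.2⟩, hFe _ ⟨by linarith [hm2.2], by linarith [hm2.1]⟩]
  exact h3

/-- existence of the profile -/
theorem main1 (hn : 4 ≤ n) (i : ℝ) (hi : 0 < i) (hin : i < (n : ℝ) - 1) :
    ∃ ε : ℝ, 0 < ε ∧ ε ≤ 1 / 16 ∧ ∀ τ : ℝ, |τ| ≤ ε → ∃ (κ : Measure ℝ) (Φ : ℝ → ℝ) (L L0 C : ℝ),
      IsProbabilityMeasure κ ∧ κ (Icc 0 1)ᶜ = 0 ∧ 0 < ∫ w, w ∂κ ∧ 0 ≤ L ∧
      (∀ z z', |Φ z - Φ z'| ≤ L * |z - z'|) ∧ 0 ≤ L0 ∧ L0 ≤ 1 / 8 ∧ Adm L0 (GG κ Φ) ∧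
      0 < HH κ Φ 0 ∧ Φ 0 = 1 ∧ 0 < Fe (GG κ Φ) τ i 0 ∧
      (∀ s ∈ Icc (0 : ℝ) 1, Fe (GG κ Φ) τ i (Real.sqrt s) = Fe (GG κ Φ) τ i 0 * Φ s) ∧ 0 < C ∧
      (∀ e : (EuclideanSpace ℝ (Fin n)), ‖e‖ = 1 → ∀ u ∈ sphere (0 : (EuclideanSpace ℝ (Fin n))) 1,
        orderRadial i (starOf fun u => ff (GG κ Φ) τ (inner ℝ u e)) u =
          C * GG κ Φ (inner ℝ u e ^ 2)) := by
  obtain ⟨κ, ω, hκp, hω, hκ, hm, hsf⟩ := LeafH.sphere_formula n hn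
  have hn' : (4 : ℝ) ≤ n := by exact_mod_cast hn
  set d : ℝ := (n : ℝ) - 1 with hd
  have hd3 : 3 ≤ d := by rw [hd]; linarith
  have hd0 : 0 < d := by linarith
  obtain ⟨C1, hC1, hFl⟩ := Fe_lip i hi
  obtain ⟨L, τ0, hL, hL16, hτ0, hτ16, hpar⟩ := LeafC.params i d C1 hi hin hd3 hC1
  refine ⟨τ0, hτ0, hτ16, ?_⟩
  intro τ hτ
  have hpar := hpar τ hτ
  have hτ8 : |τ| ≤ 1 / 8 := by linarith
  have h1L : 0 < 1 - L := by linarith
  set L0 := L / (d * (1 - L)) with hL0d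
  have hL0p : 0 < L0 := by positivity
  have hL08 : L0 ≤ 1 / 8 := by
    rw [hL0d, div_le_iff₀ (by positivity)]
    nlinarith
  have hL2 : L ≤ 1 / 2 := by linarith
  have hprof : ∀ φ ∈ KK L, 1 - L ≤ HH κ (ext φ) 0 ∧ Adm1 L0 (GG κ (ext φ)) (kk κ (ext φ)) := by
    intro φ hφ
    exact LeafP.prof_adm κ hκ d hd3 hm (ext φ) L hL.le hL2 (ext_lip hL.le hφ) (ext_near hL.le hφ)
  obtain ⟨φ, hφ, hfix⟩ := fix i hi L L0 τ 8 hL.le hL0p.le hL08 hτ8 (by norm_num)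
    (fun φ => GG κ (ext φ)) (fun φ hφ => (hprof φ hφ).2.adm) (by
      intro φ hφ φ' hφ' y _
      exact (LeafP.prof_close κ hκ (ext φ) (ext φ') L (dist φ φ') hL.le hL2 (ext_lip hL.le hφ)
        (ext_lip hL.le hφ') (ext_near hL.le hφ) (ext_near hL.le hφ') ext_close y).2) (by
      intro φ hφ x hx x' hx'
      refine (hFl _ _ L0 τ hL0p.le hL08 hτ8 (hprof φ hφ).2 x hx x' hx').trans ?_
      gcongr)
  have hadm := (hprof φ hφ).2.adm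
  have hH0 : 0 < HH κ (ext φ) 0 := by linarith [(hprof φ hφ).1]
  have hbase : 0 < 1 - L0 - |τ| := by linarith
  have hF0 : 0 < Fe (GG κ (ext φ)) τ i 0 :=
    lt_of_lt_of_le (Real.rpow_pos_of_pos hbase i) (Fe_bd hL0p.le hL08 hτ8 hadm hi (by simp)).1
  have hfix' : ∀ s ∈ Icc (0 : ℝ) 1, Fe (GG κ (ext φ)) τ i (Real.sqrt s) =
      Fe (GG κ (ext φ)) τ i 0 * ext φ s := by
    intro s hs
    rw [ext_of_mem hs]
    exact hfix ⟨s, hs⟩
  refine ⟨κ, ext φ, L, L0, 1 / d * (ω * (Fe (GG κ (ext φ)) τ i 0 * HH κ (ext φ) 0)), hκp, hκ, ?_,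
    hL.le, ext_lip hL.le hφ, hL0p.le, hL08, hadm, hH0, ext_zero hφ, hF0, hfix', by positivity, ?_⟩
  · rw [hm]; positivity
  · intro e he u hu
    rw [orderRadial_zonal hn hκ hsf (ff (GG κ (ext φ)) τ) (ff_cont hL0p.le hL08 hτ8 hadm)
      (fun x hx => (ff_pos hL0p.le hL08 hτ8 hadm (abs_le.2 hx)).le) i hi (ext φ) L
      (LeafP.cont_of_lip hL.le (ext_lip hL.le hφ)) (ext_near hL.le hφ)
      (Fe (GG κ (ext φ)) τ i 0) (fun s hs => hfix' s hs) e he u hu]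
    have e1 : GG κ (ext φ) (inner ℝ u e ^ 2) =
        HH κ (ext φ) (inner ℝ u e ^ 2) / HH κ (ext φ) 0 := rfl
    rw [e1, ← hd]
    generalize Fe (GG κ (ext φ)) τ i 0 = A
    field_simp

end Pool.Agent.K9h70.NC
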