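import Pool.Agent.K9h70.NC.Leaf_A

set_option autoImplicit false

namespace Pool.Agent.K9h70.NC

open MeasureTheory Set Metric

alias VV_deriv := LeafA.VV_deriv
alias VV_lip := LeafA.VV_lip
alias VV_sub := LeafA.VV_sub

/-- extension of a state to the real line -/
noncomputable def ext (φ : C(Icc (0 : ℝ) 1, ℝ)) (z : ℝ) : ℝ := φ (projIcc 0 1 zero_le_one z)

/-- average over the law `κ` of the square of the norm of three coordinates -/
noncomputable def bar (κ : Measure ℝ) (Φ : ℝ → ℝ) (z : ℝ) : ℝ := ∫ w, Φ (z * w) ∂κ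

/-- spherical Radon transform of the zonal function `Φ (x ^ 2)`, as a function of `y`, the square of the
cosine -/
noncomputable def HH (κ : Measure ℝ) (Φ : ℝ → ℝ) (y : ℝ) : ℝ := VV (bar κ Φ) (1 - y)

/-- normalised -/
noncomputable def GG (κ : Measure ℝ) (Φ : ℝ → ℝ) (y : ℝ) : ℝ := HH κ Φ y / HH κ Φ 0

noncomputable def kk (κ : Measure ℝ) (Φ : ℝ → ℝ) (y : ℝ) : ℝ :=
  -(bar κ Φ (1 - y) - VV (bar κ Φ) (1 - y)) / (2 * HH κ Φ 0)

end Pool.Agent.K9h70.NC
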