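import Pool.Agent.K9h70.NC.Leaf_B

set_option autoImplicit false

namespace Pool.Agent.K9h70.NC

open MeasureTheory Set Metric Filter Topology

alias ee_mono := LeafB.ee_mono
alias ee_lipx := LeafB.ee_lipx

section basic

variable {G : ℝ → ℝ} {L τ : ℝ}

theorem nn_ge (hτ : |τ| ≤ 1 / 8) {x t : ℝ} (hx : |x| ≤ 1) (ht : 1 / 2 ≤ t) :
    (3 / 4 * t) ^ 2 ≤ nn τ x t := by
  unfold nn
  have h1 := abs_le.1 hτ
  have h2 : |τ * x| ≤ 1 / 8 := by
    rw [abs_mul]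
    have := mul_le_mul hτ hx (abs_nonneg _) (by norm_num)
    linarith
  have h3 := abs_le.1 h2
  have h4 : 2 * τ * t * x ≤ 2 * t * |τ| := by
    have e : 2 * τ * t * x = 2 * t * (τ * x) := by ring
    rw [e]
    have : τ * x ≤ |τ| := by
      calc τ * x ≤ |τ * x| := le_abs_self _
        _ = |τ| * |x| := abs_mul _ _
        _ ≤ |τ| * 1 := by gcongr
        _ = |τ| := mul_one _
    nlinarith
  have h5 : τ ^ 2 = |τ| ^ 2 := (sq_abs τ).symm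
  have h6 : (3 / 4 * t) ≤ t - |τ| := by linarith
  have h7 : (3 / 4 * t) ^ 2 ≤ (t - |τ|) ^ 2 := by
    apply pow_le_pow_left₀ (by linarith) h6
  nlinarith

theorem nn_pos (hτ : |τ| ≤ 1 / 8) {x t : ℝ} (hx : |x| ≤ 1) (ht : 1 / 2 ≤ t) : 0 < nn τ x t :=
  lt_of_lt_of_le (by positivity) (nn_ge hτ hx ht)

theorem nn_sub (τ x t : ℝ) : nn τ x t - (t * x - τ) ^ 2 = t ^ 2 * (1 - x ^ 2) := by
  unfold nn; ring

theorem nn_nonneg {τ x t : ℝ} (hx : |x| ≤ 1) : 0 ≤ nn τ x t := by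
  have h := nn_sub τ x t
  have h1 : 0 ≤ 1 - x ^ 2 := by
    have := sq_le_one_iff_abs_le_one x |>.2 hx
    linarith
  nlinarith [sq_nonneg (t * x - τ), mul_nonneg (sq_nonneg t) h1]

theorem yy_mem {τ x t : ℝ} (hx : |x| ≤ 1) : yy τ x t ∈ Icc (0 : ℝ) 1 := by
  have h := nn_sub τ x t
  have h1 : 0 ≤ 1 - x ^ 2 := by
    have := sq_le_one_iff_abs_le_one x |>.2 hx
    linarith
  have h0 := nn_nonneg (τ := τ) (t := t) hx
  refine ⟨div_nonneg (sq_nonneg _) h0, ?_⟩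
  unfold yy
  rcases h0.eq_or_lt with h2 | h2
  · rw [← h2]; simp
  · rw [div_le_one h2]
    nlinarith [mul_nonneg (sq_nonneg t) h1]

theorem one_sub_yy {τ x t : ℝ} (h : 0 < nn τ x t) :
    1 - yy τ x t = (1 - x ^ 2) * (t ^ 2 / nn τ x t) := by
  unfold yy
  have h1 := nn_sub τ x t
  field_simp
  linarith

theorem G_bd (hG : Adm L G) {y : ℝ} (hy : y ∈ Icc (0 : ℝ) 1) : |G y - 1| ≤ L * y := by
  have h := hG.lip y hy 0 ⟨le_refl _, zero_le_one⟩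
  rw [hG.one] at h
  rwa [sub_zero, abs_of_nonneg hy.1] at h

theorem G_bd' (hL : 0 ≤ L) (hG : Adm L G) {y : ℝ} (hy : y ∈ Icc (0 : ℝ) 1) : |G y - 1| ≤ L :=
  (G_bd hG hy).trans (by nlinarith [hy.1, hy.2])

theorem G_cont (hG : Adm L G) : ContinuousOn G (Icc (0 : ℝ) 1) := by
  have hL : LipschitzOnWith (Real.toNNReal (max L 0)) G (Icc (0 : ℝ) 1) := by
    refine LipschitzOnWith.of_dist_le_mul fun y hy y' hy' => ?_
    rw [Real.dist_eq, Real.dist_eq, Real.coe_toNNReal _ (le_max_right _ _)]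
    exact (hG.lip y hy y' hy').trans (by gcongr; exact le_max_left _ _)
  exact hL.continuousOn

/-- the distance to the centre differs from the distance to the origin by at most `|τ|` -/
theorem sqrt_nn {τ x t : ℝ} (hx : |x| ≤ 1) (ht : 0 ≤ t) : |Real.sqrt (nn τ x t) - t| ≤ |τ| := by
  have h1 : |τ * x| ≤ |τ| := by
    rw [abs_mul]
    nlinarith [abs_nonneg τ]
  have h2 := abs_le.1 h1
  rw [abs_le]
  constructor
  · have : t - |τ| ≤ Real.sqrt (nn τ x t) := by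
      by_cases hc : t ≤ |τ|
      · have := Real.sqrt_nonneg (nn τ x t); linarith
      · push Not at hc
        apply Real.le_sqrt_of_sq_le
        unfold nn
        nlinarith [sq_abs τ, mul_le_mul_of_nonneg_left h2.2 ht]
    linarith
  · have : Real.sqrt (nn τ x t) ≤ t + |τ| := by
      rw [Real.sqrt_le_left (by positivity)]
      unfold nn
      nlinarith [sq_abs τ, mul_le_mul_of_nonneg_left h2.1 ht]
    linarith

theorem nn_cont_t (τ x : ℝ) : Continuous fun t => nn τ x t := by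
  unfold nn; fun_prop

theorem ee_cont (hτ : |τ| ≤ 1 / 8) (hG : Adm L G) {x : ℝ} (hx : |x| ≤ 1) :
    ContinuousOn (fun t => ee G τ x t) (Ici (1 / 2)) := by
  unfold ee
  apply ContinuousOn.sub
  · exact (Real.continuous_sqrt.comp (nn_cont_t τ x)).continuousOn
  · refine (G_cont hG).comp ?_ (fun t _ => yy_mem hx)
    unfold yy
    apply ContinuousOn.div
    · fun_prop
    · exact (nn_cont_t τ x).continuousOn
    · intro t ht
      exact (nn_pos hτ hx ht).ne'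

theorem ee_half (hL8 : L ≤ 1 / 8) (hL : 0 ≤ L) (hτ : |τ| ≤ 1 / 8) (hG : Adm L G) {x t : ℝ}
    (hx : |x| ≤ 1) (ht0 : 0 ≤ t) (ht : t ≤ 1 / 2) : ee G τ x t < 0 := by
  unfold ee
  have h1 := (abs_le.1 (sqrt_nn (τ := τ) hx ht0)).2
  have h2 := (abs_le.1 (G_bd' hL hG (yy_mem (τ := τ) (t := t) hx))).1
  linarith

theorem ee_two (hL8 : L ≤ 1 / 8) (hL : 0 ≤ L) (hτ : |τ| ≤ 1 / 8) (hG : Adm L G) {x : ℝ}
    (hx : |x| ≤ 1) : 0 < ee G τ x 2 := by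
  unfold ee
  have h1 := (abs_le.1 (sqrt_nn (τ := τ) (t := 2) hx (by norm_num))).1
  have h2 := (abs_le.1 (G_bd' hL hG (yy_mem (τ := τ) (t := 2) hx))).2
  linarith

theorem ff_exists (hL : 0 ≤ L) (hL8 : L ≤ 1 / 8) (hτ : |τ| ≤ 1 / 8) (hG : Adm L G) {x : ℝ}
    (hx : |x| ≤ 1) : ∃ t ∈ Icc (1 / 2 : ℝ) 2, ee G τ x t = 0 := by
  have h := intermediate_value_Icc (by norm_num : (1 / 2 : ℝ) ≤ 2)
    ((ee_cont hτ hG hx).mono (fun t ht => ht.1))
  have h1 := ee_half hL8 hL hτ hG hx (by norm_num : (0 : ℝ) ≤ 1 / 2) le_rfl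
  have h2 := ee_two hL8 hL hτ hG hx
  obtain ⟨t, ht, h3⟩ := h ⟨h1.le, h2.le⟩
  exact ⟨t, ht, h3⟩

theorem ff_spec (hL : 0 ≤ L) (hL8 : L ≤ 1 / 8) (hτ : |τ| ≤ 1 / 8) (hG : Adm L G) {x : ℝ}
    (hx : |x| ≤ 1) : ff G τ x ∈ Icc (1 / 2 : ℝ) 2 ∧ ee G τ x (ff G τ x) = 0 := by
  have h := ff_exists hL hL8 hτ hG hx
  unfold ff
  rw [dif_pos h]
  exact h.choose_spec

theorem ff_ge (hL : 0 ≤ L) (hL8 : L ≤ 1 / 8) (hτ : |τ| ≤ 1 / 8) (hG : Adm L G) {x : ℝ}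
    (hx : |x| ≤ 1) : 1 / 2 ≤ ff G τ x := (ff_spec hL hL8 hτ hG hx).1.1

/-- `t` is at most the radial function if and only if the point is in the body -/
theorem ff_iff (hL : 0 ≤ L) (hL8 : L ≤ 1 / 8) (hτ : |τ| ≤ 1 / 8) (hG : Adm L G) {x t : ℝ}
    (hx : |x| ≤ 1) (ht : 0 ≤ t) : Real.sqrt (nn τ x t) ≤ G (yy τ x t) ↔ t ≤ ff G τ x := by
  have hs := ff_spec hL hL8 hτ hG hx
  rcases le_or_gt t (1 / 2) with h1 | h1
  · constructor
    · intro _; exact h1.trans hs.1.1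
    · intro _
      have := ee_half hL8 hL hτ hG hx ht h1
      unfold ee at this
      linarith
  · have e : Real.sqrt (nn τ x t) ≤ G (yy τ x t) ↔ ee G τ x t ≤ 0 := by
      unfold ee; exact sub_nonpos.symm
    rw [e]
    constructor
    · intro h2
      by_contra h3
      push Not at h3
      have := ee_mono G L τ hL hL8 hτ hG x hx _ _ hs.1.1 h3.le
      rw [hs.2] at this
      linarith
    · intro h2
      have := ee_mono G L τ hL hL8 hτ hG x hx _ _ h1.le h2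
      rw [hs.2] at this
      linarith

theorem ff_close (hL : 0 ≤ L) (hL8 : L ≤ 1 / 8) (hτ : |τ| ≤ 1 / 8) (hG : Adm L G) {x t : ℝ}
    (hx : |x| ≤ 1) (ht : 1 / 2 ≤ t) : |t - ff G τ x| ≤ 2 * |ee G τ x t| := by
  have hs := ff_spec hL hL8 hτ hG hx
  rcases le_total t (ff G τ x) with h1 | h1
  · have := ee_mono G L τ hL hL8 hτ hG x hx _ _ ht h1
    rw [hs.2] at this
    rw [abs_sub_comm, abs_of_nonneg (by linarith)]
    have h2 := neg_abs_le (ee G τ x t)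
    linarith
  · have := ee_mono G L τ hL hL8 hτ hG x hx _ _ hs.1.1 h1
    rw [hs.2] at this
    rw [abs_of_nonneg (by linarith)]
    have h2 := le_abs_self (ee G τ x t)
    linarith

theorem ff_lipx (hL : 0 ≤ L) (hL8 : L ≤ 1 / 8) (hτ : |τ| ≤ 1 / 8) (hG : Adm L G) {x x' : ℝ}
    (hx : |x| ≤ 1) (hx' : |x'| ≤ 1) : |ff G τ x - ff G τ x'| ≤ 2 * |x - x'| := by
  have h1 := ff_close hL hL8 hτ hG hx (ff_ge hL hL8 hτ hG hx')
  have h2 := ee_lipx G L τ hL hL8 hτ hG x x' hx hx' _ (ff_ge hL hL8 hτ hG hx')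
  rw [(ff_spec hL hL8 hτ hG hx').2, sub_zero] at h2
  rw [abs_sub_comm]
  linarith

theorem ff_lipG {G' : ℝ → ℝ} {δ : ℝ} (hL : 0 ≤ L) (hL8 : L ≤ 1 / 8) (hτ : |τ| ≤ 1 / 8)
    (hG : Adm L G) (hG' : Adm L G') (hd : ∀ y ∈ Icc (0 : ℝ) 1, |G y - G' y| ≤ δ) {x : ℝ}
    (hx : |x| ≤ 1) : |ff G τ x - ff G' τ x| ≤ 2 * δ := by
  have h1 := ff_close hL hL8 hτ hG hx (ff_ge hL hL8 hτ hG' hx)
  have h2 := (ff_spec hL hL8 hτ hG' hx).2
  have h3 : ee G τ x (ff G' τ x) = -(G (yy τ x (ff G' τ x)) - G' (yy τ x (ff G' τ x))) := by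
    have e : ee G τ x (ff G' τ x) = ee G τ x (ff G' τ x) - ee G' τ x (ff G' τ x) := by
      rw [h2, sub_zero]
    rw [e]; unfold ee; ring
  rw [h3, abs_neg] at h1
  have h4 := hd _ (yy_mem (τ := τ) (t := ff G' τ x) hx)
  rw [abs_sub_comm]
  linarith

theorem sqrt_ff (hL : 0 ≤ L) (hL8 : L ≤ 1 / 8) (hτ : |τ| ≤ 1 / 8) (hG : Adm L G) {x : ℝ}
    (hx : |x| ≤ 1) : Real.sqrt (nn τ x (ff G τ x)) = G (yy τ x (ff G τ x)) := by
  have := (ff_spec hL hL8 hτ hG hx).2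
  unfold ee at this
  linarith

theorem sqrt_ff_one (hL : 0 ≤ L) (hL8 : L ≤ 1 / 8) (hτ : |τ| ≤ 1 / 8) (hG : Adm L G) {x : ℝ}
    (hx : |x| ≤ 1) : |Real.sqrt (nn τ x (ff G τ x)) - 1| ≤ L := by
  rw [sqrt_ff hL hL8 hτ hG hx]
  exact G_bd' hL hG (yy_mem hx)

theorem ff_one (hL : 0 ≤ L) (hL8 : L ≤ 1 / 8) (hτ : |τ| ≤ 1 / 8) (hG : Adm L G) {x : ℝ}
    (hx : |x| ≤ 1) : |ff G τ x - 1| ≤ L + |τ| := by
  have h1 := sqrt_ff_one hL hL8 hτ hG hx
  have h2 := sqrt_nn (τ := τ) (t := ff G τ x) hx (by linarith [ff_ge hL hL8 hτ hG hx])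
  have h3 := abs_le.1 h1
  have h4 := abs_le.1 h2
  rw [abs_le]
  constructor <;> linarith

end basic

end Pool.Agent.K9h70.NC
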